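import Pool.Agent.H787R2.UT.St

set_option autoImplicit false

namespace Pool.Agent.H787R2.UT

open MeasureTheory Set Pool.Agent.H212R2.KLS
open scoped ENNReal InnerProductSpace

theorem asm (hTP : S_TP) (hGR : S_GR) (hFUB : S_FUB) : S_ASM := by
  intro n k ρ T σ A h hA hZP f hf
  have hP : IsProbabilityMeasure (mu ρ) := ⟨h.one⟩
  have hσ := h.σpos
  obtain ⟨hc, -, hZi, hZc, hN⟩ := hFUB n k (mu ρ) T σ hσ
  set c := ck k σ with hcd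
  set μ := mu ρ with hμ
  obtain ⟨hfc, B, hB⟩ := id hf
  have hLC : LC f := ⟨hfc, B, fun x => (hB x).2⟩
  have hcont : Continuous f := hfc.continuous
  have hdcont : Continuous (fderiv ℝ f) := hfc.continuous_fderiv (by norm_num)
  obtain ⟨hmBC, hm⟩ := hGR n k ρ T σ h f hf
  set m := mm μ T σ f with hmd
  -- Fubini for f, f^2, |f'|^2
  obtain ⟨If, Ef⟩ := hN f hcont ⟨B, fun x => (hB x).1⟩
  obtain ⟨If2, Ef2⟩ := hN (fun x => f x ^ 2) (by fun_prop) ⟨B ^ 2, fun x => by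
    rw [abs_of_nonneg (by positivity)]
    exact sq_le_sq' (by linarith [abs_le.1 (hB x).1]) (abs_le.1 (hB x).1).2⟩
  obtain ⟨Ig, Eg⟩ := hN (fun x => ‖fderiv ℝ f x‖ ^ 2) (by fun_prop) ⟨B ^ 2, fun x => by
    rw [abs_of_nonneg (by positivity)]
    exact pow_le_pow_left₀ (norm_nonneg _) (hB x).2 2⟩
  have hZpos : ∀ τ, 0 < Zz μ T σ τ := fun τ => (hTP n k ρ T σ h τ).1
  have hmZ : ∀ τ, m τ * Zz μ T σ τ = Nn μ T σ f τ := fun τ => by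
    rw [hmd]; unfold mm; rw [div_mul_cancel₀ _ (hZpos τ).ne']
  obtain ⟨hmC, B', hB'⟩ := id hmBC
  have hmcont : Continuous m := hmC.continuous
  have hmdcont : Continuous (fderiv ℝ m) := hmC.continuous_fderiv (by norm_num)
  have Im2 : Integrable (fun τ => m τ ^ 2 * Zz μ T σ τ) := by
    refine hZi.bdd_mul (c := B' ^ 2) (by fun_prop) (Filter.Eventually.of_forall fun τ => ?_)
    rw [Real.norm_of_nonneg (by positivity)]
    exact sq_le_sq' (by linarith [abs_le.1 (hB' τ).1]) (abs_le.1 (hB' τ).1).2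
  have Idm : Integrable (fun τ => ‖fderiv ℝ m τ‖ ^ 2 * Zz μ T σ τ) := by
    refine hZi.bdd_mul (c := B' ^ 2) (by fun_prop) (Filter.Eventually.of_forall fun τ => ?_)
    rw [Real.norm_of_nonneg (by positivity)]
    exact pow_le_pow_left₀ (norm_nonneg _) (hB' τ).2 2
  -- step 1
  have s1 : ∀ τ, Nn μ T σ (fun x => f x ^ 2) τ ≤ m τ ^ 2 * Zz μ T σ τ +
      σ ^ 2 * Nn μ T σ (fun x => ‖fderiv ℝ f x‖ ^ 2) τ := by
    intro τ
    have h1 := ((hTP n k ρ T σ h τ).2 f hLC).2.2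
    have hZ := hZpos τ
    rw [← hmZ τ] at h1
    have h2 : Zz μ T σ τ * Nn μ T σ (fun x => f x ^ 2) τ ≤ Zz μ T σ τ *
        (m τ ^ 2 * Zz μ T σ τ + σ ^ 2 * Nn μ T σ (fun x => ‖fderiv ℝ f x‖ ^ 2) τ) := by
      nlinarith [h1]
    exact le_of_mul_le_mul_left h2 hZ
  have s2 : c * ∫ x, f x ^ 2 ∂μ ≤ (∫ τ, m τ ^ 2 * Zz μ T σ τ) +
      σ ^ 2 * (c * ∫ x, ‖fderiv ℝ f x‖ ^ 2 ∂μ) := by
    rw [← Ef2, ← Eg, ← integral_const_mul, ← integral_add Im2 (Ig.const_mul _)]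
    exact integral_mono If2 (Im2.add (Ig.const_mul _)) s1
  have s3 : ∫ τ, ‖fderiv ℝ m τ‖ ^ 2 * Zz μ T σ τ ≤ c * ∫ x, ‖fderiv ℝ f x‖ ^ 2 ∂μ := by
    rw [← Eg]
    exact integral_mono Idm Ig hm
  have s4 := hZP m hmBC
  have s5 : ∫ τ, m τ * Zz μ T σ τ = c * ∫ x, f x ∂μ := by
    rw [← Ef]
    exact integral_congr_ae (Filter.Eventually.of_forall hmZ)
  rw [s5] at s4
  set F2 := ∫ x, f x ^ 2 ∂μ
  set F1 := ∫ x, f x ∂μ
  set G := ∫ x, ‖fderiv ℝ f x‖ ^ 2 ∂μ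
  set M2 := ∫ τ, m τ ^ 2 * Zz μ T σ τ
  set D2 := ∫ τ, ‖fderiv ℝ m τ‖ ^ 2 * Zz μ T σ τ
  have s6 : A * (c * D2) ≤ A * (c * (c * G)) := by gcongr
  have s7 : c * (c * F2) ≤ c * (M2 + σ ^ 2 * (c * G)) := by gcongr
  have s8 : c ^ 2 * (F2 - F1 ^ 2) ≤ c ^ 2 * ((A + σ ^ 2) * G) := by nlinarith
  exact le_of_mul_le_mul_left s8 (by positivity)

end Pool.Agent.H787R2.UT
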