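import Pool.Agent.H787R2.UT.St
import Pool.Agent.H212R2.KLS.R4

/-!
# KLS: task BALL, local Poincare inequality on a ball
-/

set_option autoImplicit false

namespace Pool.Agent.H787R2.UT

open MeasureTheory Set Pool.Agent.H212R2.KLS
open scoped ENNReal InnerProductSpace

theorem ball_par {F : Type*} [NormedAddCommGroup F] [InnerProductSpace ℝ F] (x y : F) :
    ‖x‖ ^ 2 + ‖y‖ ^ 2 = 2 * ‖(1 / 2 : ℝ) • (x + y)‖ ^ 2 + ‖x - y‖ ^ 2 / 2 := by
  have h1 := parallelogram_law_with_norm ℝ x y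
  have h2 : ‖(1 / 2 : ℝ) • (x + y)‖ = 1 / 2 * ‖x + y‖ := by
    rw [norm_smul]
    norm_num
  rw [h2]
  nlinarith

theorem ball : S_BALL := by
  intro n w hw hwm hwb R hR hsupp hmid f hf
  set g : V n → ℝ := fun x => Real.exp (-(‖x‖ ^ 2 / (2 * R ^ 2))) with hg
  have hg0 : ∀ x, 0 < g x := fun x => Real.exp_pos _
  have hg1 : ∀ x, g x ≤ 1 := by
    intro x
    apply Real.exp_le_one_iff.2
    have : 0 ≤ ‖x‖ ^ 2 / (2 * R ^ 2) := by positivity
    linarith
  have hgc : Continuous g := by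
    apply Real.continuous_exp.comp
    fun_prop
  set w' : V n → ℝ := fun x => w x * g x with hw'
  have hw'0 : ∀ x, 0 ≤ w' x := fun x => mul_nonneg (hw x) (hg0 x).le
  have hw'm : Measurable w' := hwm.mul hgc.measurable
  have hle : ∀ x, w' x ≤ w x := fun x => mul_le_of_le_one_right (hw x) (hg1 x)
  have hw'b : ∃ B, ∀ x, w' x ≤ B := by
    obtain ⟨B, hB⟩ := hwb
    exact ⟨B, fun x => (hle x).trans (hB x)⟩
  have hw's : ∀ x, R < ‖x‖ → w' x = 0 := by
    intro x hx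
    change w x * g x = 0
    rw [hsupp x hx, zero_mul]
  have hge : ∀ x, w x ≤ 2 * w' x := by
    intro x
    by_cases hx : R < ‖x‖
    · rw [hw's x hx, hsupp x hx, mul_zero]
    · push Not at hx
      have h1 : 1 / 2 ≤ g x := by
        have h2 : ‖x‖ ^ 2 / (2 * R ^ 2) ≤ 1 / 2 := by
          rw [div_le_iff₀ (by positivity)]
          have : ‖x‖ ^ 2 ≤ R ^ 2 := pow_le_pow_left₀ (norm_nonneg _) hx 2
          linarith
        have h3 := Real.add_one_le_exp (-(‖x‖ ^ 2 / (2 * R ^ 2)))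
        change 1 / 2 ≤ Real.exp (-(‖x‖ ^ 2 / (2 * R ^ 2)))
        linarith
      change w x ≤ 2 * (w x * g x)
      have := hw x
      nlinarith
  have hmid' : ∀ x y, w' x * w' y ≤ (w' ((1 / 2 : ℝ) • (x + y))) ^ 2 *
      Real.exp (-((R ^ 2)⁻¹ / 4 * ‖x - y‖ ^ 2)) := by
    intro x y
    have h1 : g x * g y = (g ((1 / 2 : ℝ) • (x + y))) ^ 2 *
        Real.exp (-((R ^ 2)⁻¹ / 4 * ‖x - y‖ ^ 2)) := by
      rw [hg]
      simp only
      rw [← Real.exp_add, sq (Real.exp _), ← Real.exp_add, ← Real.exp_add]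
      congr 1
      have h2 := ball_par x y
      field_simp
      linear_combination (-4 : ℝ) * h2
    calc w' x * w' y = (w x * w y) * (g x * g y) := by simp only [hw']; ring
      _ ≤ (w ((1 / 2 : ℝ) • (x + y))) ^ 2 * (g x * g y) :=
        mul_le_mul_of_nonneg_right (hmid x y) (mul_nonneg (hg0 x).le (hg0 y).le)
      _ = _ := by rw [h1]; simp only [hw']; ring
  obtain ⟨c, hc⟩ := poincare_of_strong (volume : Measure (V n)) w' hw'0 hw'm hw'b ⟨R, hw's⟩
    (R ^ 2)⁻¹ (by positivity) hmid' f hf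
  refine ⟨c, ?_⟩
  have hfd : Continuous (fderiv ℝ f) := hf.continuous_fderiv (by norm_num)
  have hfc : Continuous f := hf.continuous
  have c1 : Continuous (fun x => (f x - c) ^ 2) := by fun_prop
  have c2 : Continuous (fun x => ‖fderiv ℝ f x‖ ^ 2) := by fun_prop
  have i1 : Integrable (fun x => (f x - c) ^ 2 * w x) := R4aux.intg hwm hw hwb hsupp c1
  have i1' : Integrable (fun x => (f x - c) ^ 2 * w' x) := R4aux.intg hw'm hw'0 hw'b hw's c1
  have i2 : Integrable (fun x => ‖fderiv ℝ f x‖ ^ 2 * w x) := R4aux.intg hwm hw hwb hsupp c2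
  have i2' : Integrable (fun x => ‖fderiv ℝ f x‖ ^ 2 * w' x) :=
    R4aux.intg hw'm hw'0 hw'b hw's c2
  have s1 : ∫ x, (f x - c) ^ 2 * w x ≤ 2 * ∫ x, (f x - c) ^ 2 * w' x := by
    rw [← integral_const_mul]
    refine integral_mono i1 (i1'.const_mul 2) fun x => ?_
    change (f x - c) ^ 2 * w x ≤ 2 * ((f x - c) ^ 2 * w' x)
    have := mul_le_mul_of_nonneg_left (hge x) (sq_nonneg (f x - c))
    linarith
  have s2 : ∫ x, ‖fderiv ℝ f x‖ ^ 2 * w' x ≤ ∫ x, ‖fderiv ℝ f x‖ ^ 2 * w x := by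
    refine integral_mono i2' i2 fun x => ?_
    exact mul_le_mul_of_nonneg_left (hle x) (sq_nonneg _)
  rw [inv_inv] at hc
  have hR2 : 0 ≤ R ^ 2 := sq_nonneg R
  calc ∫ x, (f x - c) ^ 2 * w x ≤ 2 * ∫ x, (f x - c) ^ 2 * w' x := s1
    _ ≤ 2 * (R ^ 2 * ∫ x, ‖fderiv ℝ f x‖ ^ 2 * w' x) := by linarith
    _ ≤ 2 * (R ^ 2 * ∫ x, ‖fderiv ℝ f x‖ ^ 2 * w x) := by
      have := mul_le_mul_of_nonneg_left s2 hR2
      linarith
    _ = 2 * R ^ 2 * ∫ x, ‖fderiv ℝ f x‖ ^ 2 * w x := by ring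

end Pool.Agent.H787R2.UT
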