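import Pool.Agent.H787R2.UT.St

/-!
# BD: integrable midpoint log-concave densities are bounded (helper202)
-/

set_option autoImplicit false

namespace Pool.Agent.H787R2.UT

open MeasureTheory Set Pool.Agent.H212R2.KLS
open scoped ENNReal InnerProductSpace

theorem bd : S_BD := by
  intro n ρ h0 hm h1 hmid
  by_contra hcon
  push Not at hcon
  -- some level set has positive volume
  have hS : ∃ c : ℝ, 0 < c ∧ volume {x : V n | c ≤ ρ x} ≠ 0 := by
    by_contra hS
    push Not at hS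
    have hae : ∀ᵐ x : V n, ∀ j : ℕ, ¬ ((1 : ℝ) / (j + 1) ≤ ρ x) := by
      rw [ae_all_iff]
      intro j
      have h2 := hS (1 / ((j : ℝ) + 1)) (by positivity)
      rw [ae_iff]
      simpa using h2
    have hz : ∀ᵐ x : V n, ENNReal.ofReal (ρ x) = 0 := by
      filter_upwards [hae] with x hx
      rw [ENNReal.ofReal_eq_zero]
      by_contra hpos
      push Not at hpos
      obtain ⟨j, hj⟩ := exists_nat_one_div_lt hpos
      exact hx j hj.le
    have h3 : mu ρ univ = 0 := by
      unfold mu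
      rw [withDensity_apply _ MeasurableSet.univ, Measure.restrict_univ,
        lintegral_congr_ae hz, lintegral_zero]
    rw [h3] at h1
    exact zero_ne_one h1
  obtain ⟨c, hc, hvol⟩ := hS
  set S : Set (V n) := {x : V n | c ≤ ρ x} with hSdef
  set v : ℝ≥0∞ := ENNReal.ofReal |((2 : ℝ) ^ (Module.finrank ℝ (V n)))⁻¹| * volume S with hv
  have hv0 : v ≠ 0 := by
    rw [hv]
    refine mul_ne_zero ?_ hvol
    rw [Ne, ENNReal.ofReal_eq_zero, not_le]
    positivity
  have key : ∀ M : ℕ, (M : ℝ≥0∞) * v ≤ 1 := by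
    intro M
    obtain ⟨z, hz⟩ := hcon ((M : ℝ) ^ 2 / c)
    have hzc : (M : ℝ) ^ 2 ≤ ρ z * c := by
      rw [div_lt_iff₀ hc] at hz
      exact hz.le
    -- the set of all `y` with `2 y - z ∈ S`
    have hpre : volume ((fun y : V n => (2 : ℝ) • y) ⁻¹' ((fun y : V n => y + (-z)) ⁻¹' S)) = v := by
      rw [Measure.addHaar_preimage_smul volume (two_ne_zero), measure_preimage_add_right]
    have hsub : ((fun y : V n => (2 : ℝ) • y) ⁻¹' ((fun y : V n => y + (-z)) ⁻¹' S)) ⊆
        {y : V n | ((M : ℕ) : ℝ≥0∞) ≤ ENNReal.ofReal (ρ y)} := by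
      intro y hy
      have hy' : c ≤ ρ ((2 : ℝ) • y + (-z)) := hy
      have h2 := hmid z ((2 : ℝ) • y + (-z))
      have h3 : (1 / 2 : ℝ) • (z + ((2 : ℝ) • y + (-z))) = y := by
        have : z + ((2 : ℝ) • y + (-z)) = (2 : ℝ) • y := by abel
        rw [this, smul_smul]
        norm_num
      rw [h3] at h2
      have h4 : (M : ℝ) ^ 2 ≤ ρ y ^ 2 := by
        refine hzc.trans (le_trans ?_ h2)
        exact mul_le_mul_of_nonneg_left hy' (h0 z)
      have h5 : (M : ℝ) ≤ ρ y := by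
        exact (pow_le_pow_iff_left₀ (Nat.cast_nonneg M) (h0 y) two_ne_zero).1 h4
      show ((M : ℕ) : ℝ≥0∞) ≤ ENNReal.ofReal (ρ y)
      rw [← ENNReal.ofReal_natCast]
      exact ENNReal.ofReal_le_ofReal h5
    have h6 : (M : ℝ≥0∞) * volume {y : V n | ((M : ℕ) : ℝ≥0∞) ≤ ENNReal.ofReal (ρ y)} ≤
        ∫⁻ y, ENNReal.ofReal (ρ y) :=
      mul_meas_ge_le_lintegral (hm.ennreal_ofReal) _
    have h7 : ∫⁻ y, ENNReal.ofReal (ρ y) = 1 := by
      rw [← h1]
      unfold mu
      rw [withDensity_apply _ MeasurableSet.univ, Measure.restrict_univ]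
    rw [h7] at h6
    refine le_trans ?_ h6
    rw [← hpre]
    gcongr
  obtain ⟨M, hM⟩ := ENNReal.exists_nat_mul_gt hv0 ENNReal.one_ne_top
  exact absurd (key M) (not_le.2 hM)

end Pool.Agent.H787R2.UT
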