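import Pool.Agent.H787R2.UT.St

/-! Task CONV (helper399): Poincare inequality for the Gaussian convolution of the marginal. -/

set_option autoImplicit false

namespace Pool.Agent.H787R2.UT

open MeasureTheory Set Pool.Agent.H212R2.KLS
open scoped ENNReal InnerProductSpace

theorem conv_gk_cont {k : ℕ} (σ : ℝ) : Continuous (gk σ : V k → ℝ) := by
  unfold gk
  fun_prop

theorem conv_gk_pos {k : ℕ} (σ : ℝ) (z : V k) : 0 < gk σ z := Real.exp_pos _

theorem conv_int {k : ℕ} {σ : ℝ} (hg : Integrable (gk σ : V k → ℝ)) {q : V k → ℝ}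
    (hq : Continuous q) {B : ℝ} (hB : ∀ τ, |q τ| ≤ B) (y : V k) :
    Integrable (fun τ => q τ * gk σ (y - τ)) := by
  have h1 : Integrable (fun τ : V k => gk σ (y - τ)) := hg.comp_sub_left y
  refine (h1.const_mul B).mono' (hq.mul ((conv_gk_cont σ).comp
    (continuous_const.sub continuous_id))).aestronglyMeasurable (Filter.Eventually.of_forall ?_)
  intro τ
  rw [norm_mul, Real.norm_eq_abs, Real.norm_eq_abs, abs_of_pos (conv_gk_pos σ _)]
  exact mul_le_mul_of_nonneg_right (hB τ) (conv_gk_pos σ _).le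

theorem conv_fub {n k : ℕ} (μ : Measure (V n)) [IsProbabilityMeasure μ] (T : V n →ₗ[ℝ] V k)
    {σ : ℝ} (hg : Integrable (gk σ : V k → ℝ)) {q : V k → ℝ} (hq : Continuous q) {B : ℝ}
    (hB : ∀ τ, |q τ| ≤ B) :
    Integrable (fun x => ∫ τ, q τ * gk σ (T x - τ)) μ ∧
      ∫ τ, q τ * Zz μ T σ τ = ∫ x, (∫ τ, q τ * gk σ (T x - τ)) ∂μ := by
  have hT : Continuous T := T.continuous_of_finiteDimensional
  have hFc : Continuous (fun p : V k × V n => q p.1 * gk σ (T p.2 - p.1)) :=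
    (hq.comp continuous_fst).mul
      ((conv_gk_cont σ).comp ((hT.comp continuous_snd).sub continuous_fst))
  have hF : Integrable (fun p : V k × V n => q p.1 * gk σ (T p.2 - p.1)) (volume.prod μ) := by
    rw [integrable_prod_iff' hFc.aestronglyMeasurable]
    refine ⟨Filter.Eventually.of_forall fun x => conv_int hg hq hB (T x), ?_⟩
    refine Integrable.of_bound (C := B * ck k σ) ?_ (Filter.Eventually.of_forall fun x => ?_)
    · exact (hFc.norm.stronglyMeasurable.integral_prod_left').aestronglyMeasurable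
    · rw [Real.norm_of_nonneg (integral_nonneg fun _ => norm_nonneg _)]
      calc ∫ τ, ‖q τ * gk σ (T x - τ)‖ ≤ ∫ τ, B * gk σ (T x - τ) := by
            apply integral_mono (conv_int hg hq hB (T x)).norm
              ((hg.comp_sub_left (T x)).const_mul B)
            intro τ
            show ‖q τ * gk σ (T x - τ)‖ ≤ B * gk σ (T x - τ)
            rw [norm_mul, Real.norm_eq_abs, Real.norm_eq_abs, abs_of_pos (conv_gk_pos σ _)]
            exact mul_le_mul_of_nonneg_right (hB τ) (conv_gk_pos σ _).le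
        _ = B * ck k σ := by
            rw [integral_const_mul, integral_sub_left_eq_self (gk σ) volume (T x)]
            rfl
  refine ⟨hF.integral_prod_right, ?_⟩
  calc ∫ τ, q τ * Zz μ T σ τ = ∫ τ, ∫ x, q τ * gk σ (T x - τ) ∂μ := by
        congr 1
        ext τ
        rw [integral_const_mul]
        rfl
    _ = _ := integral_integral_swap hF

theorem conv (hGP : S_GP) (hFUB : S_FUB) : S_CONV := by
  intro n k μ _ T σ A hσ hA hP m hm
  obtain ⟨hc, hg, -⟩ := hFUB n k μ T σ hσ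
  obtain ⟨hGBC, hG2⟩ := hGP k σ hσ m hm
  obtain ⟨hm1, B, hB⟩ := hm
  have hT : Continuous T := T.continuous_of_finiteDimensional
  have hB0 : 0 ≤ B := (abs_nonneg _).trans (hB 0).1
  have hmc : Continuous m := hm1.continuous
  have hdc : Continuous (fun τ => ‖fderiv ℝ m τ‖ ^ 2) :=
    (hm1.continuous_fderiv one_ne_zero).norm.pow 2
  obtain ⟨ia, ea⟩ := conv_fub μ T hg (q := fun τ => m τ ^ 2) (hmc.pow 2) (B := B ^ 2) (fun τ => by
    rw [abs_pow]
    exact pow_le_pow_left₀ (abs_nonneg _) (hB τ).1 2)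
  obtain ⟨ib, eb⟩ := conv_fub μ T hg (q := m) hmc (B := B) (fun τ => (hB τ).1)
  obtain ⟨id', ed⟩ := conv_fub μ T hg (q := fun τ => ‖fderiv ℝ m τ‖ ^ 2) hdc (B := B ^ 2)
    (fun τ => by
      rw [abs_pow, abs_norm]
      exact pow_le_pow_left₀ (norm_nonneg _) (hB τ).2 2)
  obtain ⟨G, hGdef⟩ : ∃ G : V k → ℝ, G = fun y : V k => (∫ τ, m τ * gk σ (y - τ)) / ck k σ :=
    ⟨_, rfl⟩
  rw [← hGdef] at hGBC hG2
  have hGb : ∀ y, ∫ τ, m τ * gk σ (y - τ) = ck k σ * G y := by
    intro y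
    rw [hGdef]
    field_simp
  obtain ⟨hG1, B', hB'⟩ := hGBC
  have hPG := hP G ⟨hG1, B', hB'⟩
  rw [ea, eb, ed]
  simp only [hGb] at hG2 ⊢
  rw [integral_const_mul]
  -- integrability of `G (T x) ^ 2` and of the gradient
  have iG : Integrable (fun x => G (T x) ^ 2) μ := by
    refine Integrable.of_bound ((hG1.continuous.comp hT).pow 2).aestronglyMeasurable (B' ^ 2)
      (Filter.Eventually.of_forall fun x => ?_)
    rw [norm_pow, Real.norm_eq_abs]
    exact pow_le_pow_left₀ (abs_nonneg _) (hB' _).1 2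
  have iD : Integrable (fun x => ‖fderiv ℝ G (T x)‖ ^ 2) μ := by
    refine Integrable.of_bound
      (((hG1.continuous_fderiv one_ne_zero).comp hT).norm.pow 2).aestronglyMeasurable (B' ^ 2)
      (Filter.Eventually.of_forall fun x => ?_)
    rw [norm_pow, norm_norm]
    exact pow_le_pow_left₀ (norm_nonneg _) (hB' _).2 2
  -- integrate the two inequalities of GP
  have h3 : ck k σ * (∫ x, (∫ τ, m τ ^ 2 * gk σ (T x - τ)) ∂μ)
      - ck k σ ^ 2 * (∫ x, G (T x) ^ 2 ∂μ) ≤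
      σ ^ 2 * (ck k σ * ∫ x, (∫ τ, ‖fderiv ℝ m τ‖ ^ 2 * gk σ (T x - τ)) ∂μ) := by
    rw [← integral_const_mul, ← integral_const_mul (ck k σ ^ 2), ← integral_const_mul (ck k σ),
      ← integral_const_mul (σ ^ 2),
      ← integral_sub (ia.const_mul _) (iG.const_mul _)]
    refine integral_mono ((ia.const_mul _).sub (iG.const_mul _))
      ((id'.const_mul _).const_mul _) fun x => ?_
    have h := (hG2 (T x)).2
    rw [mul_pow] at h
    exact h
  have h2 : ck k σ * ∫ x, ‖fderiv ℝ G (T x)‖ ^ 2 ∂μ ≤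
      ∫ x, (∫ τ, ‖fderiv ℝ m τ‖ ^ 2 * gk σ (T x - τ)) ∂μ := by
    rw [← integral_const_mul]
    refine integral_mono (iD.const_mul _) id' fun x => ?_
    have h := (hG2 (T x)).1
    rw [le_div_iff₀ hc] at h
    show ck k σ * ‖fderiv ℝ G (T x)‖ ^ 2 ≤ _
    rw [mul_comm]
    exact h
  have h4 : ck k σ ^ 2 * ∫ x, G (T x) ^ 2 ∂μ ≤ (ck k σ * ∫ x, G (T x) ∂μ) ^ 2
      + A * (ck k σ * ∫ x, (∫ τ, ‖fderiv ℝ m τ‖ ^ 2 * gk σ (T x - τ)) ∂μ) := by
    have h5 : ck k σ ^ 2 * ∫ x, G (T x) ^ 2 ∂μ ≤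
        ck k σ ^ 2 * ((∫ x, G (T x) ∂μ) ^ 2 + A * ∫ x, ‖fderiv ℝ G (T x)‖ ^ 2 ∂μ) :=
      mul_le_mul_of_nonneg_left (by linarith) (by positivity)
    have h6 : A * ck k σ * (ck k σ * ∫ x, ‖fderiv ℝ G (T x)‖ ^ 2 ∂μ) ≤
        A * ck k σ * ∫ x, (∫ τ, ‖fderiv ℝ m τ‖ ^ 2 * gk σ (T x - τ)) ∂μ :=
      mul_le_mul_of_nonneg_left h2 (by positivity)
    nlinarith
  linarith

end Pool.Agent.H787R2.UT
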