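import Pool.Agent.H787R2.UT.St

/-!
# KLS: task DER, differentiation of the tilted integrals
-/

set_option autoImplicit false

namespace Pool.Agent.H787R2.UT

open MeasureTheory Set Pool.Agent.H212R2.KLS
open scoped ENNReal InnerProductSpace

theorem der_gk_pos {k : ℕ} (σ : ℝ) (z : V k) : 0 < gk σ z := Real.exp_pos _

theorem der_gk_le {k : ℕ} {σ : ℝ} (z : V k) : gk σ z ≤ 1 := by
  apply Real.exp_le_one_iff.2
  have : 0 ≤ ‖z‖ ^ 2 / (2 * σ ^ 2) := by positivity
  linarith

theorem der_gk_cont {k : ℕ} (σ : ℝ) : Continuous (gk σ : V k → ℝ) := by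
  apply Real.continuous_exp.comp
  fun_prop

/-- `|z| exp (-|z|^2/(2 σ^2)) ≤ σ` -/
theorem der_norm_gk {k : ℕ} {σ : ℝ} (hσ : 0 < σ) (z : V k) : ‖z‖ * gk σ z ≤ σ := by
  have h1 : ‖z‖ ≤ σ * Real.exp (‖z‖ ^ 2 / (2 * σ ^ 2)) := by
    have h2 := Real.add_one_le_exp (‖z‖ ^ 2 / (2 * σ ^ 2))
    have h3 : ‖z‖ ≤ σ * (‖z‖ ^ 2 / (2 * σ ^ 2) + 1) := by
      have h4 : σ * (‖z‖ ^ 2 / (2 * σ ^ 2) + 1) = (‖z‖ ^ 2 + 2 * σ ^ 2) / (2 * σ) := by
        field_simp
      rw [h4, le_div_iff₀ (by positivity)]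
      nlinarith [sq_nonneg (‖z‖ - σ), sq_nonneg σ]
    exact h3.trans (mul_le_mul_of_nonneg_left h2 hσ.le)
  have h5 : σ * Real.exp (‖z‖ ^ 2 / (2 * σ ^ 2)) * gk σ z = σ := by
    unfold gk
    rw [mul_assoc, ← Real.exp_add]
    simp
  calc ‖z‖ * gk σ z ≤ σ * Real.exp (‖z‖ ^ 2 / (2 * σ ^ 2)) * gk σ z :=
        mul_le_mul_of_nonneg_right h1 (der_gk_pos σ z).le
    _ = σ := h5

/-- derivative of the kernel in `τ` -/
theorem der_hasFDeriv {k : ℕ} {σ : ℝ} (hσ : 0 < σ) (y τ : V k) :
    HasFDerivAt (fun τ : V k => gk σ (y - τ)) ((gk σ (y - τ) / σ ^ 2) • innerSL ℝ (y - τ)) τ := by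
  have h1 : HasFDerivAt (fun τ : V k => y - τ) (-(ContinuousLinearMap.id ℝ (V k))) τ := by
    simpa using (hasFDerivAt_id τ).const_sub y
  have h2 : HasFDerivAt (fun τ : V k => ‖y - τ‖ ^ 2)
      (2 • (innerSL ℝ (y - τ)).comp (-(ContinuousLinearMap.id ℝ (V k)))) τ := h1.norm_sq
  have h3 : HasFDerivAt (fun τ : V k => -(‖y - τ‖ ^ 2 / (2 * σ ^ 2)))
      (-((2 * σ ^ 2)⁻¹ • (2 • (innerSL ℝ (y - τ)).comp (-(ContinuousLinearMap.id ℝ (V k)))))) τ := by
    have h4 := (h2.const_mul ((2 * σ ^ 2)⁻¹)).neg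
    refine h4.congr_of_eventuallyEq (Filter.Eventually.of_forall fun t => ?_)
    simp only [Pi.neg_apply]
    ring
  have h5 := h3.exp
  refine h5.congr_fderiv ?_
  ext u
  simp only [gk, ContinuousLinearMap.smul_apply, ContinuousLinearMap.neg_apply, 
    ContinuousLinearMap.comp_apply, ContinuousLinearMap.id_apply, innerSL_apply_apply, smul_eq_mul,
    inner_neg_right, nsmul_eq_mul]
  field_simp
  push_cast
  ring

/-- the derivative of the integrand -/
noncomputable def derF {n k : ℕ} (T : V n →ₗ[ℝ] V k) (σ : ℝ) (f : V n → ℝ) (τ : V k) (x : V n) :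
    V k →L[ℝ] ℝ := (f x * (gk σ (T x - τ) / σ ^ 2)) • innerSL ℝ (T x - τ)

theorem der : S_DER := by
  intro n k μ _ T σ hσ f hf hfB
  obtain ⟨B, hB⟩ := hfB
  have hTc : Continuous T := T.continuous_of_finiteDimensional
  have hfm : AEStronglyMeasurable f μ := hf.aestronglyMeasurable
  have hB0 : 0 ≤ B := (abs_nonneg _).trans (hB 0)
  -- joint continuity
  have hjc : Continuous (fun p : V k × V n => derF T σ f p.1 p.2) := by
    have h1 : Continuous (fun p : V k × V n => T p.2 - p.1) :=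
      (hTc.comp continuous_snd).sub continuous_fst
    have h2 : Continuous (fun p : V k × V n => f p.2 * (gk σ (T p.2 - p.1) / σ ^ 2)) :=
      (hf.comp continuous_snd).mul (((der_gk_cont σ).comp h1).div_const _)
    exact h2.smul ((innerSL ℝ).continuous.comp h1)
  have hFc : ∀ τ : V k, Continuous (fun x => f x * gk σ (T x - τ)) := by
    intro τ
    exact hf.mul ((der_gk_cont σ).comp (hTc.sub continuous_const))
  have hFint : ∀ τ : V k, Integrable (fun x => f x * gk σ (T x - τ)) μ := by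
    intro τ
    refine Integrable.of_bound (C := B) (hFc τ).aestronglyMeasurable
      (Filter.Eventually.of_forall fun x => ?_)
    rw [Real.norm_eq_abs, abs_mul, abs_of_pos (der_gk_pos σ _)]
    calc |f x| * gk σ (T x - τ) ≤ B * 1 :=
          mul_le_mul (hB x) (der_gk_le _) (der_gk_pos σ _).le hB0
      _ = B := mul_one B
  have hF'c : ∀ τ : V k, Continuous (fun x => derF T σ f τ x) := fun τ =>
    hjc.comp (continuous_const.prodMk continuous_id)
  have hbd : ∀ (τ : V k) (x : V n), ‖derF T σ f τ x‖ ≤ B * (σ / σ ^ 2) := by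
    intro τ x
    unfold derF
    rw [norm_smul, innerSL_apply_norm, Real.norm_eq_abs, abs_mul,
      abs_of_nonneg (div_nonneg (der_gk_pos σ _).le (sq_nonneg σ))]
    calc |f x| * (gk σ (T x - τ) / σ ^ 2) * ‖T x - τ‖
        = |f x| * ((‖T x - τ‖ * gk σ (T x - τ)) / σ ^ 2) := by ring
      _ ≤ B * (σ / σ ^ 2) := by
        refine mul_le_mul (hB x) ?_ ?_ hB0
        · exact div_le_div_of_nonneg_right (der_norm_gk hσ _) (sq_nonneg σ)
        · exact div_nonneg (mul_nonneg (norm_nonneg _) (der_gk_pos σ _).le) (sq_nonneg σ)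
  have hF'int : ∀ τ : V k, Integrable (fun x => derF T σ f τ x) μ := by
    intro τ
    exact Integrable.of_bound (C := B * (σ / σ ^ 2)) (hF'c τ).aestronglyMeasurable
      (Filter.Eventually.of_forall fun x => hbd τ x)
  have hdiff : ∀ (x : V n) (τ : V k),
      HasFDerivAt (fun τ : V k => f x * gk σ (T x - τ)) (derF T σ f τ x) τ := by
    intro x τ
    have h1 := (der_hasFDeriv hσ (T x) τ).const_mul (f x)
    refine h1.congr_fderiv ?_
    unfold derF
    rw [smul_smul]
  have hder : ∀ τ : V k, HasFDerivAt (Nn μ T σ f) (∫ x, derF T σ f τ x ∂μ) τ := by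
    intro τ
    have := hasFDerivAt_integral_of_dominated_of_fderiv_le (𝕜 := ℝ) (μ := μ) (x₀ := τ)
      (F := fun τ x => f x * gk σ (T x - τ)) (F' := fun τ x => derF T σ f τ x)
      (bound := fun _ => B * (σ / σ ^ 2)) (s := Set.univ) Filter.univ_mem
      (Filter.Eventually.of_forall fun t => (hFc t).aestronglyMeasurable) (hFint τ)
      (hF'c τ).aestronglyMeasurable
      (Filter.Eventually.of_forall fun x t _ => hbd t x) (integrable_const _)
      (Filter.Eventually.of_forall fun x t _ => hdiff x t)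
    exact this
  have hfd : fderiv ℝ (Nn μ T σ f) = fun τ => ∫ x, derF T σ f τ x ∂μ := by
    funext τ
    exact (hder τ).fderiv
  constructor
  · rw [contDiff_one_iff_fderiv]
    refine ⟨fun τ => (hder τ).differentiableAt, ?_⟩
    rw [hfd]
    refine continuous_of_dominated (bound := fun _ => B * (σ / σ ^ 2)) ?_ ?_ (integrable_const _) ?_
    · intro τ
      exact (hF'c τ).aestronglyMeasurable
    · intro τ
      exact Filter.Eventually.of_forall fun x => hbd τ x
    · exact Filter.Eventually.of_forall fun x => hjc.comp (continuous_id.prodMk continuous_const)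
  · intro τ u
    rw [hfd]
    change (∫ x, derF T σ f τ x ∂μ) u = _
    rw [ContinuousLinearMap.integral_apply (hF'int τ)]
    refine integral_congr_ae (Filter.Eventually.of_forall fun x => ?_)
    change (derF T σ f τ x) u = _
    unfold derF
    rw [ContinuousLinearMap.smul_apply, innerSL_apply_apply, smul_eq_mul]
    ring

end Pool.Agent.H787R2.UT
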