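import Pool.Agent.H212R2.KLS.Defs

/-!
# KLS: reduction to the directions in which the measure is not uniformly log-concave
Definitions.
-/

set_option autoImplicit false

namespace Pool.Agent.H787R2.UT

open MeasureTheory Set Pool.Agent.H212R2.KLS
open scoped ENNReal InnerProductSpace

/-- the Gaussian kernel `exp (-|z|^2 / (2 σ^2))` -/
noncomputable def gk {k : ℕ} (σ : ℝ) (z : V k) : ℝ := Real.exp (-(‖z‖ ^ 2 / (2 * σ ^ 2)))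

/-- the total mass of the Gaussian kernel -/
noncomputable def ck (k : ℕ) (σ : ℝ) : ℝ := ∫ z : V k, gk σ z

/-- bounded `C^1` functions with bounded derivative -/
def BC {F : Type} [NormedAddCommGroup F] [NormedSpace ℝ F] (f : F → ℝ) : Prop :=
  ContDiff ℝ 1 f ∧ ∃ B : ℝ, ∀ x, |f x| ≤ B ∧ ‖fderiv ℝ f x‖ ≤ B

/-- `C^1` functions with bounded derivative -/
def LC {F : Type} [NormedAddCommGroup F] [NormedSpace ℝ F] (f : F → ℝ) : Prop :=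
  ContDiff ℝ 1 f ∧ ∃ B : ℝ, ∀ x, ‖fderiv ℝ f x‖ ≤ B

/-- `∫ f(x) exp(-|T x - τ|^2 / (2 σ^2)) dμ(x)` -/
noncomputable def Nn {n k : ℕ} (μ : Measure (V n)) (T : V n →ₗ[ℝ] V k) (σ : ℝ) (f : V n → ℝ)
    (τ : V k) : ℝ := ∫ x, f x * gk σ (T x - τ) ∂μ

/-- the mass of the tilted measure -/
noncomputable def Zz {n k : ℕ} (μ : Measure (V n)) (T : V n →ₗ[ℝ] V k) (σ : ℝ) (τ : V k) : ℝ :=
  ∫ x, gk σ (T x - τ) ∂μ

/-- the mean of `f` under the tilted measure -/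
noncomputable def mm {n k : ℕ} (μ : Measure (V n)) (T : V n →ₗ[ℝ] V k) (σ : ℝ) (f : V n → ℝ)
    (τ : V k) : ℝ := Nn μ T σ f τ / Zz μ T σ τ

/-- Poincare inequality with constant `A` for bounded `C^1` functions with bounded derivative -/
def PI {n : ℕ} (μ : Measure (V n)) (A : ℝ) : Prop := ∀ f : V n → ℝ, BC f →
  ∫ x, f x ^ 2 ∂μ - (∫ x, f x ∂μ) ^ 2 ≤ A * ∫ x, ‖fderiv ℝ f x‖ ^ 2 ∂μ

/-- Poincare inequality for the measure with density `Zz` (total mass `ck k σ`) -/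
def ZP {n k : ℕ} (μ : Measure (V n)) (T : V n →ₗ[ℝ] V k) (σ A : ℝ) : Prop :=
  ∀ m : V k → ℝ, BC m → ck k σ * (∫ τ, m τ ^ 2 * Zz μ T σ τ) - (∫ τ, m τ * Zz μ T σ τ) ^ 2 ≤
    A * (ck k σ * ∫ τ, ‖fderiv ℝ m τ‖ ^ 2 * Zz μ T σ τ)

/-- log-concave density (measurable, total mass one) -/
structure LD {n : ℕ} (ρ : V n → ℝ) : Prop where
  nonneg : ∀ x, 0 ≤ ρ x
  meas : Measurable ρ
  one : mu ρ univ = 1
  logc : ∀ x y : V n, ∀ t : ℝ, 0 < t → t < 1 → ρ x ^ (1 - t) * ρ y ^ t ≤ ρ ((1 - t) • x + t • y)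

/-- log-concave density which is uniformly log-concave (constant `1 / σ^2`) transversally to `T` -/
structure UA {n k : ℕ} (ρ : V n → ℝ) (T : V n →ₗ[ℝ] V k) (σ : ℝ) : Prop where
  nonneg : ∀ x, 0 ≤ ρ x
  meas : Measurable ρ
  one : mu ρ univ = 1
  contr : ∀ x, ‖T x‖ ≤ ‖x‖
  σpos : 0 < σ
  slc : ∀ x y : V n, ∀ t : ℝ, 0 < t → t < 1 → ρ x ^ (1 - t) * ρ y ^ t ≤
    ρ ((1 - t) • x + t • y) *
      Real.exp (-(t * (1 - t) / (2 * σ ^ 2) * (‖x - y‖ ^ 2 - ‖T (x - y)‖ ^ 2)))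

/-- second moments at most `s` -/
def Mom {n k : ℕ} (μ : Measure (V n)) (T : V n →ₗ[ℝ] V k) (s : ℝ) : Prop :=
  ∀ θ : V k, ∫⁻ x, ENNReal.ofReal (⟪θ, T x⟫_ℝ ^ 2) ∂μ ≤ ENNReal.ofReal (s * ‖θ‖ ^ 2)

end Pool.Agent.H787R2.UT
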