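import Pool.Agent.H787R2.UT.St

set_option autoImplicit false

namespace Pool.Agent.H787R2.UT

open MeasureTheory Set Pool.Agent.H212R2.KLS
open scoped ENNReal InnerProductSpace

/-- cutoff functions -/
theorem EXT_cut (n : ℕ) : ∃ (χ : V n → ℝ) (K : ℝ), 0 ≤ K ∧ ContDiff ℝ 1 χ ∧ (∀ x, 0 ≤ χ x) ∧
    (∀ x, χ x ≤ 1) ∧ (∀ x, ‖x‖ ≤ 1 → χ x = 1) ∧ (∀ x, 2 ≤ ‖x‖ → χ x = 0) ∧
    ∀ x, ‖fderiv ℝ χ x‖ ≤ K := by
  let b : ContDiffBump (0 : V n) := ⟨1, 2, by norm_num, by norm_num⟩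
  have hc : HasCompactSupport (b : V n → ℝ) := b.hasCompactSupport
  have hd : ContDiff ℝ 1 (b : V n → ℝ) := b.contDiff
  obtain ⟨K, hK⟩ := (hd.continuous_fderiv (by norm_num)).bounded_above_of_compact_support
    (hc.fderiv (𝕜 := ℝ))
  refine ⟨b, K, (norm_nonneg _).trans (hK 0), hd, fun x => b.nonneg, fun x => b.le_one, ?_, ?_, hK⟩
  · intro x hx
    apply b.one_of_mem_closedBall
    rw [mem_closedBall_zero_iff]
    exact hx
  · intro x hx
    apply b.zero_of_le_dist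
    rw [dist_zero_right]
    exact hx

theorem EXT_step (n : ℕ) (μ : Measure (V n)) [IsProbabilityMeasure μ] (A : ℝ) (hA : 0 < A)
    (hPI : PI μ A) (f : V n → ℝ) (hf : ContDiff ℝ 1 f) (hf2 : MemLp f 2 μ)
    (hI : Integrable (fun x => ‖fderiv ℝ f x‖ ^ 2) μ) (χ : V n → ℝ) (K : ℝ) (_hK : 0 ≤ K)
    (h1 : ContDiff ℝ 1 χ) (h2 : ∀ x, 0 ≤ χ x) (h3 : ∀ x, χ x ≤ 1)
    (h5 : ∀ x, 2 ≤ ‖x‖ → χ x = 0) (h6 : ∀ x, ‖fderiv ℝ χ x‖ ≤ K) (c : ℝ) (hc : 0 < c) :
    ∫ x, (χ (c • x) * f x) ^ 2 ∂μ - (∫ x, χ (c • x) * f x ∂μ) ^ 2 ≤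
      A * ((1 + c) * ∫ x, ‖fderiv ℝ f x‖ ^ 2 ∂μ + (c ^ 2 + c) * K ^ 2 * ∫ x, f x ^ 2 ∂μ) := by
  have hχc : ContDiff ℝ 1 (fun x : V n => χ (c • x)) := h1.comp (contDiff_const_smul c)
  have hg : ContDiff ℝ 1 (fun x : V n => χ (c • x) * f x) := hχc.mul hf
  have hcs : HasCompactSupport (fun x : V n => χ (c • x) * f x) := by
    apply HasCompactSupport.of_support_subset_isCompact (isCompact_closedBall (0 : V n) (2 / c))
    intro x hx
    rw [mem_closedBall_zero_iff]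
    by_contra hlt
    rw [not_le] at hlt
    apply hx
    have : χ (c • x) = 0 := by
      apply h5
      rw [norm_smul, Real.norm_of_nonneg hc.le]
      rw [div_lt_iff₀ hc] at hlt
      linarith
    show χ (c • x) * f x = 0
    rw [this, zero_mul]
  obtain ⟨B1, hB1⟩ := hg.continuous.bounded_above_of_compact_support hcs
  obtain ⟨B2, hB2⟩ := (hg.continuous_fderiv (by norm_num)).bounded_above_of_compact_support
    (hcs.fderiv (𝕜 := ℝ))
  have hBC : BC (fun x : V n => χ (c • x) * f x) :=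
    ⟨hg, max B1 B2, fun x => ⟨(hB1 x).trans (le_max_left _ _), (hB2 x).trans (le_max_right _ _)⟩⟩
  refine (hPI _ hBC).trans ?_
  apply mul_le_mul_of_nonneg_left _ hA.le
  have hf2i : Integrable (fun x => f x ^ 2) μ := hf2.integrable_sq
  rw [← integral_const_mul, ← integral_const_mul, ← integral_add (hI.const_mul _) (hf2i.const_mul _)]
  apply integral_mono_of_nonneg (Filter.Eventually.of_forall fun x => by positivity)
    ((hI.const_mul _).add (hf2i.const_mul _))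
  refine Filter.Eventually.of_forall fun x => ?_
  have hdχ : DifferentiableAt ℝ (fun x : V n => χ (c • x)) x :=
    (hχc.differentiable (by norm_num)).differentiableAt
  have hdf : DifferentiableAt ℝ f x := (hf.differentiable (by norm_num)).differentiableAt
  have e1 : fderiv ℝ (fun x : V n => χ (c • x) * f x) x =
      χ (c • x) • fderiv ℝ f x + f x • fderiv ℝ (fun x : V n => χ (c • x)) x :=
    fderiv_mul hdχ hdf
  have e2 : fderiv ℝ (fun x : V n => χ (c • x)) x = c • fderiv ℝ χ (c • x) :=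
    fderiv_comp_smul c
  have e3 : ‖fderiv ℝ (fun x : V n => χ (c • x) * f x) x‖ ≤ ‖fderiv ℝ f x‖ + c * K * |f x| := by
    rw [e1, e2]
    refine (norm_add_le _ _).trans ?_
    rw [norm_smul, norm_smul, norm_smul, Real.norm_eq_abs, Real.norm_eq_abs, Real.norm_eq_abs,
      abs_of_nonneg (h2 _), abs_of_pos hc]
    have a1 : χ (c • x) * ‖fderiv ℝ f x‖ ≤ 1 * ‖fderiv ℝ f x‖ :=
      mul_le_mul_of_nonneg_right (h3 _) (norm_nonneg _)
    have a2 : |f x| * (c * ‖fderiv ℝ χ (c • x)‖) ≤ |f x| * (c * K) := by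
      apply mul_le_mul_of_nonneg_left _ (abs_nonneg _)
      exact mul_le_mul_of_nonneg_left (h6 _) hc.le
    nlinarith
  have e4 : ‖fderiv ℝ (fun x : V n => χ (c • x) * f x) x‖ ^ 2 ≤
      (‖fderiv ℝ f x‖ + c * K * |f x|) ^ 2 := by
    apply pow_le_pow_left₀ (norm_nonneg _) e3
  refine e4.trans ?_
  show (‖fderiv ℝ f x‖ + c * K * |f x|) ^ 2 ≤
    (1 + c) * ‖fderiv ℝ f x‖ ^ 2 + (c ^ 2 + c) * K ^ 2 * f x ^ 2
  have e5 : f x ^ 2 = |f x| ^ 2 := (sq_abs _).symm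
  rw [e5]
  nlinarith [mul_nonneg hc.le (sq_nonneg (‖fderiv ℝ f x‖ - K * |f x|))]

theorem ext : S_EXT := by
  intro n μ _ A hA hPI f hf hf2
  by_cases htop : ∫⁻ x, ENNReal.ofReal (‖fderiv ℝ f x‖ ^ 2) ∂μ = ⊤
  · rw [htop, ENNReal.mul_top]
    · exact le_top
    · exact (ENNReal.ofReal_pos.2 hA).ne'
  have hcont : Continuous (fun x => ‖fderiv ℝ f x‖ ^ 2) :=
    ((hf.continuous_fderiv (by norm_num)).norm).pow 2
  have hI : Integrable (fun x => ‖fderiv ℝ f x‖ ^ 2) μ := by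
    refine ⟨hcont.aestronglyMeasurable, ?_⟩
    rw [hasFiniteIntegral_iff_ofReal (Filter.Eventually.of_forall fun x => by positivity)]
    exact lt_top_iff_ne_top.2 htop
  rw [← ofReal_integral_eq_lintegral_ofReal hI (Filter.Eventually.of_forall fun x => by positivity),
    ← ENNReal.ofReal_mul hA.le]
  apply ENNReal.ofReal_le_ofReal
  have hvar : ∫ x, (f x - ∫ y, f y ∂μ) ^ 2 ∂μ = ∫ x, f x ^ 2 ∂μ - (∫ x, f x ∂μ) ^ 2 := by
    have v1 := ProbabilityTheory.variance_eq_sub hf2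
    have v2 := ProbabilityTheory.variance_eq_integral (μ := μ) hf2.aestronglyMeasurable.aemeasurable
    rw [← v2, v1]
    rfl
  rw [hvar]
  obtain ⟨χ, K, hK, h1, h2, h3, h4, h5, h6⟩ := EXT_cut n
  have hf2i : Integrable (fun x => f x ^ 2) μ := hf2.integrable_sq
  have hfi : Integrable f μ := hf2.integrable (by norm_num)
  have hcc : ∀ N : ℕ, 0 < ((N : ℝ) + 1)⁻¹ := fun N => by positivity
  have hlim : Filter.Tendsto (fun N : ℕ => ((N : ℝ) + 1)⁻¹) Filter.atTop (nhds 0) :=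
    tendsto_inv_atTop_nhds_zero_nat.comp (Filter.tendsto_add_atTop_nat 1) |>.congr
      (fun N => by simp)
  have hpt : ∀ x, ∀ᶠ N : ℕ in Filter.atTop, χ (((N : ℝ) + 1)⁻¹ • x) = 1 := by
    intro x
    filter_upwards [Filter.eventually_ge_atTop (Nat.ceil ‖x‖)] with N hN
    apply h4
    rw [norm_smul, Real.norm_of_nonneg (hcc N).le]
    have : ‖x‖ ≤ N := (Nat.le_ceil _).trans (by exact_mod_cast hN)
    rw [inv_mul_le_iff₀ (by positivity)]
    linarith
  have hm : ∀ N : ℕ, Continuous (fun x : V n => χ (((N : ℝ) + 1)⁻¹ • x) * f x) := fun N =>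
    (h1.continuous.comp (continuous_const_smul _)).mul hf.continuous
  have hm2 : ∀ N : ℕ, Continuous (fun x : V n => (χ (((N : ℝ) + 1)⁻¹ • x) * f x) ^ 2) :=
    fun N => (hm N).pow 2
  have L1 : Filter.Tendsto (fun N : ℕ => ∫ x, χ (((N : ℝ) + 1)⁻¹ • x) * f x ∂μ) Filter.atTop
      (nhds (∫ x, f x ∂μ)) := by
    apply tendsto_integral_of_dominated_convergence (fun x => ‖f x‖)
      (fun N => (hm N).aestronglyMeasurable) hfi.norm
    · intro N
      refine Filter.Eventually.of_forall fun x => ?_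
      rw [norm_mul, Real.norm_of_nonneg (h2 _)]
      have := mul_le_mul_of_nonneg_right (h3 (((N : ℝ) + 1)⁻¹ • x)) (norm_nonneg (f x))
      linarith
    · refine Filter.Eventually.of_forall fun x => ?_
      apply tendsto_const_nhds.congr'
      filter_upwards [hpt x] with N hN
      rw [hN, one_mul]
  have L2 : Filter.Tendsto (fun N : ℕ => ∫ x, (χ (((N : ℝ) + 1)⁻¹ • x) * f x) ^ 2 ∂μ) Filter.atTop
      (nhds (∫ x, f x ^ 2 ∂μ)) := by
    apply tendsto_integral_of_dominated_convergence (fun x => f x ^ 2)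
      (fun N => (hm2 N).aestronglyMeasurable) hf2i
    · intro N
      refine Filter.Eventually.of_forall fun x => ?_
      rw [Real.norm_of_nonneg (by positivity), mul_pow]
      have a1 : χ (((N : ℝ) + 1)⁻¹ • x) ^ 2 ≤ 1 := pow_le_one₀ (h2 _) (h3 _)
      have := mul_le_mul_of_nonneg_right a1 (sq_nonneg (f x))
      linarith
    · refine Filter.Eventually.of_forall fun x => ?_
      apply tendsto_const_nhds.congr'
      filter_upwards [hpt x] with N hN
      rw [hN, one_mul]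
  have L3 : Filter.Tendsto (fun N : ℕ => A * ((1 + ((N : ℝ) + 1)⁻¹) * ∫ x, ‖fderiv ℝ f x‖ ^ 2 ∂μ +
      ((((N : ℝ) + 1)⁻¹) ^ 2 + ((N : ℝ) + 1)⁻¹) * K ^ 2 * ∫ x, f x ^ 2 ∂μ)) Filter.atTop
      (nhds (A * ((1 + 0) * ∫ x, ‖fderiv ℝ f x‖ ^ 2 ∂μ +
        (0 ^ 2 + 0) * K ^ 2 * ∫ x, f x ^ 2 ∂μ))) := by
    apply Filter.Tendsto.const_mul
    apply Filter.Tendsto.add
    · exact (hlim.const_add 1).mul_const _
    · exact (((hlim.pow 2).add hlim).mul_const _).mul_const _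
  have fin := le_of_tendsto_of_tendsto' (L2.sub (L1.pow 2)) L3 (fun N =>
    EXT_step n μ A hA hPI f hf hf2 hI χ K hK h1 h2 h3 h5 h6 _ (hcc N))
  simpa using fin

end Pool.Agent.H787R2.UT
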