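import Pool.Agent.H787R2.UT.St
import Pool.Agent.H212R2.KLS.G2

/-!
FIN: KLS in a fixed dimension, removing the boundedness of the support (helper99)
-/

set_option autoImplicit false

namespace Pool.Agent.H787R2.UT

open MeasureTheory Set Filter Pool.Agent.H212R2.KLS
open scoped ENNReal InnerProductSpace Topology

theorem fin_ld {k : ℕ} {ρ : V k → ℝ} (h : LD ρ) (R c : ℝ) (hc : 0 ≤ c)
    (h1 : mu (fun x => c * {x : V k | ‖x‖ ≤ R}.indicator ρ x) univ = 1) :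
    LD (fun x => c * {x : V k | ‖x‖ ≤ R}.indicator ρ x) where
  nonneg x := mul_nonneg hc (indicator_nonneg (fun y _ => h.nonneg y) x)
  meas := (h.meas.indicator (measurableSet_le measurable_norm measurable_const)).const_mul c
  one := h1
  logc x y t ht0 ht1 := by
    have hρ0 : ∀ z, 0 ≤ {x : V k | ‖x‖ ≤ R}.indicator ρ z := fun z =>
      indicator_nonneg (fun y _ => h.nonneg y) z
    have h3 : ({x : V k | ‖x‖ ≤ R}.indicator ρ x) ^ (1 - t) *
        ({x : V k | ‖x‖ ≤ R}.indicator ρ y) ^ t ≤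
        {x : V k | ‖x‖ ≤ R}.indicator ρ ((1 - t) • x + t • y) := by
      by_cases hx : ‖x‖ ≤ R
      · by_cases hy : ‖y‖ ≤ R
        · have hz : ‖(1 - t) • x + t • y‖ ≤ R := by
            refine (norm_add_le _ _).trans ?_
            rw [norm_smul, norm_smul, Real.norm_of_nonneg ht0.le,
              Real.norm_of_nonneg (by linarith)]
            have e1 := mul_le_mul_of_nonneg_left hx (by linarith : (0 : ℝ) ≤ 1 - t)
            have e2 := mul_le_mul_of_nonneg_left hy ht0.le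
            linarith
          rw [indicator_of_mem (show x ∈ {x : V k | ‖x‖ ≤ R} from hx),
            indicator_of_mem (show y ∈ {x : V k | ‖x‖ ≤ R} from hy),
            indicator_of_mem (show (1 - t) • x + t • y ∈ {x : V k | ‖x‖ ≤ R} from hz)]
          exact h.logc x y t ht0 ht1
        · rw [indicator_of_notMem (show y ∉ {x : V k | ‖x‖ ≤ R} from hy),
            Real.zero_rpow ht0.ne', mul_zero]
          exact hρ0 _
      · rw [indicator_of_notMem (show x ∉ {x : V k | ‖x‖ ≤ R} from hx),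
          Real.zero_rpow (by linarith), zero_mul]
        exact hρ0 _
    show (c * {x : V k | ‖x‖ ≤ R}.indicator ρ x) ^ (1 - t) *
        (c * {x : V k | ‖x‖ ≤ R}.indicator ρ y) ^ t ≤
        c * {x : V k | ‖x‖ ≤ R}.indicator ρ ((1 - t) • x + t • y)
    rw [Real.mul_rpow hc (hρ0 x), Real.mul_rpow hc (hρ0 y)]
    have h2 : c ^ (1 - t) * c ^ t ≤ c := by
      rcases hc.eq_or_lt with h3 | h3
      · rw [← h3, Real.zero_rpow ht0.ne']
        simp
      · rw [← Real.rpow_add h3]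
        simp
    calc c ^ (1 - t) * ({x : V k | ‖x‖ ≤ R}.indicator ρ x) ^ (1 - t) *
          (c ^ t * ({x : V k | ‖x‖ ≤ R}.indicator ρ y) ^ t)
        = (c ^ (1 - t) * c ^ t) * (({x : V k | ‖x‖ ≤ R}.indicator ρ x) ^ (1 - t) *
          ({x : V k | ‖x‖ ≤ R}.indicator ρ y) ^ t) := by ring
      _ ≤ c * {x : V k | ‖x‖ ≤ R}.indicator ρ ((1 - t) • x + t • y) := by
        apply mul_le_mul h2 h3 _ hc
        exact mul_nonneg (Real.rpow_nonneg (hρ0 x) _) (Real.rpow_nonneg (hρ0 y) _)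

theorem fin' (hFINB : S_FINB) : S_FIN := by
  intro d
  obtain ⟨C, hC, hcore⟩ := hFINB d
  refine ⟨C, hC, ?_⟩
  intro ρ hρ s hs hmom f hf
  obtain ⟨hf1', Bf, hBf⟩ := hf
  have hprob : IsProbabilityMeasure (mu ρ) := ⟨hρ.one⟩
  have hcf : Continuous f := hf1'.continuous
  have hgrad_meas : Continuous fun x => ‖fderiv ℝ f x‖ ^ 2 :=
    ((hf1'.continuous_fderiv (by norm_num)).norm).pow 2
  have hf1 : Integrable f (mu ρ) :=
    Integrable.of_bound hcf.aestronglyMeasurable Bf (Eventually.of_forall fun x => by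
      rw [Real.norm_eq_abs]
      exact (hBf x).1)
  have hB0 : 0 ≤ Bf := (abs_nonneg _).trans (hBf 0).1
  have hf2 : Integrable (fun x => f x ^ 2) (mu ρ) :=
    Integrable.of_bound (hcf.pow 2).aestronglyMeasurable (Bf ^ 2) (Eventually.of_forall fun x => by
      rw [Real.norm_eq_abs, abs_pow]
      exact pow_le_pow_left₀ (abs_nonneg _) (hBf x).1 2)
  have hg2 : Integrable (fun x => ‖fderiv ℝ f x‖ ^ 2) (mu ρ) :=
    Integrable.of_bound hgrad_meas.aestronglyMeasurable (Bf ^ 2) (Eventually.of_forall fun x => by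
      rw [Real.norm_eq_abs, abs_pow, abs_of_nonneg (norm_nonneg _)]
      exact pow_le_pow_left₀ (norm_nonneg _) (hBf x).2 2)
  obtain ⟨I, hIdef⟩ : ∃ I : ℝ, I = ∫ x, ‖fderiv ℝ f x‖ ^ 2 ∂(mu ρ) := ⟨_, rfl⟩
  have hI0 : 0 ≤ I := by
    rw [hIdef]
    exact integral_nonneg fun x => sq_nonneg _
  have key : ∀ᶠ k : ℕ in atTop,
      ((mu ρ).real {x : V d | ‖x‖ ≤ k})⁻¹ * (∫ x in {x : V d | ‖x‖ ≤ k}, f x ^ 2 ∂(mu ρ)) -
        (((mu ρ).real {x : V d | ‖x‖ ≤ k})⁻¹ * ∫ x in {x : V d | ‖x‖ ≤ k}, f x ∂(mu ρ)) ^ 2 ≤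
      C * (s * ((mu ρ).real {x : V d | ‖x‖ ≤ k})⁻¹) *
        (((mu ρ).real {x : V d | ‖x‖ ≤ k})⁻¹ * I) := by
    have hev : ∀ᶠ k : ℕ in atTop, 0 < (mu ρ).real {x : V d | ‖x‖ ≤ k} :=
      (g2_mass (mu ρ)).eventually (lt_mem_nhds one_pos)
    filter_upwards [hev] with k hk
    obtain ⟨B, hBdef⟩ : ∃ B : Set (V d), B = {x : V d | ‖x‖ ≤ k} := ⟨_, rfl⟩
    have hBm : MeasurableSet B := by
      rw [hBdef]
      exact measurableSet_le measurable_norm measurable_const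
    rw [← hBdef] at hk ⊢
    obtain ⟨M, hM⟩ : ∃ M : ℝ, M = (mu ρ).real B := ⟨_, rfl⟩
    rw [← hM] at hk ⊢
    have hMi : 0 ≤ M⁻¹ := (inv_pos.2 hk).le
    have hb : Bdd (fun x => M⁻¹ * B.indicator ρ x) := by
      refine ⟨k, fun x hx => ?_⟩
      show M⁻¹ * B.indicator ρ x = 0
      rw [indicator_of_notMem, mul_zero]
      rw [hBdef]
      exact not_le.2 hx
    have hmu := g2_mu ρ hρ.nonneg hρ.meas B hBm M⁻¹ hMi
    have hmass : mu (fun x => M⁻¹ * B.indicator ρ x) univ = 1 := by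
      rw [hmu, Measure.smul_apply, Measure.restrict_apply_univ, smul_eq_mul]
      have h2 : mu ρ B = ENNReal.ofReal M := by
        rw [hM, Measure.real, ENNReal.ofReal_toReal (measure_ne_top _ _)]
      rw [h2, ← ENNReal.ofReal_mul hMi, inv_mul_cancel₀ hk.ne', ENNReal.ofReal_one]
    have hd : LD (fun x => M⁻¹ * B.indicator ρ x) := by
      rw [hBdef] at hmass ⊢
      exact fin_ld hρ k M⁻¹ hMi hmass
    have hint : ∀ g : V d → ℝ, ∫ x, g x ∂(mu (fun x => M⁻¹ * B.indicator ρ x)) =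
        M⁻¹ * ∫ x in B, g x ∂(mu ρ) := by
      intro g
      rw [hmu, integral_smul_measure, ENNReal.toReal_ofReal hMi, smul_eq_mul]
    have hmom' : Mom (mu (fun x => M⁻¹ * B.indicator ρ x)) LinearMap.id (s * M⁻¹) := by
      intro θ
      rw [hmu, lintegral_smul_measure]
      calc ENNReal.ofReal M⁻¹ • ∫⁻ x in B, ENNReal.ofReal (⟪θ, LinearMap.id x⟫_ℝ ^ 2) ∂(mu ρ)
          ≤ ENNReal.ofReal M⁻¹ * ENNReal.ofReal (s * ‖θ‖ ^ 2) := by
            rw [smul_eq_mul]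
            gcongr
            exact (setLIntegral_le_lintegral _ _).trans (hmom θ)
        _ = ENNReal.ofReal (s * M⁻¹ * ‖θ‖ ^ 2) := by
            rw [← ENNReal.ofReal_mul hMi]
            congr 1
            ring
    have h3 := hcore _ hd hb (s * M⁻¹) (mul_pos hs (inv_pos.2 hk)) hmom' f hf1'
    rw [hint, hint, hint] at h3
    refine h3.trans ?_
    have h4 : ∫ x in B, ‖fderiv ℝ f x‖ ^ 2 ∂(mu ρ) ≤ I := by
      rw [hIdef]
      exact setIntegral_le_integral hg2 (Eventually.of_forall fun x => sq_nonneg _)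
    have h5 : 0 ≤ C * (s * M⁻¹) := mul_nonneg hC.le (mul_nonneg hs.le hMi)
    exact mul_le_mul_of_nonneg_left (mul_le_mul_of_nonneg_left h4 hMi) h5
  have hM1 : Tendsto (fun k : ℕ => ((mu ρ).real {x : V d | ‖x‖ ≤ k})⁻¹) atTop (𝓝 1) := by
    have := (g2_mass (mu ρ)).inv₀ one_ne_zero
    rwa [inv_one] at this
  have hL : Tendsto (fun k : ℕ =>
      ((mu ρ).real {x : V d | ‖x‖ ≤ k})⁻¹ * (∫ x in {x : V d | ‖x‖ ≤ k}, f x ^ 2 ∂(mu ρ)) -
        (((mu ρ).real {x : V d | ‖x‖ ≤ k})⁻¹ * ∫ x in {x : V d | ‖x‖ ≤ k}, f x ∂(mu ρ)) ^ 2)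
      atTop (𝓝 (1 * (∫ x, f x ^ 2 ∂(mu ρ)) - (1 * ∫ x, f x ∂(mu ρ)) ^ 2)) :=
    (hM1.mul (g2_lim (mu ρ) _ hf2)).sub ((hM1.mul (g2_lim (mu ρ) _ hf1)).pow 2)
  have hR : Tendsto (fun k : ℕ => C * (s * ((mu ρ).real {x : V d | ‖x‖ ≤ k})⁻¹) *
        (((mu ρ).real {x : V d | ‖x‖ ≤ k})⁻¹ * I)) atTop (𝓝 (C * (s * 1) * (1 * I))) :=
    ((hM1.const_mul s).const_mul C).mul (hM1.mul_const I)
  have hfin := le_of_tendsto_of_tendsto hL hR key
  have e : C * (s * 1) * (1 * I) = C * s * I := by ring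
  rw [e, one_mul, one_mul] at hfin
  rw [← hIdef]
  exact hfin

end Pool.Agent.H787R2.UT
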