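import Pool.Agent.H787R2.UT.St
import Pool.Agent.H787R2.KC.St
import Pool.Agent.H212R2.KLS.S1
import Pool.Agent.H212R2.KLS.S2

/-!
# FINB: KLS in a fixed dimension, bounded support
-/

set_option autoImplicit false

namespace Pool.Agent.H787R2.UT

open MeasureTheory Set Pool.Agent.H212R2.KLS
open scoped ENNReal InnerProductSpace

/-- midpoint inequality from log-concavity -/
theorem LD.mid {n : ℕ} {ρ : V n → ℝ} (h : LD ρ) (x y : V n) :
    ρ x * ρ y ≤ (ρ ((1 / 2 : ℝ) • (x + y))) ^ 2 := by
  have h1 := h.logc x y (1/2) (by norm_num) (by norm_num)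
  have e : (1 - (1/2 : ℝ)) • x + (1/2 : ℝ) • y = (1 / 2 : ℝ) • (x + y) := by
    rw [smul_add]; norm_num
  rw [e] at h1
  have hx := h.nonneg x
  have hy := h.nonneg y
  have h2 : (ρ x ^ (1 - (1/2:ℝ)) * ρ y ^ (1/2:ℝ)) ^ 2 = ρ x * ρ y := by
    rw [mul_pow, ← Real.rpow_natCast, ← Real.rpow_natCast, ← Real.rpow_mul hx,
      ← Real.rpow_mul hy]
    norm_num
  have h0 : 0 ≤ ρ x ^ (1 - (1/2:ℝ)) * ρ y ^ (1/2:ℝ) := by positivity
  rw [← h2]
  exact pow_le_pow_left₀ h0 h1 2

theorem finb_restrict {n : ℕ} (ρ : V n → ℝ) (U : Set (V n)) (hU : MeasurableSet U) :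
    mu (U.indicator ρ) = (mu ρ).restrict U := by
  rw [mu, mu, restrict_withDensity hU, ← withDensity_indicator hU]
  congr 1
  ext x
  by_cases hx : x ∈ U <;> simp [hx]

theorem finb_int {n : ℕ} (ρ : V n → ℝ) (h0 : ∀ x, 0 ≤ ρ x) (hm : Measurable ρ) (g : V n → ℝ) :
    ∫ x, g x ∂(mu ρ) = ∫ x, g x * ρ x := by
  rw [mu, integral_withDensity_eq_integral_toReal_smul hm.ennreal_ofReal
    (by simp)]
  refine integral_congr_ae (Filter.Eventually.of_forall fun x => ?_)
  simp [ENNReal.toReal_ofReal (h0 x), mul_comm]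

theorem finb (hBD : S_BD) (hBALL : S_BALL) (hTLN : S_TLN)
    (hGLUE : Pool.Agent.H787R2.KC.S_GLUE) : S_FINB := by
  intro k
  rcases Nat.eq_zero_or_pos k with hk0 | hk
  · subst hk0
    refine ⟨1, one_pos, ?_⟩
    intro ρ hρ hb s hs hM f hf
    have : IsProbabilityMeasure (mu ρ) := ⟨hρ.one⟩
    have hf0 : f = fun _ => f 0 := funext fun x => by rw [Subsingleton.elim x 0]
    have h1 : ∫ x, f x ^ 2 ∂(mu ρ) - (∫ x, f x ∂(mu ρ)) ^ 2 = 0 := by
      rw [hf0]
      simp
    rw [h1]
    have : 0 ≤ ∫ x, ‖fderiv ℝ f x‖ ^ 2 ∂(mu ρ) := integral_nonneg fun x => by positivity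
    positivity
  · obtain ⟨C₀, hC₀, hsmall⟩ := small_l2
    have hk1 : (1:ℝ) ≤ k := by exact_mod_cast hk
    set a : ℝ := 3 + k with ha
    have ha3 : 3 ≤ a := by linarith
    set B : ℝ := 64 * C₀ ^ 2 * k with hBdef
    set A : ℝ := 8192 * a ^ 2 * k with hAdef
    have hB0 : 0 < B := by positivity
    have hA0 : 0 < A := by positivity
    refine ⟨2 * (2 * A + 4 * B), by positivity, ?_⟩
    intro ρ hρ hb s hs hM f hf
    have hprob : IsProbabilityMeasure (mu ρ) := ⟨hρ.one⟩
    have hball : ∃ R, (mu ρ) (Metric.closedBall 0 R)ᶜ = 0 := by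
      obtain ⟨R, hR⟩ := hb
      refine ⟨R, ?_⟩
      rw [mu, withDensity_apply_eq_zero' (hρ.meas.ennreal_ofReal.aemeasurable)]
      refine measure_mono_null ?_ (measure_empty (μ := (volume : Measure (V k))))
      intro x hx
      refine hx.1 ?_
      have : R < ‖x‖ := by simpa using hx.2
      simp [hR x this]
    set q := Real.sqrt (k * s) with hq
    have hq0 : 0 < q := Real.sqrt_pos.2 (by positivity)
    have hq2 : q ^ 2 = k * s := Real.sq_sqrt (by positivity)
    have haq : 0 < a * q := by positivity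
    have htail : ∀ r : ℝ, 16 * a * q ≤ r → mu ρ (Metric.closedBall 0 r)ᶜ ≤
        ENNReal.ofReal (Real.exp (-(r / (8 * q)))) := by
      intro r hr
      have hqa : q ≤ a * q := by nlinarith
      have h1 := hTLN k hk ρ hρ s hs hM r (by rw [← hq]; nlinarith)
      refine h1.trans (ENNReal.ofReal_le_ofReal ?_)
      rw [← hq]
      have h2 : (k:ℝ) ≤ Real.exp (r / (8 * q)) := by
        have h3 : (k:ℝ) ≤ r / (8*q) := by
          rw [le_div_iff₀ (by positivity)]
          nlinarith
        have h4 := Real.add_one_le_exp (r/(8*q))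
        linarith
      have h5 : Real.exp (-(r / (4 * q))) =
          Real.exp (-(r / (8 * q))) * Real.exp (-(r / (8 * q))) := by
        rw [← Real.exp_add]; congr 1; field_simp; ring
      have h6 : Real.exp (r / (8 * q)) * Real.exp (-(r / (8 * q))) = 1 := by
        rw [← Real.exp_add]; simp
      calc (k:ℝ) * Real.exp (-(r / (4 * q)))
          = (k * Real.exp (-(r / (8 * q)))) * Real.exp (-(r / (8 * q))) := by rw [h5]; ring
        _ ≤ (Real.exp (r / (8 * q)) * Real.exp (-(r / (8 * q)))) *
            Real.exp (-(r / (8 * q))) := by gcongr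
        _ = _ := by rw [h6, one_mul]
    refine hGLUE (V k) (mu ρ) hball a s A B ha3 hs.le hA0.le hB0.le ?_
      (Metric.closedBall 0 (64 * a * q)) measurableSet_closedBall ?_ ?_ f hf
    · intro g hg hgs
      have h2 := hsmall (mu ρ) hρ.one hball (fun f hf hf0 hf1 hfs r hr hBr =>
        small_l1 volume ρ hρ.nonneg hρ.meas hρ.logc hb (mu ρ) rfl hρ.one f hf hf0 hf1 hfs r hr hBr)
        (8 * q) (2 * a) (by positivity) (by linarith)
        (fun r hr => htail r (by nlinarith)) g hg hgs
      have h3 : (C₀ * (8 * q)) ^ 2 = B * s := by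
        rw [mul_pow, mul_pow, hq2, hBdef]; ring
      rwa [h3] at h2
    · refine (htail (64 * a * q) (by nlinarith)).trans (le_of_eq ?_)
      congr 2
      field_simp
      ring
    · intro h hh
      obtain ⟨Bd, hBd⟩ := hBD k ρ hρ.nonneg hρ.meas hρ.one hρ.mid
      set U := Metric.closedBall (0 : V k) (64 * a * q) with hU
      have hUm : MeasurableSet U := measurableSet_closedBall
      have hind0 : ∀ x, 0 ≤ U.indicator ρ x := fun x =>
        Set.indicator_nonneg (fun y _ => hρ.nonneg y) x
      obtain ⟨c, hc⟩ := hBALL k (U.indicator ρ) hind0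
        (hρ.meas.indicator hUm)
        ⟨Bd, fun x => by
          by_cases hx : x ∈ U
          · rw [Set.indicator_of_mem hx]; exact hBd x
          · rw [Set.indicator_of_notMem hx]; exact (hρ.nonneg x).trans (hBd x)⟩
        (64 * a * q) (by positivity)
        (fun x hx => Set.indicator_of_notMem (by
          rw [hU, Metric.mem_closedBall, dist_zero_right]; exact not_le.2 hx) ρ)
        (fun x y => by
          by_cases hx : x ∈ U
          · by_cases hy : y ∈ U
            · have hm : (1 / 2 : ℝ) • (x + y) ∈ U := by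
                have hconv : Convex ℝ U := convex_closedBall _ _
                have := hconv hx hy (a := 1/2) (b := 1/2) (by norm_num) (by norm_num)
                  (by norm_num)
                rwa [← smul_add] at this
              rw [Set.indicator_of_mem hx, Set.indicator_of_mem hy, Set.indicator_of_mem hm]
              exact hρ.mid x y
            · rw [Set.indicator_of_notMem hy, mul_zero]; positivity
          · rw [Set.indicator_of_notMem hx, zero_mul]; positivity)
        h hh
      refine ⟨c, ?_⟩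
      rw [← finb_int _ hind0 (hρ.meas.indicator hUm) (fun x => (h x - c) ^ 2),
        ← finb_int _ hind0 (hρ.meas.indicator hUm) (fun x => ‖fderiv ℝ h x‖ ^ 2),
        finb_restrict ρ U hUm] at hc
      refine hc.trans (le_of_eq ?_)
      congr 1
      rw [hAdef, mul_pow, mul_pow, hq2]
      ring

end Pool.Agent.H787R2.UT
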