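import Pool.Agent.H787R2.UT.St2
import Pool.Agent.H787R2.KC.St
import Pool.Agent.H212R2.KLS.S1
import Pool.Agent.H212R2.KLS.S2

/-!
# FINB2: the bound `C ∫ |x|^2`, bounded support
-/

set_option autoImplicit false

namespace Pool.Agent.H787R2.UT

open MeasureTheory Set Pool.Agent.H212R2.KLS
open scoped ENNReal InnerProductSpace

/-- midpoint inequality from log-concavity -/
theorem LD.mid2 {n : ℕ} {ρ : V n → ℝ} (h : LD ρ) (x y : V n) :
    ρ x * ρ y ≤ (ρ ((1 / 2 : ℝ) • (x + y))) ^ 2 := by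
  have h1 := h.logc x y (1/2) (by norm_num) (by norm_num)
  have e : (1 - (1/2 : ℝ)) • x + (1/2 : ℝ) • y = (1 / 2 : ℝ) • (x + y) := by
    rw [smul_add]; norm_num
  rw [e] at h1
  have hx := h.nonneg x
  have hy := h.nonneg y
  have h2 : (ρ x ^ (1 - (1/2:ℝ)) * ρ y ^ (1/2:ℝ)) ^ 2 = ρ x * ρ y := by
    rw [mul_pow, ← Real.rpow_natCast, ← Real.rpow_natCast, ← Real.rpow_mul hx,
      ← Real.rpow_mul hy]
    norm_num
  have h0 : 0 ≤ ρ x ^ (1 - (1/2:ℝ)) * ρ y ^ (1/2:ℝ) := by positivity
  rw [← h2]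
  exact pow_le_pow_left₀ h0 h1 2

theorem finb2_restrict {n : ℕ} (ρ : V n → ℝ) (U : Set (V n)) (hU : MeasurableSet U) :
    mu (U.indicator ρ) = (mu ρ).restrict U := by
  rw [mu, mu, restrict_withDensity hU, ← withDensity_indicator hU]
  congr 1
  ext x
  by_cases hx : x ∈ U <;> simp [hx]

theorem finb2_int {n : ℕ} (ρ : V n → ℝ) (h0 : ∀ x, 0 ≤ ρ x) (hm : Measurable ρ) (g : V n → ℝ) :
    ∫ x, g x ∂(mu ρ) = ∫ x, g x * ρ x := by
  rw [mu, integral_withDensity_eq_integral_toReal_smul hm.ennreal_ofReal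
    (by simp)]
  refine integral_congr_ae (Filter.Eventually.of_forall fun x => ?_)
  simp [ENNReal.toReal_ofReal (h0 x), mul_comm]

theorem finb2 (hBD : S_BD) (hBALL : S_BALL) (hTLN : S_TLN2)
    (hGLUE : Pool.Agent.H787R2.KC.S_GLUE) : S_FINB2 := by
  obtain ⟨C₀, hC₀, hsmall⟩ := small_l2
  set B : ℝ := 16 * C₀ ^ 2 with hBdef
  set A : ℝ := 18432 with hAdef
  have hB0 : 0 < B := by positivity
  have hA0 : 0 < A := by positivity
  refine ⟨2 * (2 * A + 4 * B), by positivity, ?_⟩
  intro k ρ hρ hb s hs hM f hf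
  have hprob : IsProbabilityMeasure (mu ρ) := ⟨hρ.one⟩
  have hball : ∃ R, (mu ρ) (Metric.closedBall 0 R)ᶜ = 0 := by
    obtain ⟨R, hR⟩ := hb
    refine ⟨R, ?_⟩
    rw [mu, withDensity_apply_eq_zero' (hρ.meas.ennreal_ofReal.aemeasurable)]
    refine measure_mono_null ?_ (measure_empty (μ := (volume : Measure (V k))))
    intro x hx
    refine hx.1 ?_
    have : R < ‖x‖ := by simpa using hx.2
    simp [hR x this]
  set q := Real.sqrt s with hq
  have hq0 : 0 < q := Real.sqrt_pos.2 hs
  have hq2 : q ^ 2 = s := Real.sq_sqrt hs.le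
  have htail : ∀ r : ℝ, 4 * q ≤ r → mu ρ (Metric.closedBall 0 r)ᶜ ≤
      ENNReal.ofReal (Real.exp (-(r / (4 * q)))) := by
    intro r hr
    have h1 := hTLN k ρ hρ s hs hM (r / (4 * q)) (by rw [le_div_iff₀ (by positivity)]; linarith)
    refine le_trans (measure_mono ?_) h1
    intro x hx
    have hx' : r < ‖x‖ := by simpa using hx
    show 4 * (r / (4 * q)) * Real.sqrt s < ‖x‖
    rw [← hq]
    have : 4 * (r / (4 * q)) * q = r := by field_simp
    rw [this]
    exact hx'
  refine hGLUE (V k) (mu ρ) hball 3 s A B le_rfl hs.le hA0.le hB0.le ?_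
    (Metric.closedBall 0 (96 * q)) measurableSet_closedBall ?_ ?_ f hf
  · intro g hg hgs
    have h2 := hsmall (mu ρ) hρ.one hball (fun f hf hf0 hf1 hfs r hr hBr =>
      small_l1 volume ρ hρ.nonneg hρ.meas hρ.logc hb (mu ρ) rfl hρ.one f hf hf0 hf1 hfs r hr hBr)
      (4 * q) (2 * 3) (by positivity) (by norm_num)
      (fun r hr => htail r (by nlinarith)) g hg hgs
    have h3 : (C₀ * (4 * q)) ^ 2 = B * s := by
      rw [mul_pow, mul_pow, hq2, hBdef]; ring
    rwa [h3] at h2
  · refine (htail (96 * q) (by nlinarith)).trans (le_of_eq ?_)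
    congr 2
    field_simp
    norm_num
  · intro h hh
    obtain ⟨Bd, hBd⟩ := hBD k ρ hρ.nonneg hρ.meas hρ.one hρ.mid2
    set U := Metric.closedBall (0 : V k) (96 * q) with hU
    have hUm : MeasurableSet U := measurableSet_closedBall
    have hind0 : ∀ x, 0 ≤ U.indicator ρ x := fun x =>
      Set.indicator_nonneg (fun y _ => hρ.nonneg y) x
    obtain ⟨c, hc⟩ := hBALL k (U.indicator ρ) hind0
      (hρ.meas.indicator hUm)
      ⟨Bd, fun x => by
        by_cases hx : x ∈ U
        · rw [Set.indicator_of_mem hx]; exact hBd x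
        · rw [Set.indicator_of_notMem hx]; exact (hρ.nonneg x).trans (hBd x)⟩
      (96 * q) (by positivity)
      (fun x hx => Set.indicator_of_notMem (by
        rw [hU, Metric.mem_closedBall, dist_zero_right]; exact not_le.2 hx) ρ)
      (fun x y => by
        by_cases hx : x ∈ U
        · by_cases hy : y ∈ U
          · have hm : (1 / 2 : ℝ) • (x + y) ∈ U := by
              have hconv : Convex ℝ U := convex_closedBall _ _
              have := hconv hx hy (a := 1/2) (b := 1/2) (by norm_num) (by norm_num)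
                (by norm_num)
              rwa [← smul_add] at this
            rw [Set.indicator_of_mem hx, Set.indicator_of_mem hy, Set.indicator_of_mem hm]
            exact hρ.mid2 x y
          · rw [Set.indicator_of_notMem hy, mul_zero]; positivity
        · rw [Set.indicator_of_notMem hx, zero_mul]; positivity)
      h hh
    refine ⟨c, ?_⟩
    rw [← finb2_int _ hind0 (hρ.meas.indicator hUm) (fun x => (h x - c) ^ 2),
      ← finb2_int _ hind0 (hρ.meas.indicator hUm) (fun x => ‖fderiv ℝ h x‖ ^ 2),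
      finb2_restrict ρ U hUm] at hc
    refine hc.trans (le_of_eq ?_)
    congr 1
    rw [hAdef, mul_pow, hq2]
    ring

end Pool.Agent.H787R2.UT
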