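import Pool.Agent.H787R2.UT.St

/-!
# Fubini for the tilted integrals
-/

set_option autoImplicit false

namespace Pool.Agent.H787R2.UT

open MeasureTheory Set Pool.Agent.H212R2.KLS
open scoped ENNReal InnerProductSpace

theorem FUB_gk_eq {k : ℕ} (σ : ℝ) :
    (gk σ : V k → ℝ) = fun z => Real.exp (-(1 / (2 * σ ^ 2)) * ‖z‖ ^ 2) := by
  funext z
  unfold gk
  congr 1
  ring

theorem FUB_gk_int {k : ℕ} {σ : ℝ} (hσ : 0 < σ) : Integrable (gk σ : V k → ℝ) := by
  have hb : 0 < 1 / (2 * σ ^ 2) := by positivity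
  have h := GaussianFourier.integrable_cexp_neg_mul_sq_norm_add (V := V k)
    (b := ((1 / (2 * σ ^ 2) : ℝ) : ℂ)) (by rw [Complex.ofReal_re]; exact hb) 0 0
  have h2 := h.norm
  rw [FUB_gk_eq]
  refine h2.congr (Filter.Eventually.of_forall fun z => ?_)
  simp only
  rw [Complex.norm_exp]
  congr 1
  simp [← Complex.ofReal_pow, ← Complex.ofReal_mul]

theorem FUB_ck_pos {k : ℕ} {σ : ℝ} (hσ : 0 < σ) : 0 < ck k σ := by
  have hb : 0 < 1 / (2 * σ ^ 2) := by positivity
  unfold ck
  rw [FUB_gk_eq, GaussianFourier.integral_rexp_neg_mul_sq_norm hb]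
  positivity

theorem FUB_gk_cont {k : ℕ} (σ : ℝ) : Continuous (gk σ : V k → ℝ) := by
  unfold gk
  fun_prop

theorem FUB_gk_nonneg {k : ℕ} (σ : ℝ) (z : V k) : 0 ≤ gk σ z := (Real.exp_pos _).le

theorem FUB_main {n k : ℕ} (μ : Measure (V n)) [IsProbabilityMeasure μ]
    (T : V n →ₗ[ℝ] V k) {σ : ℝ} (hσ : 0 < σ) (h : V n → ℝ) (hc : Continuous h)
    (hB : ∃ B : ℝ, ∀ x, |h x| ≤ B) :
    Integrable (Nn μ T σ h) ∧ ∫ τ, Nn μ T σ h τ = ck k σ * ∫ x, h x ∂μ := by
  obtain ⟨B, hB⟩ := hB
  have hT : Continuous T := T.continuous_of_finiteDimensional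
  have hcont : Continuous fun p : V k × V n => h p.2 * gk σ (T p.2 - p.1) :=
    (hc.comp continuous_snd).mul
      ((FUB_gk_cont σ).comp ((hT.comp continuous_snd).sub continuous_fst))
  have hi : Integrable (fun p : V k × V n => h p.2 * gk σ (T p.2 - p.1))
      ((volume : Measure (V k)).prod μ) := by
    rw [integrable_prod_iff' hcont.aestronglyMeasurable]
    refine ⟨Filter.Eventually.of_forall fun x => ?_, ?_⟩
    · exact ((FUB_gk_int hσ).comp_sub_left (T x)).const_mul (h x)
    · have e : (fun x : V n => ∫ τ : V k, ‖h x * gk σ (T x - τ)‖) =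
          fun x => |h x| * ck k σ := by
        funext x
        have e1 : (fun τ : V k => ‖h x * gk σ (T x - τ)‖) =
            fun τ => |h x| * gk σ (T x - τ) := by
          funext τ
          rw [norm_mul, Real.norm_eq_abs, Real.norm_of_nonneg (FUB_gk_nonneg σ _)]
        rw [e1, integral_const_mul, integral_sub_left_eq_self (gk σ : V k → ℝ) volume (T x)]
        rfl
      show Integrable (fun x : V n => ∫ τ : V k, ‖h x * gk σ (T x - τ)‖) μ
      rw [e]
      refine Integrable.mul_const ?_ _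
      refine Integrable.of_bound hc.abs.aestronglyMeasurable B
        (Filter.Eventually.of_forall fun x => ?_)
      rw [Real.norm_eq_abs, abs_abs]
      exact hB x
  refine ⟨hi.integral_prod_left, ?_⟩
  unfold Nn
  rw [integral_integral_swap hi]
  have e2 : (fun x : V n => ∫ τ : V k, h x * gk σ (T x - τ)) = fun x => h x * ck k σ := by
    funext x
    rw [integral_const_mul, integral_sub_left_eq_self (gk σ : V k → ℝ) volume (T x)]
    rfl
  rw [e2, integral_mul_const, mul_comm]

theorem fub : S_FUB := by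
  intro n k μ _ T σ hσ
  have h1 := FUB_main μ T hσ (fun _ => 1) continuous_const ⟨1, fun _ => by simp⟩
  have e : Nn μ T σ (fun _ => 1) = Zz μ T σ := by
    funext τ
    unfold Nn Zz
    simp only [one_mul]
  rw [e] at h1
  refine ⟨FUB_ck_pos hσ, FUB_gk_int hσ, h1.1, ?_, fun h hc hB => FUB_main μ T hσ h hc hB⟩
  rw [h1.2]
  simp

end Pool.Agent.H787R2.UT
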