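import Pool.Agent.H787R2.UT.St
import Mathlib

/-!
# KLS project UT: task GP (Gaussian convolution)
-/

set_option autoImplicit false

namespace Pool.Agent.H787R2.UT

open MeasureTheory Set Pool.Agent.H212R2.KLS
open scoped ENNReal InnerProductSpace Topology

namespace GPaux

theorem gk_pos {k : ℕ} (σ : ℝ) (z : V k) : 0 < gk σ z := Real.exp_pos _

theorem gk_le {k : ℕ} (σ : ℝ) (z : V k) : gk σ z ≤ 1 := by
  unfold gk
  rw [Real.exp_le_one_iff]
  have : 0 ≤ ‖z‖ ^ 2 / (2 * σ ^ 2) := by positivity
  linarith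

theorem gk_cont {k : ℕ} (σ : ℝ) : Continuous (gk σ : V k → ℝ) := by
  unfold gk
  fun_prop

theorem gk_int {k : ℕ} (σ : ℝ) (hσ : 0 < σ) : Integrable (gk σ : V k → ℝ) := by
  have hb : (0 : ℝ) < ((1 / (2 * σ ^ 2) : ℝ) : ℂ).re := by
    rw [Complex.ofReal_re]; positivity
  have h := (GaussianFourier.integrable_cexp_neg_mul_sq_norm_add (V := V k) hb 0 0).norm
  refine h.congr (Filter.Eventually.of_forall fun z => ?_)
  simp only [Complex.norm_exp]
  unfold gk
  congr 1
  simp only [zero_mul, add_zero]
  rw [← Complex.ofReal_neg, ← Complex.ofReal_pow, ← Complex.ofReal_mul, Complex.ofReal_re]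
  field_simp

theorem ck_pos (k : ℕ) (σ : ℝ) (hσ : 0 < σ) : 0 < ck k σ := by
  unfold ck
  rw [integral_pos_iff_support_of_nonneg (fun z => (gk_pos σ z).le) (gk_int σ hσ)]
  have : Function.support (gk σ : V k → ℝ) = univ := by
    ext z
    simp [(gk_pos σ z).ne']
  rw [this]
  exact isOpen_univ.measure_pos _ univ_nonempty

end GPaux

open GPaux

theorem gp (hPU : S_PU) : S_GP := by
  intro k σ hσ m hm
  obtain ⟨hm1, B, hB⟩ := hm
  have hck := ck_pos k σ hσ
  have hint := gk_int (k := k) σ hσ
  have hmc : Continuous m := hm1.continuous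
  have hdc : Continuous (fderiv ℝ m) := hm1.continuous_fderiv one_ne_zero
  have hmd : Differentiable ℝ m := hm1.differentiable one_ne_zero
  have hgc := gk_cont (k := k) σ
  have hB0 : 0 ≤ B := le_trans (abs_nonneg _) (hB 0).1
  -- integrability of bounded continuous functions times the Gaussian
  have intmul : ∀ h : V k → ℝ, Continuous h → (∃ C : ℝ, ∀ x, |h x| ≤ C) →
      Integrable (fun z => h z * gk σ z) := by
    intro h hh ⟨C, hC⟩
    exact hint.bdd_mul (c := C) hh.aestronglyMeasurable
      (Filter.Eventually.of_forall fun z => by rw [Real.norm_eq_abs]; exact hC z)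
  -- the substitution
  have subst1 : ∀ (h : V k → ℝ) (y : V k),
      ∫ τ, h τ * gk σ (y - τ) = ∫ z, h (y - z) * gk σ z := by
    intro h y
    have := integral_sub_left_eq_self (fun z => h (y - z) * gk σ z) volume y
    rw [← this]
    simp
  have hGfun : (fun y : V k => (∫ τ, m τ * gk σ (y - τ)) / ck k σ) =
      fun y => (∫ z, m (y - z) * gk σ z) / ck k σ := by
    funext y
    rw [subst1]
  -- derivative
  have hder : ∀ y : V k, HasFDerivAt (fun y => ∫ z, m (y - z) * gk σ z)
      (∫ z, gk σ z • fderiv ℝ m (y - z)) y := by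
    intro y
    refine hasFDerivAt_integral_of_dominated_of_fderiv_le (μ := volume) (s := univ)
      (F := fun y z => m (y - z) * gk σ z) (F' := fun y z => gk σ z • fderiv ℝ m (y - z))
      (bound := fun z => B * gk σ z) Filter.univ_mem ?_ ?_ ?_ ?_ ?_ ?_
    · exact Filter.Eventually.of_forall fun x => by
        apply Continuous.aestronglyMeasurable
        fun_prop
    · exact intmul _ (by fun_prop) ⟨B, fun z => (hB _).1⟩
    · apply Continuous.aestronglyMeasurable
      exact hgc.smul (hdc.comp (by fun_prop))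
    · refine Filter.Eventually.of_forall fun z x _ => ?_
      rw [norm_smul, Real.norm_eq_abs, abs_of_pos (gk_pos σ z), mul_comm]
      exact mul_le_mul_of_nonneg_right (hB _).2 (gk_pos σ z).le
    · exact hint.const_mul B
    · refine Filter.Eventually.of_forall fun z x _ => ?_
      have h1 : HasFDerivAt (fun x => m (x - z)) (fderiv ℝ m (x - z)) x := by
        have h0 := (hmd (x - z)).hasFDerivAt.comp x ((hasFDerivAt_id x).sub_const z)
        rw [ContinuousLinearMap.comp_id] at h0
        exact h0
      exact h1.mul_const (gk σ z)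
  have hG' : ∀ y : V k, HasFDerivAt (fun y => (∫ z, m (y - z) * gk σ z) / ck k σ)
      ((ck k σ)⁻¹ • ∫ z, gk σ z • fderiv ℝ m (y - z)) y := by
    intro y
    have := (hder y).const_mul (ck k σ)⁻¹
    refine this.congr_of_eventuallyEq (Filter.Eventually.of_forall fun x => ?_)
    simp only [div_eq_inv_mul]
  have hfd : ∀ y : V k, fderiv ℝ (fun y => (∫ z, m (y - z) * gk σ z) / ck k σ) y =
      (ck k σ)⁻¹ • ∫ z, gk σ z • fderiv ℝ m (y - z) := fun y => (hG' y).fderiv
  -- bound for the norm of the vector integral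
  have hnorm : ∀ y : V k, ‖∫ z, gk σ z • fderiv ℝ m (y - z)‖ ≤
      ∫ z, ‖fderiv ℝ m (y - z)‖ * gk σ z := by
    intro y
    refine (norm_integral_le_integral_norm _).trans (le_of_eq ?_)
    congr 1
    funext z
    rw [norm_smul, Real.norm_eq_abs, abs_of_pos (gk_pos σ z), mul_comm]
  have hck' : ∫ z : V k, gk σ z = ck k σ := rfl
  constructor
  · rw [hGfun]
    refine ⟨?_, B, fun y => ⟨?_, ?_⟩⟩
    · rw [contDiff_one_iff_fderiv]
      refine ⟨fun y => (hG' y).differentiableAt, ?_⟩
      have : fderiv ℝ (fun y => (∫ z, m (y - z) * gk σ z) / ck k σ) =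
          fun y => (ck k σ)⁻¹ • ∫ z, gk σ z • fderiv ℝ m (y - z) := funext hfd
      rw [this]
      suffices hc : Continuous fun y => ∫ z, gk σ z • fderiv ℝ m (y - z) from
        hc.const_smul (ck k σ)⁻¹
      refine continuous_of_dominated (bound := fun z => B * gk σ z) ?_ ?_ (hint.const_mul B) ?_
      · intro y
        exact (hgc.smul (hdc.comp (by fun_prop))).aestronglyMeasurable
      · intro y
        refine Filter.Eventually.of_forall fun z => ?_
        rw [norm_smul, Real.norm_eq_abs, abs_of_pos (gk_pos σ z), mul_comm]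
        exact mul_le_mul_of_nonneg_right (hB _).2 (gk_pos σ z).le
      · refine Filter.Eventually.of_forall fun z => ?_
        have hh : Continuous fun x : V k => fderiv ℝ m (x - z) :=
          hdc.comp (continuous_id.sub continuous_const)
        exact hh.const_smul (gk σ z)
    · rw [abs_div, abs_of_pos hck, div_le_iff₀ hck]
      refine (abs_integral_le_integral_abs).trans ?_
      rw [← hck', ← integral_const_mul]
      refine integral_mono_of_nonneg (Filter.Eventually.of_forall fun z => abs_nonneg _)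
        (hint.const_mul B) (Filter.Eventually.of_forall fun z => ?_)
      simp only
      rw [abs_mul, abs_of_pos (gk_pos σ z)]
      exact mul_le_mul_of_nonneg_right (hB _).1 (gk_pos σ z).le
    · rw [hfd, norm_smul, norm_inv, Real.norm_eq_abs, abs_of_pos hck, ← div_eq_inv_mul,
        div_le_iff₀ hck]
      refine (hnorm y).trans ?_
      rw [← hck', ← integral_const_mul]
      refine integral_mono_of_nonneg (Filter.Eventually.of_forall fun z =>
        mul_nonneg (norm_nonneg _) (gk_pos σ z).le)
        (hint.const_mul B) (Filter.Eventually.of_forall fun z => ?_)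
      exact mul_le_mul_of_nonneg_right (hB _).2 (gk_pos σ z).le
  · intro y
    constructor
    · rw [hGfun, hfd, norm_smul, norm_inv, Real.norm_eq_abs, abs_of_pos hck, subst1]
      set a : ℝ := ∫ z, ‖fderiv ℝ m (y - z)‖ * gk σ z with ha
      have hDc : Continuous fun z => ‖fderiv ℝ m (y - z)‖ := (hdc.comp (by fun_prop)).norm
      have ha0 : 0 ≤ a := integral_nonneg fun z => mul_nonneg (norm_nonneg _) (gk_pos σ z).le
      have i1 : Integrable (fun z => ‖fderiv ℝ m (y - z)‖ * gk σ z) :=
        intmul _ hDc ⟨B, fun z => by rw [abs_of_nonneg (norm_nonneg _)]; exact (hB _).2⟩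
      have i2 : Integrable (fun z => ‖fderiv ℝ m (y - z)‖ ^ 2 * gk σ z) :=
        intmul _ (hDc.pow 2) ⟨B ^ 2, fun z => by
          rw [abs_of_nonneg (by positivity)]
          exact pow_le_pow_left₀ (norm_nonneg _) (hB _).2 2⟩
      set c : ℝ := a / ck k σ with hc
      have hpos : 0 ≤ ∫ z, (‖fderiv ℝ m (y - z)‖ - c) ^ 2 * gk σ z :=
        integral_nonneg fun z => mul_nonneg (sq_nonneg _) (gk_pos σ z).le
      have hexp : ∫ z, (‖fderiv ℝ m (y - z)‖ - c) ^ 2 * gk σ z =
          (∫ z, ‖fderiv ℝ m (y - z)‖ ^ 2 * gk σ z) - 2 * c * a + c ^ 2 * ck k σ := by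
        have e1 : (fun z => (‖fderiv ℝ m (y - z)‖ - c) ^ 2 * gk σ z) =
            fun z => (‖fderiv ℝ m (y - z)‖ ^ 2 * gk σ z -
              (2 * c) * (‖fderiv ℝ m (y - z)‖ * gk σ z)) + c ^ 2 * gk σ z := by
          funext z; ring
        have i3 : Integrable (fun z => (2 * c) * (‖fderiv ℝ m (y - z)‖ * gk σ z)) :=
          i1.const_mul _
        have i4 : Integrable (fun z => ‖fderiv ℝ m (y - z)‖ ^ 2 * gk σ z -
              (2 * c) * (‖fderiv ℝ m (y - z)‖ * gk σ z)) := i2.sub i3
        rw [e1, integral_add i4 (hint.const_mul _),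
          integral_sub i2 i3, integral_const_mul, integral_const_mul, hck', ha]
      have hJ : ‖∫ z, gk σ z • fderiv ℝ m (y - z)‖ ≤ a := hnorm y
      have hJ0 := norm_nonneg (∫ z, gk σ z • fderiv ℝ m (y - z))
      rw [hexp] at hpos
      have hca : c * ck k σ = a := by rw [hc]; field_simp
      have key : a * a ≤ (∫ z, ‖fderiv ℝ m (y - z)‖ ^ 2 * gk σ z) * ck k σ := by
        have : c ^ 2 * ck k σ = c * a := by rw [pow_two, mul_assoc, hca]
        rw [this] at hpos
        have h2 : c * a ≤ ∫ z, ‖fderiv ℝ m (y - z)‖ ^ 2 * gk σ z := by linarith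
        calc a * a = (c * a) * ck k σ := by rw [← hca]; ring
          _ ≤ _ := mul_le_mul_of_nonneg_right h2 hck.le
      rw [le_div_iff₀ hck]
      have h3 : ((ck k σ)⁻¹ * ‖∫ z, gk σ z • fderiv ℝ m (y - z)‖) ^ 2 * ck k σ =
          (‖∫ z, gk σ z • fderiv ℝ m (y - z)‖ * ‖∫ z, gk σ z • fderiv ℝ m (y - z)‖) *
            (ck k σ)⁻¹ := by
        field_simp
      rw [h3]
      have h4 : ‖∫ z, gk σ z • fderiv ℝ m (y - z)‖ * ‖∫ z, gk σ z • fderiv ℝ m (y - z)‖ ≤ a * a :=
        mul_le_mul hJ hJ hJ0 ha0
      have h5 : (ck k σ)⁻¹ > 0 := inv_pos.2 hck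
      calc _ ≤ ((∫ z, ‖fderiv ℝ m (y - z)‖ ^ 2 * gk σ z) * ck k σ) * (ck k σ)⁻¹ :=
            mul_le_mul_of_nonneg_right (h4.trans key) h5.le
        _ = _ := by field_simp
    · have hw : ∫ τ, gk σ (y - τ) = ck k σ := by
        have := integral_sub_left_eq_self (fun z : V k => gk σ z) volume y
        exact this
      have hwi : Integrable (fun τ => gk σ (y - τ)) := hint.comp_sub_left y
      have := hPU k (fun τ => gk σ (y - τ)) (fun τ => (gk_pos σ _).le)
        (by
          have : Continuous fun τ => gk σ (y - τ) := hgc.comp (by fun_prop)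
          exact this.measurable) ⟨1, fun τ => gk_le σ _⟩ hwi (by rw [hw]; exact hck)
        (σ ^ 2)⁻¹ (by positivity) ?_ m ⟨hm1, B, fun x => (hB x).2⟩
      · rw [hw, inv_inv] at this
        exact this.2.2
      · intro x z
        apply le_of_eq
        unfold gk
        rw [← Real.exp_add, ← Real.exp_nat_mul, ← Real.exp_add]
        congr 1
        have hpar := parallelogram_law_with_norm ℝ (y - x) (y - z)
        have e1 : y - (1 / 2 : ℝ) • (x + z) = (1 / 2 : ℝ) • ((y - x) + (y - z)) := by
          module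
        have e2 : (y - x) - (y - z) = z - x := by abel
        rw [e1, norm_smul]
        rw [e2, norm_sub_rev z x] at hpar
        have e3 : ‖(1 / 2 : ℝ)‖ = 1 / 2 := by norm_num
        rw [e3]
        have hσ' : σ ≠ 0 := hσ.ne'
        field_simp
        push_cast
        nlinarith [hpar]

end Pool.Agent.H787R2.UT
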