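import Pool.Agent.H787R2.UT.St

/-!
# UT, task GR: the gradient of the tilted mean (helper966)
-/

set_option autoImplicit false

namespace Pool.Agent.H787R2.UT

open MeasureTheory Set Pool.Agent.H212R2.KLS
open scoped ENNReal InnerProductSpace

namespace GRx

/-- covariance Cauchy-Schwarz inequality for a finite weight -/
theorem cov {X : Type} [MeasurableSpace X] {μ : Measure X} {w f g : X → ℝ} (hw : ∀ x, 0 ≤ w x)
    (i0 : Integrable w μ) (hZ : 0 < ∫ x, w x ∂μ)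
    (i1 : Integrable (fun x => f x * w x) μ) (i2 : Integrable (fun x => g x * w x) μ)
    (i3 : Integrable (fun x => f x ^ 2 * w x) μ) (i4 : Integrable (fun x => g x ^ 2 * w x) μ)
    (i5 : Integrable (fun x => f x * g x * w x) μ) :
    ((∫ x, w x ∂μ) * (∫ x, f x * g x * w x ∂μ) - (∫ x, f x * w x ∂μ) * ∫ x, g x * w x ∂μ) ^ 2 ≤
      ((∫ x, w x ∂μ) * (∫ x, f x ^ 2 * w x ∂μ) - (∫ x, f x * w x ∂μ) ^ 2) *
      ((∫ x, w x ∂μ) * (∫ x, g x ^ 2 * w x ∂μ) - (∫ x, g x * w x ∂μ) ^ 2) := by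
  set Z := ∫ x, w x ∂μ with hZd
  set Nf := ∫ x, f x * w x ∂μ with hNf
  set Ng := ∫ x, g x * w x ∂μ with hNg
  set Nff := ∫ x, f x ^ 2 * w x ∂μ with hNff
  set Ngg := ∫ x, g x ^ 2 * w x ∂μ with hNgg
  set Nfg := ∫ x, f x * g x * w x ∂μ with hNfg
  have key : ∀ a : ℝ, 0 ≤ (Z * Ngg - Ng ^ 2) * (a * a) + (2 * (Z * Nfg - Nf * Ng)) * a +
      (Z * Nff - Nf ^ 2) := by
    intro a
    let c : ℝ := (Nf + a * Ng) / Z
    have h1 : 0 ≤ ∫ x, (f x + a * g x - c) ^ 2 * w x ∂μ :=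
      integral_nonneg fun x => mul_nonneg (sq_nonneg _) (hw x)
    have e1 : ∀ x, (f x + a * g x - c) ^ 2 * w x =
        f x ^ 2 * w x + (2 * a) * (f x * g x * w x) + (a * a) * (g x ^ 2 * w x) +
        (-(2 * c)) * (f x * w x) + (-(2 * a * c)) * (g x * w x) + (c ^ 2) * w x := by
      intro x
      ring
    have j1 := i3.add (i5.const_mul (2 * a))
    have j2 := j1.add (i4.const_mul (a * a))
    have j3 := j2.add (i1.const_mul (-(2 * c)))
    have j4 := j3.add (i2.const_mul (-(2 * a * c)))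
    have e2 : ∫ x, (f x + a * g x - c) ^ 2 * w x ∂μ = Nff + (2 * a) * Nfg + (a * a) * Ngg +
        (-(2 * c)) * Nf + (-(2 * a * c)) * Ng + c ^ 2 * Z := by
      rw [integral_congr_ae (Filter.Eventually.of_forall e1)]
      refine (integral_add j4 (i0.const_mul (c ^ 2))).trans ?_
      refine congrArg₂ (· + ·) ?_ (integral_const_mul _ _)
      refine (integral_add j3 (i2.const_mul (-(2 * a * c)))).trans ?_
      refine congrArg₂ (· + ·) ?_ (integral_const_mul _ _)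
      refine (integral_add j2 (i1.const_mul (-(2 * c)))).trans ?_
      refine congrArg₂ (· + ·) ?_ (integral_const_mul _ _)
      refine (integral_add j1 (i4.const_mul (a * a))).trans ?_
      refine congrArg₂ (· + ·) ?_ (integral_const_mul _ _)
      refine (integral_add i3 (i5.const_mul (2 * a))).trans ?_
      exact congrArg₂ (· + ·) rfl (integral_const_mul _ _)
    rw [e2] at h1
    have h2 := mul_nonneg hZ.le h1
    have h3 : Z * (Nff + (2 * a) * Nfg + (a * a) * Ngg + (-(2 * c)) * Nf + (-(2 * a * c)) * Ng +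
        c ^ 2 * Z) = (Z * Ngg - Ng ^ 2) * (a * a) + (2 * (Z * Nfg - Nf * Ng)) * a +
        (Z * Nff - Nf ^ 2) := by
      have hZ' : Z ≠ 0 := hZ.ne'
      simp only [c]
      field_simp
      ring
    rwa [h3] at h2
  have h2 := discrim_le_zero key
  rw [discrim] at h2
  nlinarith

end GRx

/-- GR -/
theorem gr (hTP : S_TP) (hDER : S_DER) : S_GR := by
  intro n k ρ T σ h f hf
  have : IsProbabilityMeasure (mu ρ) := ⟨h.one⟩
  have hσ := h.σpos
  obtain ⟨hfc, B, hB⟩ := hf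
  have hB0 : 0 ≤ B := (abs_nonneg _).trans (hB 0).1
  have hLf : LC f := ⟨hfc, B, fun x => (hB x).2⟩
  have hL1 : LC (fun _ : V n => (1 : ℝ)) := ⟨contDiff_const, 0, fun x => by simp⟩
  have hTc : Continuous T := T.continuous_of_finiteDimensional
  have hZpos : ∀ τ, 0 < Zz (mu ρ) T σ τ := fun τ => (hTP n k ρ T σ h τ).1
  have iw : ∀ τ, Integrable (fun x => gk σ (T x - τ)) (mu ρ) := by
    intro τ
    have := ((hTP n k ρ T σ h τ).2 _ hL1).2.1
    simpa using this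
  have hgk0 : ∀ z : V k, 0 ≤ gk σ z := fun z => (Real.exp_pos _).le
  have hgkc : ∀ τ, Continuous (fun x => gk σ (T x - τ)) := by
    intro τ
    unfold gk
    fun_prop
  have hN1 : Nn (mu ρ) T σ (fun _ => (1 : ℝ)) = Zz (mu ρ) T σ := by
    funext τ
    simp [Nn, Zz]
  have dF := hDER n k (mu ρ) T σ hσ f hfc.continuous ⟨B, fun x => (hB x).1⟩
  have dZ := hDER n k (mu ρ) T σ hσ (fun _ => (1 : ℝ)) continuous_const ⟨1, fun x => by simp⟩
  rw [hN1] at dZ
  have hmc : ContDiff ℝ 1 (mm (mu ρ) T σ f) := by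
    have := dF.1.div dZ.1 (fun τ => (hZpos τ).ne')
    exact this
  -- bound of the mean
  have hmb : ∀ τ, |mm (mu ρ) T σ f τ| ≤ B := by
    intro τ
    have h1 : |Nn (mu ρ) T σ f τ| ≤ B * Zz (mu ρ) T σ τ := by
      unfold Nn Zz
      rw [← integral_const_mul, ← Real.norm_eq_abs]
      refine norm_integral_le_of_norm_le ((iw τ).const_mul B) (Filter.Eventually.of_forall ?_)
      intro x
      rw [norm_mul, Real.norm_eq_abs, Real.norm_eq_abs, abs_of_nonneg (hgk0 _)]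
      exact mul_le_mul_of_nonneg_right (hB x).1 (hgk0 _)
    unfold mm
    rw [abs_div, abs_of_pos (hZpos τ), div_le_iff₀ (hZpos τ)]
    exact h1
  -- integral of the square of the gradient
  have iG : ∀ τ, Integrable (fun x => ‖fderiv ℝ f x‖ ^ 2 * gk σ (T x - τ)) (mu ρ) := by
    intro τ
    have hc : Continuous (fun x => ‖fderiv ℝ f x‖ ^ 2 * gk σ (T x - τ)) :=
      (((hfc.continuous_fderiv (by norm_num)).norm).pow 2).mul (hgkc τ)
    refine Integrable.mono' ((iw τ).const_mul (B ^ 2)) hc.aestronglyMeasurable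
      (Filter.Eventually.of_forall fun x => ?_)
    rw [Real.norm_eq_abs, abs_of_nonneg (mul_nonneg (sq_nonneg _) (hgk0 _))]
    refine mul_le_mul_of_nonneg_right ?_ (hgk0 _)
    exact pow_le_pow_left₀ (norm_nonneg _) (hB x).2 2
  have hNG0 : ∀ τ, 0 ≤ Nn (mu ρ) T σ (fun x => ‖fderiv ℝ f x‖ ^ 2) τ := fun τ =>
    integral_nonneg fun x => mul_nonneg (sq_nonneg _) (hgk0 _)
  have hNG : ∀ τ, Nn (mu ρ) T σ (fun x => ‖fderiv ℝ f x‖ ^ 2) τ ≤ B ^ 2 * Zz (mu ρ) T σ τ := by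
    intro τ
    unfold Nn Zz
    rw [← integral_const_mul]
    refine integral_mono (iG τ) ((iw τ).const_mul _) fun x => ?_
    refine mul_le_mul_of_nonneg_right ?_ (hgk0 _)
    exact pow_le_pow_left₀ (norm_nonneg _) (hB x).2 2
  -- directional estimate
  have hdir : ∀ τ u : V k, (fderiv ℝ (mm (mu ρ) T σ f) τ u) ^ 2 * Zz (mu ρ) T σ τ ≤
      ‖u‖ ^ 2 * Nn (mu ρ) T σ (fun x => ‖fderiv ℝ f x‖ ^ 2) τ := by
    intro τ u
    let L : V n →L[ℝ] ℝ := (innerSL ℝ u).comp (LinearMap.toContinuousLinearMap T)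
    have hL : ∀ v, L v = ⟪u, T v⟫_ℝ := fun v => rfl
    have hLn : ‖L‖ ≤ ‖u‖ := by
      refine L.opNorm_le_bound (norm_nonneg _) fun v => ?_
      rw [hL]
      exact (norm_inner_le_norm u (T v)).trans
        (mul_le_mul_of_nonneg_left (h.contr v) (norm_nonneg _))
    let g : V n → ℝ := fun x => L x - ⟪u, τ⟫_ℝ
    have hg : ∀ x, ⟪T x - τ, u⟫_ℝ = g x := by
      intro x
      show _ = ⟪u, T x⟫_ℝ - ⟪u, τ⟫_ℝ
      rw [← inner_sub_right, real_inner_comm]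
    have hgc : ContDiff ℝ 1 g := L.contDiff.sub contDiff_const
    have hgd : ∀ x, fderiv ℝ g x = L := by
      intro x
      show fderiv ℝ (fun x => L x - ⟪u, τ⟫_ℝ) x = L
      rw [fderiv_sub_const, L.fderiv]
    have hLg : LC g := ⟨hgc, ‖L‖, fun x => by rw [hgd]⟩
    have hLs : LC (fun x => f x + g x) := by
      refine ⟨hfc.add hgc, B + ‖L‖, fun x => ?_⟩
      have e : fderiv ℝ (fun x => f x + g x) x = fderiv ℝ f x + fderiv ℝ g x :=
        fderiv_add ((hfc.differentiable (by norm_num)) x) ((hgc.differentiable (by norm_num)) x)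
      rw [e, hgd]
      exact (norm_add_le _ _).trans (by have := (hB x).2; linarith)
    have tf := (hTP n k ρ T σ h τ).2 f hLf
    have tg := (hTP n k ρ T σ h τ).2 g hLg
    have ts := (hTP n k ρ T σ h τ).2 _ hLs
    have ifg : Integrable (fun x => f x * g x * gk σ (T x - τ)) (mu ρ) := by
      have := ((ts.1.sub tf.1).sub tg.1).const_mul (1 / 2)
      refine this.congr (Filter.Eventually.of_forall fun x => ?_)
      show 1 / 2 * ((f x + g x) ^ 2 * gk σ (T x - τ) - f x ^ 2 * gk σ (T x - τ) -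
        g x ^ 2 * gk σ (T x - τ)) = _
      ring
    have hcov := GRx.cov (fun x => hgk0 (T x - τ)) (iw τ) (hZpos τ) tf.2.1 tg.2.1 tf.1 tg.1 ifg
    -- derivatives
    have d1 : fderiv ℝ (Nn (mu ρ) T σ f) τ u =
        (∫ x, f x * g x * gk σ (T x - τ) ∂(mu ρ)) / σ ^ 2 := by
      rw [dF.2, ← integral_div]
      refine integral_congr_ae (Filter.Eventually.of_forall fun x => ?_)
      show f x * (⟪T x - τ, u⟫_ℝ / σ ^ 2 * gk σ (T x - τ)) = _
      rw [hg]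
      ring
    have d2 : fderiv ℝ (Zz (mu ρ) T σ) τ u = (∫ x, g x * gk σ (T x - τ) ∂(mu ρ)) / σ ^ 2 := by
      rw [dZ.2, ← integral_div]
      refine integral_congr_ae (Filter.Eventually.of_forall fun x => ?_)
      show 1 * (⟪T x - τ, u⟫_ℝ / σ ^ 2 * gk σ (T x - τ)) = _
      rw [hg]
      ring
    have hprod : Nn (mu ρ) T σ f = fun τ => mm (mu ρ) T σ f τ * Zz (mu ρ) T σ τ := by
      funext τ
      unfold mm
      rw [div_mul_cancel₀ _ (hZpos τ).ne']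
    have d3 : fderiv ℝ (Nn (mu ρ) T σ f) τ u =
        mm (mu ρ) T σ f τ * fderiv ℝ (Zz (mu ρ) T σ) τ u +
          Zz (mu ρ) T σ τ * fderiv ℝ (mm (mu ρ) T σ f) τ u := by
      have e := fderiv_fun_mul ((hmc.differentiable (by norm_num)) τ)
        ((dZ.1.differentiable (by norm_num)) τ)
      rw [hprod]
      rw [e]
      rfl
    set D := fderiv ℝ (mm (mu ρ) T σ f) τ u with hD
    set Z := Zz (mu ρ) T σ τ with hZ
    have hZp : 0 < Z := hZpos τ
    have hZi : ∫ x, gk σ (T x - τ) ∂(mu ρ) = Z := rfl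
    set G := Nn (mu ρ) T σ (fun x => ‖fderiv ℝ f x‖ ^ 2) τ with hG
    rw [hZi] at hcov
    set Nf := ∫ x, f x * gk σ (T x - τ) ∂(mu ρ) with hNf
    set Ng := ∫ x, g x * gk σ (T x - τ) ∂(mu ρ) with hNg
    set Nfg := ∫ x, f x * g x * gk σ (T x - τ) ∂(mu ρ) with hNfg
    have hmm : mm (mu ρ) T σ f τ = Nf / Z := rfl
    rw [d1, d2, hmm] at d3
    have hC : Z * Nfg - Nf * Ng = σ ^ 2 * Z ^ 2 * D := by
      have hσ2 : σ ≠ 0 := hσ.ne'
      have hZ' : Z ≠ 0 := hZp.ne'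
      have e1 : Z * Nfg - Nf * Ng = σ ^ 2 * Z * (Nfg / σ ^ 2 - Nf / Z * (Ng / σ ^ 2)) := by
        field_simp
      rw [e1, d3]
      ring
    have hVf : Z * (∫ x, f x ^ 2 * gk σ (T x - τ) ∂(mu ρ)) - Nf ^ 2 ≤ σ ^ 2 * (Z * G) := tf.2.2
    have hVg : Z * (∫ x, g x ^ 2 * gk σ (T x - τ) ∂(mu ρ)) - Ng ^ 2 ≤
        σ ^ 2 * (Z * (‖u‖ ^ 2 * Z)) := by
      refine tg.2.2.trans ?_
      have e : Nn (mu ρ) T σ (fun x => ‖fderiv ℝ g x‖ ^ 2) τ = ‖L‖ ^ 2 * Z := by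
        unfold Nn
        simp only [hgd]
        rw [integral_const_mul]
        rfl
      rw [e]
      have h1 : ‖L‖ ^ 2 ≤ ‖u‖ ^ 2 := pow_le_pow_left₀ (norm_nonneg _) hLn 2
      have h2 : ‖L‖ ^ 2 * Z ≤ ‖u‖ ^ 2 * Z := mul_le_mul_of_nonneg_right h1 hZp.le
      have h3 : Z * (‖L‖ ^ 2 * Z) ≤ Z * (‖u‖ ^ 2 * Z) := mul_le_mul_of_nonneg_left h2 hZp.le
      exact mul_le_mul_of_nonneg_left h3 (sq_nonneg _)
    have hVg0 : 0 ≤ Z * (∫ x, g x ^ 2 * gk σ (T x - τ) ∂(mu ρ)) - Ng ^ 2 := by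
      have h1 : 0 ≤ ∫ x, (g x - Ng / Z) ^ 2 * gk σ (T x - τ) ∂(mu ρ) :=
        integral_nonneg fun x => mul_nonneg (sq_nonneg _) (hgk0 _)
      have e1 : ∀ x, (g x - Ng / Z) ^ 2 * gk σ (T x - τ) = g x ^ 2 * gk σ (T x - τ) +
          (-(2 * (Ng / Z))) * (g x * gk σ (T x - τ)) + ((Ng / Z) ^ 2) * gk σ (T x - τ) := by
        intro x
        ring
      have j1 := tg.1.add (tg.2.1.const_mul (-(2 * (Ng / Z))))
      have e2 : ∫ x, (g x - Ng / Z) ^ 2 * gk σ (T x - τ) ∂(mu ρ) =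
          (∫ x, g x ^ 2 * gk σ (T x - τ) ∂(mu ρ)) + (-(2 * (Ng / Z))) * Ng +
            (Ng / Z) ^ 2 * Z := by
        rw [integral_congr_ae (Filter.Eventually.of_forall e1)]
        refine (integral_add j1 ((iw τ).const_mul ((Ng / Z) ^ 2))).trans ?_
        refine congrArg₂ (· + ·) ?_ (integral_const_mul _ _)
        refine (integral_add tg.1 (tg.2.1.const_mul (-(2 * (Ng / Z))))).trans ?_
        exact congrArg₂ (· + ·) rfl (integral_const_mul _ _)
      rw [e2] at h1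
      have h2 := mul_nonneg hZp.le h1
      have hZ' : Z ≠ 0 := hZp.ne'
      have e3 : Z * ((∫ x, g x ^ 2 * gk σ (T x - τ) ∂(mu ρ)) + (-(2 * (Ng / Z))) * Ng +
            (Ng / Z) ^ 2 * Z) = Z * (∫ x, g x ^ 2 * gk σ (T x - τ) ∂(mu ρ)) - Ng ^ 2 := by
        field_simp
        ring
      rwa [e3] at h2
    rw [hC] at hcov
    have hG0 : 0 ≤ G := hNG0 τ
    have hfin : (σ ^ 2 * Z ^ 2 * D) ^ 2 ≤ (σ ^ 2 * (Z * G)) * (σ ^ 2 * (Z * (‖u‖ ^ 2 * Z))) := by
      refine hcov.trans ?_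
      refine (mul_le_mul_of_nonneg_right hVf hVg0).trans ?_
      exact mul_le_mul_of_nonneg_left hVg (by positivity)
    have hpos : 0 < σ ^ 4 * Z ^ 3 := by positivity
    have h5 : (σ ^ 4 * Z ^ 3) * (D ^ 2 * Z) ≤ (σ ^ 4 * Z ^ 3) * (‖u‖ ^ 2 * G) := by
      have e1 : (σ ^ 4 * Z ^ 3) * (D ^ 2 * Z) = (σ ^ 2 * Z ^ 2 * D) ^ 2 := by ring
      have e2 : (σ ^ 4 * Z ^ 3) * (‖u‖ ^ 2 * G) =
          (σ ^ 2 * (Z * G)) * (σ ^ 2 * (Z * (‖u‖ ^ 2 * Z))) := by ring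
      rw [e1, e2]
      exact hfin
    exact le_of_mul_le_mul_left h5 hpos
  -- the operator norm
  have hop : ∀ τ, ‖fderiv ℝ (mm (mu ρ) T σ f) τ‖ ≤
      Real.sqrt (Nn (mu ρ) T σ (fun x => ‖fderiv ℝ f x‖ ^ 2) τ / Zz (mu ρ) T σ τ) := by
    intro τ
    refine ContinuousLinearMap.opNorm_le_bound _ (Real.sqrt_nonneg _) fun u => ?_
    rw [Real.norm_eq_abs]
    refine abs_le_of_sq_le_sq ?_ (by positivity)
    rw [mul_pow, Real.sq_sqrt (div_nonneg (hNG0 τ) (hZpos τ).le), div_mul_eq_mul_div,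
      le_div_iff₀ (hZpos τ)]
    have := hdir τ u
    linarith
  refine ⟨⟨hmc, B, fun τ => ⟨hmb τ, ?_⟩⟩, fun τ => ?_⟩
  · refine (hop τ).trans ?_
    rw [Real.sqrt_le_left hB0, div_le_iff₀ (hZpos τ)]
    exact hNG τ
  · have h1 := pow_le_pow_left₀ (norm_nonneg _) (hop τ) 2
    rw [Real.sq_sqrt (div_nonneg (hNG0 τ) (hZpos τ).le), le_div_iff₀ (hZpos τ)] at h1
    exact h1

end Pool.Agent.H787R2.UT
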