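import Pool.Agent.H787R2.UT.St2

/-!
# Task LIM: `ε → 0` (helper864)
-/

set_option autoImplicit false

namespace Pool.Agent.H787R2.UT

open MeasureTheory Set Pool.Agent.H212R2.KLS Filter Topology
open scoped ENNReal InnerProductSpace

theorem LIM_gk_eq {k : ℕ} (ε : ℝ) :
    (fun v : V k => Real.exp (-(1 / (2 * ε ^ 2)) * ‖v‖ ^ 2)) = gk ε := by
  funext v
  unfold gk
  congr 1
  ring

theorem LIM_ck_pos (k : ℕ) (ε : ℝ) (hε : 0 < ε) : 0 < ck k ε := by
  have hb : 0 < 1 / (2 * ε ^ 2) := by positivity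
  have h := GaussianFourier.integral_rexp_neg_mul_sq_norm (V := V k) hb
  rw [LIM_gk_eq] at h
  unfold ck
  rw [h]
  positivity

theorem LIM_gk_int (k : ℕ) (ε : ℝ) (hε : 0 < ε) : Integrable (gk (k := k) ε) := by
  apply Integrable.of_integral_ne_zero
  exact (LIM_ck_pos k ε hε).ne'

theorem LIM_gk_cont (k : ℕ) (ε : ℝ) : Continuous (gk (k := k) ε) := by
  unfold gk
  fun_prop

theorem LIM_gk_smul (k : ℕ) (ε : ℝ) (hε : 0 < ε) (z : V k) : gk ε (ε • z) = gk 1 z := by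
  unfold gk
  congr 2
  rw [norm_smul, Real.norm_of_nonneg hε.le]
  field_simp

theorem LIM_ck (k : ℕ) (ε : ℝ) (hε : 0 < ε) : ck k ε = ε ^ k * ck k 1 := by
  have h := Measure.integral_comp_smul (volume : Measure (V k)) (gk ε) ε
  have h1 : (fun z : V k => gk ε (ε • z)) = gk 1 := funext (LIM_gk_smul k ε hε)
  rw [h1, finrank_euclideanSpace_fin, abs_of_pos (by positivity), smul_eq_mul] at h
  unfold ck
  rw [h]
  field_simp

/-- the convolution, as an integral over the product -/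
noncomputable def LIM_P {n k : ℕ} (μ : Measure (V n)) (T : V n →ₗ[ℝ] V k) (q : V k → ℝ)
    (ε : ℝ) : ℝ := ∫ p, q (T p.1 - ε • p.2) * gk 1 p.2 ∂(μ.prod (volume : Measure (V k)))

theorem LIM_Tcont {n k : ℕ} (T : V n →ₗ[ℝ] V k) : Continuous T :=
  T.continuous_of_finiteDimensional

theorem LIM_P_int {n k : ℕ} (μ : Measure (V n)) [IsProbabilityMeasure μ] (T : V n →ₗ[ℝ] V k)
    (q : V k → ℝ) (hq : Continuous q) (B : ℝ) (hB : ∀ x, |q x| ≤ B) (ε : ℝ) :
    Integrable (fun p : V n × V k => q (T p.1 - ε • p.2) * gk 1 p.2)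
      (μ.prod (volume : Measure (V k))) := by
  have h1 : Integrable (fun p : V n × V k => gk 1 p.2) (μ.prod (volume : Measure (V k))) :=
    (LIM_gk_int k 1 one_pos).comp_snd μ
  have hT := LIM_Tcont T
  refine h1.bdd_mul (c := B) ?_ (ae_of_all _ fun p => ?_)
  · exact (Continuous.aestronglyMeasurable (by fun_prop))
  · rw [Real.norm_eq_abs]
    exact hB _

theorem LIM_key {n k : ℕ} (μ : Measure (V n)) [IsProbabilityMeasure μ] (T : V n →ₗ[ℝ] V k)
    (q : V k → ℝ) (hq : Continuous q) (B : ℝ) (hB : ∀ x, |q x| ≤ B) (ε : ℝ) (hε : 0 < ε) :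
    ∫ τ, q τ * Zz μ T ε τ = ε ^ k * LIM_P μ T q ε := by
  have hT := LIM_Tcont T
  have hg := LIM_gk_cont k ε
  -- integrability on the product
  have hslice : ∀ x : V n, Integrable (fun τ : V k => q τ * gk ε (T x - τ)) := by
    intro x
    refine ((LIM_gk_int k ε hε).comp_sub_left (T x)).bdd_mul (c := B) hq.aestronglyMeasurable
      (ae_of_all _ fun τ => ?_)
    rw [Real.norm_eq_abs]
    exact hB _
  have hcontF : Continuous (fun p : V n × V k => q p.2 * gk ε (T p.1 - p.2)) := by fun_prop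
  have hint : Integrable (fun p : V n × V k => q p.2 * gk ε (T p.1 - p.2))
      (μ.prod (volume : Measure (V k))) := by
    rw [integrable_prod_iff hcontF.aestronglyMeasurable]
    refine ⟨ae_of_all _ hslice, ?_⟩
    have hm : AEStronglyMeasurable
        (fun x => ∫ τ, ‖q τ * gk ε (T x - τ)‖) μ :=
      hcontF.aestronglyMeasurable.norm.integral_prod_right'
    refine Integrable.mono' (integrable_const (B * ck k ε)) hm (ae_of_all _ fun x => ?_)
    rw [Real.norm_of_nonneg (integral_nonneg fun τ => norm_nonneg _)]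
    have h1 : ∫ τ : V k, ‖q τ * gk ε (T x - τ)‖ ≤ ∫ τ : V k, B * gk ε (T x - τ) := by
      apply integral_mono (hslice x).norm
        (((LIM_gk_int k ε hε).comp_sub_left (T x)).const_mul B)
      intro τ
      beta_reduce
      rw [norm_mul, Real.norm_eq_abs, Real.norm_of_nonneg (by unfold gk; positivity)]
      exact mul_le_mul_of_nonneg_right (hB τ) (by unfold gk; positivity)
    refine h1.trans (le_of_eq ?_)
    rw [integral_const_mul, integral_sub_left_eq_self (fun z => gk ε z) volume (T x)]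
    rfl
  have e1 : ∫ τ, q τ * Zz μ T ε τ = ∫ τ : V k, ∫ x, q τ * gk ε (T x - τ) ∂μ := by
    unfold Zz
    refine integral_congr_ae (ae_of_all _ fun τ => ?_)
    beta_reduce
    rw [integral_const_mul]
  have e2 : ∫ τ : V k, ∫ x, q τ * gk ε (T x - τ) ∂μ =
      ∫ x, (∫ τ : V k, q τ * gk ε (T x - τ)) ∂μ := by
    exact integral_integral_swap (f := fun (τ : V k) (x : V n) => q τ * gk ε (T x - τ)) hint.swap
  have e3 : ∀ x : V n, ∫ τ : V k, q τ * gk ε (T x - τ) =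
      ε ^ k * ∫ z : V k, q (T x - ε • z) * gk 1 z := by
    intro x
    have h1 := integral_sub_left_eq_self (fun z : V k => q (T x - z) * gk ε z) volume (T x)
    simp only [sub_sub_cancel] at h1
    rw [h1]
    have h2 := Measure.integral_comp_smul (volume : Measure (V k))
      (fun z : V k => q (T x - z) * gk ε z) ε
    simp only [LIM_gk_smul k ε hε] at h2
    rw [finrank_euclideanSpace_fin, abs_of_pos (by positivity), smul_eq_mul] at h2
    rw [h2]
    field_simp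
  rw [e1, e2, integral_congr_ae (ae_of_all _ e3), integral_const_mul]
  congr 1
  unfold LIM_P
  rw [integral_prod _ (LIM_P_int μ T q hq B hB ε)]

theorem LIM_tendsto {n k : ℕ} (μ : Measure (V n)) [IsProbabilityMeasure μ] (T : V n →ₗ[ℝ] V k)
    (q : V k → ℝ) (hq : Continuous q) (B : ℝ) (hB : ∀ x, |q x| ≤ B) :
    Tendsto (fun N : ℕ => LIM_P μ T q (1 / ((N : ℝ) + 1))) atTop
      (𝓝 ((∫ x, q (T x) ∂μ) * ck k 1)) := by
  have hT := LIM_Tcont T
  have e : (∫ x, q (T x) ∂μ) * ck k 1 =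
      ∫ p, q (T p.1) * gk 1 p.2 ∂(μ.prod (volume : Measure (V k))) := by
    unfold ck
    exact (integral_prod_mul (fun x => q (T x)) (gk 1)).symm
  rw [e]
  unfold LIM_P
  refine tendsto_integral_of_dominated_convergence (fun p => B * gk 1 p.2)
    (fun N => (LIM_P_int μ T q hq B hB _).aestronglyMeasurable)
    (((LIM_gk_int k 1 one_pos).comp_snd μ).const_mul B) (fun N => ae_of_all _ fun p => ?_)
    (ae_of_all _ fun p => ?_)
  · rw [norm_mul, Real.norm_eq_abs, Real.norm_of_nonneg (by unfold gk; positivity)]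
    exact mul_le_mul_of_nonneg_right (hB _) (by unfold gk; positivity)
  · apply Tendsto.mul_const
    have h1 : Tendsto (fun N : ℕ => T p.1 - (1 / ((N : ℝ) + 1)) • p.2) atTop (𝓝 (T p.1)) := by
      have h2 : Tendsto (fun N : ℕ => T p.1 - (1 / ((N : ℝ) + 1)) • p.2) atTop
          (𝓝 (T p.1 - (0 : ℝ) • p.2)) :=
        tendsto_const_nhds.sub (tendsto_one_div_add_atTop_nhds_zero_nat.smul_const p.2)
      simpa using h2
    exact (hq.tendsto (T p.1)).comp h1

theorem lim_of (n k : ℕ) (μ : Measure (V n)) [IsProbabilityMeasure μ]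
    (T : V n →ₗ[ℝ] V k) (A B : ℝ)
    (hZ : ∀ ε : ℝ, 0 < ε → ∀ m : V k → ℝ, BC m →
      ck k ε * (∫ τ, m τ ^ 2 * Zz μ T ε τ) - (∫ τ, m τ * Zz μ T ε τ) ^ 2 ≤
        (A + B * ε ^ 2) * (ck k ε * (∫ τ, ‖fderiv ℝ m τ‖ ^ 2 * Zz μ T ε τ)))
    (g : V k → ℝ) (hg : BC g) : ∫ x, g (T x) ^ 2 ∂μ - (∫ x, g (T x) ∂μ) ^ 2 ≤
      A * ∫ x, ‖fderiv ℝ g (T x)‖ ^ 2 ∂μ := by
  obtain ⟨hgc, D, hD⟩ := id hg
  have hgc0 : Continuous g := hgc.continuous
  have hgc1 : Continuous (fderiv ℝ g) := hgc.continuous_fderiv one_ne_zero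
  have q1c : Continuous (fun τ => g τ ^ 2) := by fun_prop
  have q2c : Continuous (fun τ => ‖fderiv ℝ g τ‖ ^ 2) := by fun_prop
  have q1b : ∀ τ, |g τ ^ 2| ≤ D ^ 2 := by
    intro τ
    rw [abs_of_nonneg (sq_nonneg _), ← sq_abs]
    exact pow_le_pow_left₀ (abs_nonneg _) (hD τ).1 2
  have q2b : ∀ τ, |‖fderiv ℝ g τ‖ ^ 2| ≤ D ^ 2 := by
    intro τ
    rw [abs_of_nonneg (sq_nonneg _)]
    exact pow_le_pow_left₀ (norm_nonneg _) (hD τ).2 2
  have q0b : ∀ τ, |g τ| ≤ D := fun τ => (hD τ).1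
  have t0 := LIM_tendsto μ T g hgc0 D q0b
  have t1 := LIM_tendsto μ T _ q1c _ q1b
  have t2 := LIM_tendsto μ T _ q2c _ q2b
  have hc := LIM_ck_pos k 1 one_pos
  set c := ck k 1 with hcdef
  have hineq : ∀ N : ℕ, c * LIM_P μ T (fun τ => g τ ^ 2) (1 / ((N : ℝ) + 1)) -
      LIM_P μ T g (1 / ((N : ℝ) + 1)) ^ 2 ≤
      (A + B * (1 / ((N : ℝ) + 1)) ^ 2) *
        (c * LIM_P μ T (fun τ => ‖fderiv ℝ g τ‖ ^ 2) (1 / ((N : ℝ) + 1))) := by
    intro N
    have hε : 0 < 1 / ((N : ℝ) + 1) := by positivity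
    set ε := 1 / ((N : ℝ) + 1)
    have h1 := hZ ε hε g hg
    rw [LIM_key μ T g hgc0 D q0b ε hε, LIM_key μ T _ q1c _ q1b ε hε,
      LIM_key μ T _ q2c _ q2b ε hε, LIM_ck k ε hε, ← hcdef] at h1
    have hpos : 0 < (ε ^ k) ^ 2 := by positivity
    have h2 : (ε ^ k) ^ 2 * (c * LIM_P μ T (fun τ => g τ ^ 2) ε - LIM_P μ T g ε ^ 2) ≤
        (ε ^ k) ^ 2 * ((A + B * ε ^ 2) * (c * LIM_P μ T (fun τ => ‖fderiv ℝ g τ‖ ^ 2) ε)) := by
      refine le_of_eq_of_le ?_ (h1.trans (le_of_eq ?_))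
      · ring
      · ring
    exact le_of_mul_le_mul_left h2 hpos
  have tε : Tendsto (fun N : ℕ => A + B * (1 / ((N : ℝ) + 1)) ^ 2) atTop (𝓝 A) := by
    have h1 : Tendsto (fun N : ℕ => A + B * (1 / ((N : ℝ) + 1)) ^ 2) atTop
        (𝓝 (A + B * (0:ℝ) ^ 2)) :=
      tendsto_const_nhds.add ((tendsto_one_div_add_atTop_nhds_zero_nat.pow 2).const_mul B)
    simpa using h1
  have hlim := le_of_tendsto_of_tendsto' ((t1.const_mul c).sub (t0.pow 2))
    (tε.mul (t2.const_mul c)) hineq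
  have hcc : 0 < c ^ 2 := by positivity
  have h3 : c ^ 2 * (∫ x, g (T x) ^ 2 ∂μ - (∫ x, g (T x) ∂μ) ^ 2) ≤
      c ^ 2 * (A * ∫ x, ‖fderiv ℝ g (T x)‖ ^ 2 ∂μ) := by
    refine le_of_eq_of_le ?_ (hlim.trans (le_of_eq ?_))
    · ring
    · ring
  exact le_of_mul_le_mul_left h3 hcc

/-- LIM -/
theorem lim : S_LIM := fun n k μ _ T A B _ _ h g hg =>
  lim_of n k μ T A B (fun ε hε => h ε hε) g hg

end Pool.Agent.H787R2.UT
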