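import Pool.Agent.H787R2.UT.St
import Pool.Agent.H212R2.KLS.R4

/-!
# PU: the Poincare inequality for strongly log-concave densities with unbounded support
-/

set_option autoImplicit false

namespace Pool.Agent.H787R2.UT

open MeasureTheory Set Pool.Agent.H212R2.KLS
open scoped ENNReal InnerProductSpace

/-- Gaussians are integrable -/
theorem pu_gauss {n : ℕ} (b : ℝ) (hb : 0 < b) (y : V n) :
    Integrable (fun x : V n => Real.exp (-(b * ‖x - y‖ ^ 2))) := by
  have h1 : Integrable (fun x : V n => Real.exp (-(b * ‖x‖ ^ 2))) := by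
    have h2 := GaussianFourier.integrable_cexp_neg_mul_sq_norm_add (V := V n) (b := (b : ℂ))
      (by simpa using hb) 0 0
    have h3 := h2.norm
    refine h3.congr (Filter.Eventually.of_forall fun x => ?_)
    simp only [Complex.norm_exp]
    congr 1
    simp only [zero_mul, add_zero]
    rw [← Complex.ofReal_pow, ← Complex.ofReal_neg, ← Complex.ofReal_mul, Complex.ofReal_re]
    ring
  exact h1.comp_sub_right y

/-- polynomial times Gaussian -/
theorem pu_poly (a r : ℝ) (ha : 0 < a) :
    (1 + r) ^ 2 * Real.exp (-(a * r ^ 2)) ≤ (2 + 4 / a) * Real.exp (-(a / 2 * r ^ 2)) := by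
  have h1 : a / 2 * r ^ 2 ≤ Real.exp (a / 2 * r ^ 2) := by
    have := Real.add_one_le_exp (a / 2 * r ^ 2)
    linarith
  have h2 : (1 : ℝ) ≤ Real.exp (a / 2 * r ^ 2) := Real.one_le_exp (by positivity)
  have h3 : (1 + r) ^ 2 ≤ (2 + 4 / a) * Real.exp (a / 2 * r ^ 2) := by
    have h4 : (1 + r) ^ 2 ≤ 2 + 2 * r ^ 2 := by nlinarith [sq_nonneg (1 - r)]
    have h5 : 2 * r ^ 2 = 4 / a * (a / 2 * r ^ 2) := by field_simp; ring
    have h6 : 4 / a * (a / 2 * r ^ 2) ≤ 4 / a * Real.exp (a / 2 * r ^ 2) :=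
      mul_le_mul_of_nonneg_left h1 (by positivity)
    rw [add_mul]
    linarith
  have h7 : Real.exp (a / 2 * r ^ 2) * Real.exp (-(a * r ^ 2)) = Real.exp (-(a / 2 * r ^ 2)) := by
    rw [← Real.exp_add]
    congr 1
    ring
  calc (1 + r) ^ 2 * Real.exp (-(a * r ^ 2))
      ≤ ((2 + 4 / a) * Real.exp (a / 2 * r ^ 2)) * Real.exp (-(a * r ^ 2)) :=
        mul_le_mul_of_nonneg_right h3 (Real.exp_pos _).le
    _ = (2 + 4 / a) * Real.exp (-(a / 2 * r ^ 2)) := by rw [mul_assoc, h7]

theorem pu : S_PU := by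
  intro n w hw hwm hwb hwi hW κ hκ hmid f hf
  obtain ⟨B, hB⟩ := hwb
  obtain ⟨hfc, L, hL⟩ := hf
  have hL0 : 0 ≤ L := (norm_nonneg _).trans (hL 0)
  have hcf : Continuous f := hfc.continuous
  have hcd : Continuous (fderiv ℝ f) := hfc.continuous_fderiv (by norm_num)
  -- a point of positive density
  obtain ⟨y0, hy0⟩ : ∃ y0, 0 < w y0 := by
    by_contra h
    push Not at h
    have h0 : w = fun _ => 0 := by
      funext x
      exact le_antisymm (h x) (hw x)
    rw [h0] at hW
    simp at hW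
  have hB0 : 0 < B := hy0.trans_le (hB y0)
  -- Gaussian bound
  obtain ⟨A, hA⟩ : ∃ A, A = B ^ 2 / w y0 := ⟨_, rfl⟩
  have hA0 : 0 < A := by rw [hA]; positivity
  have hbd : ∀ x, w x ≤ A * Real.exp (-(κ / 4 * ‖x - y0‖ ^ 2)) := by
    intro x
    have h1 := hmid x y0
    have h2 : (w ((1 / 2 : ℝ) • (x + y0))) ^ 2 ≤ B ^ 2 := pow_le_pow_left₀ (hw _) (hB _) 2
    have h3 : w x * w y0 ≤ B ^ 2 * Real.exp (-(κ / 4 * ‖x - y0‖ ^ 2)) :=
      h1.trans (mul_le_mul_of_nonneg_right h2 (Real.exp_pos _).le)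
    rw [hA, div_mul_eq_mul_div, le_div_iff₀ hy0]
    exact h3
  -- integrability
  have hint : ∀ (φ : V n → ℝ), Continuous φ → (∃ M : ℝ, ∀ x, |φ x| ≤ M * (1 + ‖x - y0‖) ^ 2) →
      Integrable (fun x => φ x * w x) := by
    intro φ hφ ⟨M, hM⟩
    have hM0 : 0 ≤ M := by
      have h1 := hM y0
      simp at h1
      exact (abs_nonneg _).trans h1
    refine Integrable.mono' (g := fun x => (M * A * (2 + 4 / (κ / 4))) *
      Real.exp (-(κ / 4 / 2 * ‖x - y0‖ ^ 2))) ?_ ?_ ?_
    · exact (pu_gauss (κ / 4 / 2) (by positivity) y0).const_mul _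
    · exact (hφ.measurable.mul hwm).aestronglyMeasurable
    · refine Filter.Eventually.of_forall fun x => ?_
      rw [Real.norm_eq_abs, abs_mul, abs_of_nonneg (hw x)]
      calc |φ x| * w x ≤ (M * (1 + ‖x - y0‖) ^ 2) * (A * Real.exp (-(κ / 4 * ‖x - y0‖ ^ 2))) :=
            mul_le_mul (hM x) (hbd x) (hw x) (by positivity)
        _ = M * A * ((1 + ‖x - y0‖) ^ 2 * Real.exp (-(κ / 4 * ‖x - y0‖ ^ 2))) := by ring
        _ ≤ M * A * ((2 + 4 / (κ / 4)) * Real.exp (-(κ / 4 / 2 * ‖x - y0‖ ^ 2))) :=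
            mul_le_mul_of_nonneg_left (pu_poly (κ / 4) ‖x - y0‖ (by positivity)) (by positivity)
        _ = _ := by ring
  have hfb : ∀ x, |f x| ≤ (|f y0| + L) * (1 + ‖x - y0‖) := by
    intro x
    have h1 : ‖f x - f y0‖ ≤ L * ‖x - y0‖ :=
      Convex.norm_image_sub_le_of_norm_fderiv_le (𝕜 := ℝ) (s := univ)
        (fun z _ => (hfc.differentiable (by norm_num)) z) (fun z _ => hL z) convex_univ
        (mem_univ y0) (mem_univ x)
    have h2 : |f x| ≤ |f x - f y0| + |f y0| := by
      have := abs_add_le (f x - f y0) (f y0)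
      simpa using this
    rw [Real.norm_eq_abs] at h1
    have h3 : 0 ≤ |f y0| * ‖x - y0‖ := by positivity
    nlinarith [norm_nonneg (x - y0)]
  have hI2 : Integrable (fun x => f x ^ 2 * w x) := by
    refine hint (fun x => f x ^ 2) (hcf.pow 2) ⟨(|f y0| + L) ^ 2, fun x => ?_⟩
    rw [abs_pow, ← mul_pow]
    exact pow_le_pow_left₀ (abs_nonneg _) (hfb x) 2
  have hI1 : Integrable (fun x => f x * w x) := by
    refine hint f hcf ⟨|f y0| + L, fun x => (hfb x).trans ?_⟩
    refine mul_le_mul_of_nonneg_left ?_ (by positivity)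
    nlinarith [norm_nonneg (x - y0)]
  have hID : Integrable (fun x => ‖fderiv ℝ f x‖ ^ 2 * w x) := by
    refine hint (fun x => ‖fderiv ℝ f x‖ ^ 2) (hcd.norm.pow 2) ⟨L ^ 2, fun x => ?_⟩
    rw [abs_of_nonneg (by positivity)]
    have h1 : ‖fderiv ℝ f x‖ ^ 2 ≤ L ^ 2 := pow_le_pow_left₀ (norm_nonneg _) (hL x) 2
    have h2 : (1 : ℝ) ≤ (1 + ‖x - y0‖) ^ 2 := by nlinarith [norm_nonneg (x - y0)]
    nlinarith [sq_nonneg L]
  refine ⟨hI2, hI1, ?_⟩
  -- truncations
  have hlim : ∀ φ : V n → ℝ, Integrable (fun x => φ x * w x) →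
      Filter.Tendsto (fun N : ℕ => ∫ x, φ x * (Metric.closedBall (0 : V n) N).indicator w x)
        Filter.atTop (nhds (∫ x, φ x * w x)) := by
    intro φ hφ
    have h1 : ∀ N : ℕ, ∫ x, φ x * (Metric.closedBall (0 : V n) N).indicator w x =
        ∫ x in Metric.closedBall (0 : V n) N, φ x * w x := by
      intro N
      rw [← integral_indicator Metric.isClosed_closedBall.measurableSet]
      refine integral_congr_ae (Filter.Eventually.of_forall fun x => ?_)
      by_cases hx : x ∈ Metric.closedBall (0 : V n) N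
      · simp [hx]
      · simp [hx]
    simp only [h1]
    have h2 := tendsto_setIntegral_of_monotone (μ := (volume : Measure (V n)))
      (s := fun N : ℕ => Metric.closedBall (0 : V n) N) (f := fun x => φ x * w x)
      (fun N => Metric.isClosed_closedBall.measurableSet)
      (fun N M h => Metric.closedBall_subset_closedBall (by exact_mod_cast h)) hφ.integrableOn
    rw [Metric.iUnion_closedBall_nat, setIntegral_univ] at h2
    exact h2
  have hwlim : Filter.Tendsto (fun N : ℕ => ∫ x, (Metric.closedBall (0 : V n) N).indicator w x)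
        Filter.atTop (nhds (∫ x, w x)) := by
    have := hlim (fun _ => 1) (by simpa using hwi)
    simpa using this
  have hineq : ∀ N : ℕ, (∫ x, (Metric.closedBall (0 : V n) N).indicator w x) *
      (∫ x, f x ^ 2 * (Metric.closedBall (0 : V n) N).indicator w x) -
      (∫ x, f x * (Metric.closedBall (0 : V n) N).indicator w x) ^ 2 ≤
      κ⁻¹ * ((∫ x, (Metric.closedBall (0 : V n) N).indicator w x) *
        ∫ x, ‖fderiv ℝ f x‖ ^ 2 * (Metric.closedBall (0 : V n) N).indicator w x) := by
    intro N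
    obtain ⟨v, hv⟩ : ∃ v, v = (Metric.closedBall (0 : V n) N).indicator w := ⟨_, rfl⟩
    rw [← hv]
    have hv0 : ∀ x, 0 ≤ v x := by
      intro x; rw [hv]; exact indicator_nonneg (fun y _ => hw y) x
    have hvw : ∀ x, v x ≤ w x := by
      intro x; rw [hv]; exact indicator_le_self' (fun y _ => hw y) x
    have hvm : Measurable v := by
      rw [hv]; exact hwm.indicator Metric.isClosed_closedBall.measurableSet
    have hvmid : ∀ x y, v x * v y ≤ (v ((1 / 2 : ℝ) • (x + y))) ^ 2 *
        Real.exp (-(κ / 4 * ‖x - y‖ ^ 2)) := by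
      intro x y
      by_cases hx : x ∈ Metric.closedBall (0 : V n) N
      · by_cases hy : y ∈ Metric.closedBall (0 : V n) N
        · have hm : (1 / 2 : ℝ) • (x + y) ∈ Metric.closedBall (0 : V n) N := by
            have := (convex_closedBall (0 : V n) (N : ℝ)) hx hy
              (show (0 : ℝ) ≤ 1 / 2 by norm_num) (show (0 : ℝ) ≤ 1 / 2 by norm_num) (by norm_num)
            rwa [← smul_add] at this
          rw [hv, indicator_of_mem hx, indicator_of_mem hy, indicator_of_mem hm]
          exact hmid x y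
        · have : v y = 0 := by rw [hv]; exact indicator_of_notMem hy w
          rw [this, mul_zero]; positivity
      · have : v x = 0 := by rw [hv]; exact indicator_of_notMem hx w
        rw [this, zero_mul]; positivity
    have hvs : Bdd v := by
      refine ⟨N, fun x hx => ?_⟩
      rw [hv]
      refine indicator_of_notMem ?_ w
      rw [Metric.mem_closedBall, dist_zero_right]
      exact not_le.2 hx
    obtain ⟨c, hc⟩ := poincare_of_strong (volume : Measure (V n)) v hv0 hvm
      ⟨B, fun x => (hvw x).trans (hB x)⟩ hvs κ hκ hvmid f hfc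
    have hvi : ∀ φ : V n → ℝ, Continuous φ → Integrable (fun x => φ x * w x) →
        Integrable (fun x => φ x * v x) := by
      intro φ hφ h
      refine h.mono (hφ.measurable.mul hvm).aestronglyMeasurable ?_
      refine Filter.Eventually.of_forall fun x => ?_
      rw [norm_mul, norm_mul, Real.norm_eq_abs (v x), Real.norm_eq_abs (w x), abs_of_nonneg (hv0 x),
        abs_of_nonneg (hw x)]
      exact mul_le_mul_of_nonneg_left (hvw x) (norm_nonneg _)
    have j2 := hvi (fun x => f x ^ 2) (hcf.pow 2) hI2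
    have j1 := hvi f hcf hI1
    have j0 : Integrable v := by
      have := hvi (fun _ => 1) continuous_const (by simpa using hwi)
      simpa using this
    have hexp : ∫ x, (f x - c) ^ 2 * v x = (∫ x, f x ^ 2 * v x) - 2 * c * (∫ x, f x * v x) +
        c ^ 2 * ∫ x, v x := by
      have e1 : (fun x => (f x - c) ^ 2 * v x) = fun x => (f x ^ 2 * v x - 2 * c * (f x * v x)) +
          c ^ 2 * v x := by
        funext x; ring
      have k1 : Integrable (fun x => 2 * c * (f x * v x)) := j1.const_mul _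
      have k2 : Integrable (fun x => f x ^ 2 * v x - 2 * c * (f x * v x)) := j2.sub k1
      have k3 : Integrable (fun x => c ^ 2 * v x) := j0.const_mul _
      rw [e1, integral_add k2 k3, integral_sub j2 k1, integral_const_mul, integral_const_mul]
    rw [hexp] at hc
    have hV0 : 0 ≤ ∫ x, v x := integral_nonneg hv0
    have h3 := mul_le_mul_of_nonneg_left hc hV0
    nlinarith [sq_nonneg ((∫ x, f x * v x) - c * ∫ x, v x)]
  exact le_of_tendsto_of_tendsto' ((hwlim.mul (hlim _ hI2)).sub ((hlim _ hI1).pow 2))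
    ((hwlim.mul (hlim _ hID)).const_mul κ⁻¹) hineq

end Pool.Agent.H787R2.UT
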