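import Pool.Agent.H787R2.UT.Defs

/-!
# KLS: reduction to the directions in which the measure is not uniformly log-concave
All statements (tasks).
-/

set_option autoImplicit false

namespace Pool.Agent.H787R2.UT

open MeasureTheory Set Pool.Agent.H212R2.KLS
open scoped ENNReal InnerProductSpace

/-- BD: integrable midpoint log-concave densities are bounded -/
def S_BD : Prop := ∀ (n : ℕ) (ρ : V n → ℝ), (∀ x, 0 ≤ ρ x) → Measurable ρ → mu ρ univ = 1 →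
  (∀ x y, ρ x * ρ y ≤ (ρ ((1 / 2 : ℝ) • (x + y))) ^ 2) → ∃ B, ∀ x, ρ x ≤ B

/-- PU: Poincare inequality for strongly log-concave densities, unbounded support -/
def S_PU : Prop := ∀ (n : ℕ) (w : V n → ℝ), (∀ x, 0 ≤ w x) → Measurable w →
  (∃ B, ∀ x, w x ≤ B) → Integrable w → 0 < ∫ x, w x → ∀ κ : ℝ, 0 < κ →
  (∀ x y, w x * w y ≤ (w ((1 / 2 : ℝ) • (x + y))) ^ 2 * Real.exp (-(κ / 4 * ‖x - y‖ ^ 2))) →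
  ∀ f : V n → ℝ, LC f → Integrable (fun x => f x ^ 2 * w x) ∧ Integrable (fun x => f x * w x) ∧
    (∫ x, w x) * (∫ x, f x ^ 2 * w x) - (∫ x, f x * w x) ^ 2 ≤
      κ⁻¹ * ((∫ x, w x) * ∫ x, ‖fderiv ℝ f x‖ ^ 2 * w x)

/-- TP: Poincare inequality for the tilted measures (uses BD, PU) -/
def S_TP : Prop := ∀ (n k : ℕ) (ρ : V n → ℝ) (T : V n →ₗ[ℝ] V k) (σ : ℝ), UA ρ T σ → ∀ τ : V k,
  0 < Zz (mu ρ) T σ τ ∧ ∀ f : V n → ℝ, LC f →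
    Integrable (fun x => f x ^ 2 * gk σ (T x - τ)) (mu ρ) ∧
    Integrable (fun x => f x * gk σ (T x - τ)) (mu ρ) ∧
    Zz (mu ρ) T σ τ * Nn (mu ρ) T σ (fun x => f x ^ 2) τ - (Nn (mu ρ) T σ f τ) ^ 2 ≤
      σ ^ 2 * (Zz (mu ρ) T σ τ * Nn (mu ρ) T σ (fun x => ‖fderiv ℝ f x‖ ^ 2) τ)

/-- DER: differentiation of the tilted integrals -/
def S_DER : Prop := ∀ (n k : ℕ) (μ : Measure (V n)) [IsProbabilityMeasure μ]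
  (T : V n →ₗ[ℝ] V k) (σ : ℝ), 0 < σ → ∀ f : V n → ℝ, Continuous f → (∃ B : ℝ, ∀ x, |f x| ≤ B) →
  ContDiff ℝ 1 (Nn μ T σ f) ∧ ∀ τ u : V k, fderiv ℝ (Nn μ T σ f) τ u =
    ∫ x, f x * (⟪T x - τ, u⟫_ℝ / σ ^ 2 * gk σ (T x - τ)) ∂μ

/-- GR: the gradient of the tilted mean (uses TP, DER) -/
def S_GR : Prop := ∀ (n k : ℕ) (ρ : V n → ℝ) (T : V n →ₗ[ℝ] V k) (σ : ℝ), UA ρ T σ →
  ∀ f : V n → ℝ, BC f → BC (mm (mu ρ) T σ f) ∧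
    ∀ τ, ‖fderiv ℝ (mm (mu ρ) T σ f) τ‖ ^ 2 * Zz (mu ρ) T σ τ ≤
      Nn (mu ρ) T σ (fun x => ‖fderiv ℝ f x‖ ^ 2) τ

/-- FUB: Fubini for the tilted integrals -/
def S_FUB : Prop := ∀ (n k : ℕ) (μ : Measure (V n)) [IsProbabilityMeasure μ]
  (T : V n →ₗ[ℝ] V k) (σ : ℝ), 0 < σ → 0 < ck k σ ∧ Integrable (gk σ : V k → ℝ) ∧
  Integrable (Zz μ T σ) ∧ ∫ τ, Zz μ T σ τ = ck k σ ∧
  ∀ h : V n → ℝ, Continuous h → (∃ B : ℝ, ∀ x, |h x| ≤ B) →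
    Integrable (Nn μ T σ h) ∧ ∫ τ, Nn μ T σ h τ = ck k σ * ∫ x, h x ∂μ

/-- ASM: assembly (uses TP, GR, FUB) -/
def S_ASM : Prop := ∀ (n k : ℕ) (ρ : V n → ℝ) (T : V n →ₗ[ℝ] V k) (σ A : ℝ), UA ρ T σ → 0 ≤ A →
  ZP (mu ρ) T σ A → PI (mu ρ) (A + σ ^ 2)

/-- GP: Gaussian convolution of bounded functions (uses PU) -/
def S_GP : Prop := ∀ (k : ℕ) (σ : ℝ), 0 < σ → ∀ m : V k → ℝ, BC m →
  BC (fun y : V k => (∫ τ, m τ * gk σ (y - τ)) / ck k σ) ∧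
  ∀ y : V k, ‖fderiv ℝ (fun y : V k => (∫ τ, m τ * gk σ (y - τ)) / ck k σ) y‖ ^ 2 ≤
      (∫ τ, ‖fderiv ℝ m τ‖ ^ 2 * gk σ (y - τ)) / ck k σ ∧
    ck k σ * (∫ τ, m τ ^ 2 * gk σ (y - τ)) - (∫ τ, m τ * gk σ (y - τ)) ^ 2 ≤
      σ ^ 2 * (ck k σ * ∫ τ, ‖fderiv ℝ m τ‖ ^ 2 * gk σ (y - τ))

/-- CONV: Poincare inequality for the convolution of the marginal with a Gaussian (uses GP,
FUB) -/
def S_CONV : Prop := ∀ (n k : ℕ) (μ : Measure (V n)) [IsProbabilityMeasure μ]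
  (T : V n →ₗ[ℝ] V k) (σ A : ℝ), 0 < σ → 0 ≤ A →
  (∀ g : V k → ℝ, BC g → ∫ x, g (T x) ^ 2 ∂μ - (∫ x, g (T x) ∂μ) ^ 2 ≤
    A * ∫ x, ‖fderiv ℝ g (T x)‖ ^ 2 ∂μ) → ZP μ T σ (A + σ ^ 2)

/-- EXT: from bounded functions to all `C^1` functions in `L^2` -/
def S_EXT : Prop := ∀ (n : ℕ) (μ : Measure (V n)) [IsProbabilityMeasure μ] (A : ℝ), 0 < A →
  PI μ A → ∀ f : V n → ℝ, ContDiff ℝ 1 f → MemLp f 2 μ →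
  ENNReal.ofReal (∫ x, (f x - ∫ y, f y ∂μ) ^ 2 ∂μ) ≤
    ENNReal.ofReal A * ∫⁻ x, ENNReal.ofReal (‖fderiv ℝ f x‖ ^ 2) ∂μ

/-- ZL1: the function `Zz` is log-concave -/
def S_ZL1 : Prop := ∀ (n k : ℕ) (ρ : V n → ℝ) (T : V n →ₗ[ℝ] V k) (σ : ℝ), UA ρ T σ →
  Continuous (Zz (mu ρ) T σ) ∧ (∀ τ, 0 < Zz (mu ρ) T σ τ) ∧
  ∀ τ τ' : V k, ∀ t : ℝ, 0 < t → t < 1 → Zz (mu ρ) T σ τ ^ (1 - t) * Zz (mu ρ) T σ τ' ^ t ≤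
    Zz (mu ρ) T σ ((1 - t) • τ + t • τ')

/-- ZL2: second moments of `Zz` (uses PU for the Gaussian) -/
def S_ZL2 : Prop := ∀ (n k : ℕ) (μ : Measure (V n)) [IsProbabilityMeasure μ]
  (T : V n →ₗ[ℝ] V k) (σ s : ℝ), 0 < σ → 0 ≤ s → Mom μ T s →
  ∀ θ : V k, ∫⁻ τ, ENNReal.ofReal (⟪θ, τ⟫_ℝ ^ 2 * Zz μ T σ τ) ≤
    ENNReal.ofReal (ck k σ * ((s + σ ^ 2) * ‖θ‖ ^ 2))

/-- BALL: local Poincare inequality on a ball -/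
def S_BALL : Prop := ∀ (n : ℕ) (w : V n → ℝ), (∀ x, 0 ≤ w x) → Measurable w →
  (∃ B, ∀ x, w x ≤ B) → ∀ R : ℝ, 0 < R → (∀ x, R < ‖x‖ → w x = 0) →
  (∀ x y, w x * w y ≤ (w ((1 / 2 : ℝ) • (x + y))) ^ 2) → ∀ f : V n → ℝ, ContDiff ℝ 1 f →
  ∃ c : ℝ, ∫ x, (f x - c) ^ 2 * w x ≤ 2 * R ^ 2 * ∫ x, ‖fderiv ℝ f x‖ ^ 2 * w x

/-- TLN: tail of the norm (uses `KC.TT`) -/
def S_TLN : Prop := ∀ (k : ℕ), 1 ≤ k → ∀ ρ : V k → ℝ, LD ρ → ∀ s : ℝ, 0 < s →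
  Mom (mu ρ) LinearMap.id s → ∀ r : ℝ, 4 * Real.sqrt (k * s) ≤ r →
  mu ρ (Metric.closedBall 0 r)ᶜ ≤ ENNReal.ofReal (k * Real.exp (-(r / (4 * Real.sqrt (k * s)))))

/-- FINB: KLS in a fixed dimension, bounded support (uses BD, BALL, TLN, `KLS.small_l1`,
`KLS.small_l2`, `KC.GLUE`) -/
def S_FINB : Prop := ∀ k : ℕ, ∃ C : ℝ, 0 < C ∧ ∀ ρ : V k → ℝ, LD ρ → Bdd ρ → ∀ s : ℝ, 0 < s →
  Mom (mu ρ) LinearMap.id s → ∀ f : V k → ℝ, ContDiff ℝ 1 f →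
  ∫ x, f x ^ 2 ∂(mu ρ) - (∫ x, f x ∂(mu ρ)) ^ 2 ≤ C * s * ∫ x, ‖fderiv ℝ f x‖ ^ 2 ∂(mu ρ)

/-- FIN: KLS in a fixed dimension (uses FINB) -/
def S_FIN : Prop := ∀ k : ℕ, ∃ C : ℝ, 0 < C ∧ ∀ ρ : V k → ℝ, LD ρ → ∀ s : ℝ, 0 < s →
  Mom (mu ρ) LinearMap.id s → PI (mu ρ) (C * s)

/-- ZF: Poincare inequality for `Zz` with a constant depending on the dimension only (uses ZL1,
ZL2, FUB, FIN) -/
def S_ZF : Prop := ∀ k : ℕ, ∃ C : ℝ, 0 < C ∧ ∀ (n : ℕ) (ρ : V n → ℝ) (T : V n →ₗ[ℝ] V k)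
  (σ s : ℝ), UA ρ T σ → 0 ≤ s → Mom (mu ρ) T s → ZP (mu ρ) T σ (C * (s + σ ^ 2))

/-- the two main theorems -/
def S_MAIN1 : Prop := ∀ (n k : ℕ) (ρ : V n → ℝ) (T : V n →ₗ[ℝ] V k) (σ A : ℝ), UA ρ T σ →
  0 ≤ A → (∀ g : V k → ℝ, BC g → ∫ x, g (T x) ^ 2 ∂(mu ρ) - (∫ x, g (T x) ∂(mu ρ)) ^ 2 ≤
    A * ∫ x, ‖fderiv ℝ g (T x)‖ ^ 2 ∂(mu ρ)) →
  ∀ f : V n → ℝ, ContDiff ℝ 1 f → MemLp f 2 (mu ρ) →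
  ENNReal.ofReal (∫ x, (f x - ∫ y, f y ∂(mu ρ)) ^ 2 ∂(mu ρ)) ≤
    ENNReal.ofReal (A + 2 * σ ^ 2) * ∫⁻ x, ENNReal.ofReal (‖fderiv ℝ f x‖ ^ 2) ∂(mu ρ)

/-- second main theorem -/
def S_MAIN2 : Prop := ∀ k : ℕ, ∃ C : ℝ, 0 < C ∧ ∀ (n : ℕ) (ρ : V n → ℝ) (T : V n →ₗ[ℝ] V k)
  (σ s : ℝ), UA ρ T σ → 0 ≤ s → Mom (mu ρ) T s →
  ∀ f : V n → ℝ, ContDiff ℝ 1 f → MemLp f 2 (mu ρ) →
  ENNReal.ofReal (∫ x, (f x - ∫ y, f y ∂(mu ρ)) ^ 2 ∂(mu ρ)) ≤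
    ENNReal.ofReal (C * (s + σ ^ 2)) * ∫⁻ x, ENNReal.ofReal (‖fderiv ℝ f x‖ ^ 2) ∂(mu ρ)

theorem main1 (hASM : S_ASM) (hCONV : S_CONV) (hEXT : S_EXT) : S_MAIN1 := by
  intro n k ρ T σ A h hA hg f hf hf2
  haveI : IsProbabilityMeasure (mu ρ) := ⟨h.one⟩
  have h1 := hCONV n k (mu ρ) T σ A h.σpos hA hg
  have h2 := hASM n k ρ T σ (A + σ ^ 2) h (by positivity) h1
  have h3 := hEXT n (mu ρ) (A + σ ^ 2 + σ ^ 2) (by have := h.σpos; positivity) h2 f hf hf2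
  have e : A + σ ^ 2 + σ ^ 2 = A + 2 * σ ^ 2 := by ring
  rw [e] at h3
  exact h3

theorem main2 (hASM : S_ASM) (hZF : S_ZF) (hEXT : S_EXT) : S_MAIN2 := by
  intro k
  obtain ⟨C, hC, H⟩ := hZF k
  refine ⟨C + 1, by linarith, ?_⟩
  intro n ρ T σ s h hs hM f hf hf2
  haveI : IsProbabilityMeasure (mu ρ) := ⟨h.one⟩
  have hσ := h.σpos
  have h1 := H n ρ T σ s h hs hM
  have h2 := hASM n k ρ T σ (C * (s + σ ^ 2)) h (by positivity) h1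
  have h3 := hEXT n (mu ρ) (C * (s + σ ^ 2) + σ ^ 2) (by positivity) h2 f hf hf2
  refine h3.trans ?_
  gcongr
  nlinarith

end Pool.Agent.H787R2.UT
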