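import Pool.Agent.H787R2.UT.St

/-!
# KLS: reduction to the directions in which the measure is not uniformly log-concave
Statements, part 2: constant `C ∫ |T x|^2 dμ + 2 σ^2` with `C` universal.
-/

set_option autoImplicit false

namespace Pool.Agent.H787R2.UT

open MeasureTheory Set Pool.Agent.H212R2.KLS
open scoped ENNReal InnerProductSpace

/-- second moment of the norm at most `M` -/
def NMom {n k : ℕ} (μ : Measure (V n)) (T : V n →ₗ[ℝ] V k) (M : ℝ) : Prop :=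
  ∫⁻ x, ENNReal.ofReal (‖T x‖ ^ 2) ∂μ ≤ ENNReal.ofReal M

/-- TLN2: tail of the norm (as `KC.TT`, with the ball instead of the slab) -/
def S_TLN2 : Prop := ∀ (k : ℕ) (ρ : V k → ℝ), LD ρ → ∀ M : ℝ, 0 < M →
  NMom (mu ρ) LinearMap.id M → ∀ u : ℝ, 1 ≤ u →
  mu ρ {x | 4 * u * Real.sqrt M < ‖x‖} ≤ ENNReal.ofReal (Real.exp (-u))

/-- FINB2: the bound `C ∫ |x|^2`, bounded support -/
def S_FINB2 : Prop := ∃ C : ℝ, 0 < C ∧ ∀ (k : ℕ) (ρ : V k → ℝ), LD ρ → Bdd ρ → ∀ M : ℝ, 0 < M →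
  NMom (mu ρ) LinearMap.id M → ∀ f : V k → ℝ, ContDiff ℝ 1 f →
  ∫ x, f x ^ 2 ∂(mu ρ) - (∫ x, f x ∂(mu ρ)) ^ 2 ≤ C * M * ∫ x, ‖fderiv ℝ f x‖ ^ 2 ∂(mu ρ)

/-- FIN2: the bound `C ∫ |x|^2` (uses FINB2) -/
def S_FIN2 : Prop := ∃ C : ℝ, 0 < C ∧ ∀ (k : ℕ) (ρ : V k → ℝ), LD ρ → ∀ M : ℝ, 0 < M →
  NMom (mu ρ) LinearMap.id M → PI (mu ρ) (C * M)

/-- ZL12: the function `Zz` is log-concave -/
def S_ZL12 : Prop := ∀ (n k : ℕ) (ρ : V n → ℝ) (T : V n →ₗ[ℝ] V k) (ε : ℝ), LD ρ → 0 < ε →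
  Continuous (Zz (mu ρ) T ε) ∧ (∀ τ, 0 < Zz (mu ρ) T ε τ) ∧
  ∀ τ τ' : V k, ∀ t : ℝ, 0 < t → t < 1 → Zz (mu ρ) T ε τ ^ (1 - t) * Zz (mu ρ) T ε τ' ^ t ≤
    Zz (mu ρ) T ε ((1 - t) • τ + t • τ')

/-- ZL22: second moments of `Zz` (uses PU for the Gaussian) -/
def S_ZL22 : Prop := ∀ (n k : ℕ) (μ : Measure (V n)) [IsProbabilityMeasure μ]
  (T : V n →ₗ[ℝ] V k) (ε M : ℝ), 0 < ε → 0 ≤ M → NMom μ T M →
  ∫⁻ τ, ENNReal.ofReal (‖τ‖ ^ 2 * Zz μ T ε τ) ≤ ENNReal.ofReal (ck k ε * (M + k * ε ^ 2))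

/-- ZF2: Poincare inequality for `Zz` (uses ZL12, ZL22, FUB, FIN2) -/
def S_ZF2 : Prop := ∃ C : ℝ, 0 < C ∧ ∀ (n k : ℕ) (ρ : V n → ℝ) (T : V n →ₗ[ℝ] V k)
  (ε M : ℝ), LD ρ → 0 < ε → 0 ≤ M → NMom (mu ρ) T M →
  ZP (mu ρ) T ε (C * (M + (k + 1) * ε ^ 2))

/-- LIM: `ε → 0` -/
def S_LIM : Prop := ∀ (n k : ℕ) (μ : Measure (V n)) [IsProbabilityMeasure μ]
  (T : V n →ₗ[ℝ] V k) (A B : ℝ), 0 ≤ A → 0 ≤ B →
  (∀ ε : ℝ, 0 < ε → ZP μ T ε (A + B * ε ^ 2)) →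
  ∀ g : V k → ℝ, BC g → ∫ x, g (T x) ^ 2 ∂μ - (∫ x, g (T x) ∂μ) ^ 2 ≤
    A * ∫ x, ‖fderiv ℝ g (T x)‖ ^ 2 ∂μ

/-- the second main theorem -/
def S_MAIN3 : Prop := ∃ C : ℝ, 0 < C ∧ ∀ (n k : ℕ) (ρ : V n → ℝ) (T : V n →ₗ[ℝ] V k)
  (σ M : ℝ), UA ρ T σ → 0 ≤ M → NMom (mu ρ) T M →
  ∀ f : V n → ℝ, ContDiff ℝ 1 f → MemLp f 2 (mu ρ) →
  ENNReal.ofReal (∫ x, (f x - ∫ y, f y ∂(mu ρ)) ^ 2 ∂(mu ρ)) ≤
    ENNReal.ofReal (C * M + 2 * σ ^ 2) * ∫⁻ x, ENNReal.ofReal (‖fderiv ℝ f x‖ ^ 2) ∂(mu ρ)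

theorem UA.ld {n k : ℕ} {ρ : V n → ℝ} {T : V n →ₗ[ℝ] V k} {σ : ℝ} (h : UA ρ T σ) : LD ρ where
  nonneg := h.nonneg
  meas := h.meas
  one := h.one
  logc := by
    intro x y t ht0 ht1
    refine (h.slc x y t ht0 ht1).trans ?_
    have h1 : Real.exp (-(t * (1 - t) / (2 * σ ^ 2) * (‖x - y‖ ^ 2 - ‖T (x - y)‖ ^ 2))) ≤ 1 := by
      rw [Real.exp_le_one_iff, neg_nonpos]
      have h2 := h.contr (x - y)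
      have h3 : 0 ≤ ‖x - y‖ ^ 2 - ‖T (x - y)‖ ^ 2 := by
        nlinarith [norm_nonneg (T (x - y)), norm_nonneg (x - y)]
      have h4 : 0 ≤ t * (1 - t) := mul_nonneg ht0.le (by linarith)
      positivity
    have h5 := h.nonneg ((1 - t) • x + t • y)
    nlinarith

theorem main3 (h1 : S_MAIN1) (hZF : S_ZF2) (hLIM : S_LIM) : S_MAIN3 := by
  obtain ⟨C, hC, H⟩ := hZF
  refine ⟨C, hC, ?_⟩
  intro n k ρ T σ M h hM hN f hf hf2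
  have : IsProbabilityMeasure (mu ρ) := ⟨h.one⟩
  refine h1 n k ρ T σ (C * M) h (by positivity) ?_ f hf hf2
  refine hLIM n k (mu ρ) T (C * M) (C * (k + 1)) (by positivity) (by positivity) ?_
  intro ε hε
  have h2 := H n k ρ T ε M h.ld hε hM hN
  have e : C * (M + (k + 1) * ε ^ 2) = C * M + C * (k + 1) * ε ^ 2 := by ring
  rwa [e] at h2

end Pool.Agent.H787R2.UT
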