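import Pool.Agent.H787R2.UT.St
import Pool.Agent.H787R2.KC.TT

/-!
TLN: tail of the norm (helper99)
-/

set_option autoImplicit false

namespace Pool.Agent.H787R2.UT

open MeasureTheory Set Pool.Agent.H212R2.KLS
open scoped ENNReal InnerProductSpace

theorem tln_of (hTT : Pool.Agent.H787R2.KC.S_TT) : S_TLN := by
  intro k hk ρ hρ s hs hM r hr
  have hk0 : (0 : ℝ) < k := by
    have : (1 : ℝ) ≤ k := by exact_mod_cast hk
    linarith
  have hks : 0 < Real.sqrt (k * s) := Real.sqrt_pos.2 (mul_pos hk0 hs)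
  obtain ⟨u, hu⟩ : ∃ u : ℝ, u = r / (4 * Real.sqrt (k * s)) := ⟨_, rfl⟩
  have hu1 : 1 ≤ u := by
    rw [hu, le_div_iff₀ (by positivity), one_mul]
    exact hr
  have hr' : r = 4 * u * Real.sqrt (k * s) := by
    rw [hu]
    field_simp
  rw [← hu]
  have hcoord : ∀ i : Fin k,
      mu ρ {x : V k | 4 * u * Real.sqrt s < |⟪(EuclideanSpace.single i (1 : ℝ) : V k), x⟫_ℝ|} ≤
        ENNReal.ofReal (Real.exp (-u)) := by
    intro i
    refine hTT (V k) volume ρ hρ.nonneg hρ.meas hρ.logc (mu ρ) rfl hρ.one _ s hs ?_ u hu1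
    have h1 := hM (EuclideanSpace.single i (1 : ℝ))
    rw [EuclideanSpace.norm_single, norm_one, one_pow, mul_one] at h1
    exact h1
  have hsub : (Metric.closedBall (0 : V k) r)ᶜ ⊆
      ⋃ i : Fin k, {x : V k | 4 * u * Real.sqrt s <
        |⟪(EuclideanSpace.single i (1 : ℝ) : V k), x⟫_ℝ|} := by
    intro x hx
    by_contra h
    apply hx
    rw [mem_closedBall_zero_iff]
    have h1 : ∀ i : Fin k, |x i| ≤ 4 * u * Real.sqrt s := by
      intro i
      by_contra h2
      apply h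
      rw [mem_iUnion]
      refine ⟨i, ?_⟩
      show 4 * u * Real.sqrt s < |⟪(EuclideanSpace.single i (1 : ℝ) : V k), x⟫_ℝ|
      rw [EuclideanSpace.inner_single_left, map_one, one_mul]
      exact not_le.1 h2
    have h2 : ‖x‖ ^ 2 ≤ r ^ 2 := by
      rw [EuclideanSpace.real_norm_sq_eq]
      calc ∑ i, x i ^ 2 ≤ ∑ _i : Fin k, (4 * u * Real.sqrt s) ^ 2 := by
            refine Finset.sum_le_sum fun i _ => ?_
            rw [← sq_abs]
            exact pow_le_pow_left₀ (abs_nonneg _) (h1 i) 2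
        _ = k * (4 * u * Real.sqrt s) ^ 2 := by
            rw [Finset.sum_const, Finset.card_univ, Fintype.card_fin, nsmul_eq_mul]
        _ = r ^ 2 := by
            rw [hr', mul_pow, mul_pow, mul_pow _ (Real.sqrt (k * s)), Real.sq_sqrt hs.le,
              Real.sq_sqrt (by positivity)]
            ring
    have hr0 : 0 ≤ r := by
      rw [hr']
      positivity
    exact le_of_sq_le_sq h2 hr0
  calc mu ρ (Metric.closedBall (0 : V k) r)ᶜ
      ≤ mu ρ (⋃ i : Fin k, {x : V k | 4 * u * Real.sqrt s <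
        |⟪(EuclideanSpace.single i (1 : ℝ) : V k), x⟫_ℝ|}) := measure_mono hsub
    _ ≤ ∑ i : Fin k, mu ρ {x : V k | 4 * u * Real.sqrt s <
        |⟪(EuclideanSpace.single i (1 : ℝ) : V k), x⟫_ℝ|} := measure_iUnion_fintype_le _ _
    _ ≤ ∑ _i : Fin k, ENNReal.ofReal (Real.exp (-u)) := Finset.sum_le_sum fun i _ => hcoord i
    _ = ENNReal.ofReal (k * Real.exp (-u)) := by
      rw [Finset.sum_const, Finset.card_univ, Fintype.card_fin, nsmul_eq_mul,
        ENNReal.ofReal_mul hk0.le, ENNReal.ofReal_natCast]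

theorem tln : S_TLN := tln_of Pool.Agent.H787R2.KC.TT

end Pool.Agent.H787R2.UT
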