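import Pool.Agent.H787R2.UT.St2
import Pool.Agent.H212R2.KLS.T1

set_option autoImplicit false

/-!
# TLN2: Borell's lemma for the norm
-/

namespace Pool.Agent.H787R2.UT

open MeasureTheory Set Matrix Pool.Agent.H212R2.KLS
open scoped ENNReal InnerProductSpace

namespace TTx

/-- the real number inequality -/
theorem real_ineq (a k u : ℝ) (ha : 0 < a) (hk : 15 / 16 ≤ k) (hu : 1 < u)
    (h : a ^ (1 - (u - 1) / (u + 1)) * k ^ ((u - 1) / (u + 1)) ≤ 1 / 16) :
    a ≤ Real.exp (-u) := by
  have hu1 : 0 < u + 1 := by linarith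
  set l : ℝ := (u - 1) / (u + 1) with hl
  have hl0 : 0 ≤ l := by rw [hl]; exact div_nonneg (by linarith) hu1.le
  have h1l : 1 - l = 2 / (u + 1) := by rw [hl]; field_simp; ring
  have hk' : (15 / 16 : ℝ) ^ l ≤ k ^ l := Real.rpow_le_rpow (by norm_num) hk hl0
  have h2 : a ^ (1 - l) * (15 / 16 : ℝ) ^ l ≤ 1 / 16 :=
    le_trans (mul_le_mul_of_nonneg_left hk' (Real.rpow_nonneg ha.le _)) h
  have hp1 : 0 < a ^ (1 - l) := Real.rpow_pos_of_pos ha _
  have hp2 : 0 < (15 / 16 : ℝ) ^ l := Real.rpow_pos_of_pos (by norm_num) _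
  have h3 := Real.log_le_log (mul_pos hp1 hp2) h2
  rw [Real.log_mul hp1.ne' hp2.ne', Real.log_rpow ha, Real.log_rpow (by norm_num)] at h3
  have h16 : Real.log (1 / 16 : ℝ) = -(4 * Real.log 2) := by
    rw [one_div, Real.log_inv, show (16 : ℝ) = 2 ^ 4 by norm_num, Real.log_pow]
    push_cast
    ring
  have h15 : -(1 / 15 : ℝ) ≤ Real.log (15 / 16 : ℝ) := by
    have h := Real.one_sub_inv_le_log_of_pos (show (0 : ℝ) < 15 / 16 by norm_num)
    norm_num at h ⊢
    linarith
  have hlog2 := Real.log_two_gt_d9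
  rw [h16, h1l] at h3
  -- (2/(u+1)) log a + l * log(15/16) ≤ - 4 log 2
  have h4 : l * (-(1 / 15 : ℝ)) ≤ l * Real.log (15 / 16 : ℝ) := mul_le_mul_of_nonneg_left h15 hl0
  have h5 : 2 / (u + 1) * Real.log a ≤ -(4 * Real.log 2) + l / 15 := by linarith
  have h6 : 2 * Real.log a ≤ (-(4 * Real.log 2) + l / 15) * (u + 1) := by
    have := mul_le_mul_of_nonneg_right h5 hu1.le
    have e : 2 / (u + 1) * Real.log a * (u + 1) = 2 * Real.log a := by field_simp
    rw [e] at this
    exact this
  have h7 : l * (u + 1) = u - 1 := by rw [hl]; field_simp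
  have h8 : (-(4 * Real.log 2) + l / 15) * (u + 1) = -(4 * Real.log 2) * (u + 1) + (u - 1) / 15 := by
    rw [add_mul, div_mul_eq_mul_div, h7]
  rw [h8] at h6
  rw [← Real.log_le_iff_le_exp ha]
  nlinarith

end TTx

theorem tln2 : S_TLN2 := by
  intro k ρ hρ s hs hmom u hu
  have hρ0 := hρ.nonneg
  have hρm := hρ.meas
  have hlc := hρ.logc
  set μ := mu ρ with hμd
  have hμ : μ = (volume : Measure (V k)).withDensity fun x => ENNReal.ofReal (ρ x) := rfl
  have hμ1 : μ univ = 1 := hρ.one
  unfold NMom at hmom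
  simp only [LinearMap.id_apply] at hmom
  have hms : ∀ c : ℝ, MeasurableSet {x : V k | c < ‖x‖} := by
    intro c
    exact (isOpen_lt continuous_const (by fun_prop)).measurableSet
  have hρm' : Measurable fun x => ENNReal.ofReal (ρ x) := ENNReal.measurable_ofReal.comp hρm
  set q : ℝ := Real.sqrt s with hq
  have hq0 : 0 < q := Real.sqrt_pos.2 hs
  have hqq : q ^ 2 = s := Real.sq_sqrt hs.le
  -- Chebyshev
  have hch : μ {x : V k | 4 * q < ‖x‖} ≤ ENNReal.ofReal (1 / 16) := by
    have h1 := mul_meas_ge_le_lintegral (μ := μ)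
      (f := fun x => ENNReal.ofReal (‖x‖ ^ 2))
      (by fun_prop) (ENNReal.ofReal (16 * s))
    have h2 : {x : V k | 4 * q < ‖x‖} ⊆
        {x : V k | ENNReal.ofReal (16 * s) ≤ ENNReal.ofReal (‖x‖ ^ 2)} := by
      intro x hx
      apply ENNReal.ofReal_le_ofReal
      have hx' : 4 * q < ‖x‖ := hx
      have : (4 * q) ^ 2 ≤ ‖x‖ ^ 2 := pow_le_pow_left₀ (by positivity) hx'.le 2
      nlinarith
    have h3 : ENNReal.ofReal (16 * s) * μ {x : V k | 4 * q < ‖x‖} ≤ ENNReal.ofReal s :=
      (mul_le_mul_right (measure_mono h2) _).trans (h1.trans hmom)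
    have h4 : ENNReal.ofReal (16 * s) * μ {x : V k | 4 * q < ‖x‖} ≤
        ENNReal.ofReal (16 * s) * ENNReal.ofReal (1 / 16) := by
      rw [← ENNReal.ofReal_mul (by positivity)]
      refine h3.trans (ENNReal.ofReal_le_ofReal ?_)
      linarith
    have h5 : ENNReal.ofReal (16 * s) ≠ 0 := by
      rw [Ne, ENNReal.ofReal_eq_zero, not_le]; positivity
    exact (ENNReal.mul_le_mul_iff_right h5 ENNReal.ofReal_ne_top).1 h4
  rcases eq_or_lt_of_le hu with hu1 | hu1
  · rw [← hu1]
    have e : (4 * 1 * q : ℝ) = 4 * q := by ring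
    rw [e]
    refine hch.trans (ENNReal.ofReal_le_ofReal ?_)
    rw [Real.exp_neg, one_div]
    apply inv_anti₀ (Real.exp_pos _)
    have := Real.exp_one_lt_d9
    linarith
  · set A : Set (V k) := {x | 4 * u * q < ‖x‖} with hA
    set K : Set (V k) := {x | 4 * q < ‖x‖}ᶜ with hK
    have hAm : MeasurableSet A := hms _
    have hKm : MeasurableSet K := (hms _).compl
    have hu0 : 0 < u + 1 := by linarith
    set l : ℝ := (u - 1) / (u + 1) with hl
    have hl0 : 0 < l := div_pos (by linarith) hu0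
    have hl1 : l < 1 := by rw [hl, div_lt_one hu0]; linarith
    have hint : ∀ S : Set (V k), MeasurableSet S → μ S =
        ∫⁻ x, S.indicator (fun x => ENNReal.ofReal (ρ x)) x  := by
      intro S hS
      rw [hμ, withDensity_apply _ hS, lintegral_indicator hS]
    have hPL : μ A ^ (1 - l) * μ K ^ l ≤ μ Kᶜ := by
      rw [hint A hAm, hint K hKm, hint Kᶜ hKm.compl]
      apply PL volume l hl0 hl1 _ _ _ (hρm'.indicator hAm) (hρm'.indicator hKm)
        (hρm'.indicator hKm.compl)
      intro a b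
      by_cases ha : a ∈ A
      · by_cases hb : b ∈ K
        · have hab : (1 - l) • a + l • b ∈ Kᶜ := by
            rw [hK, compl_compl]
            show 4 * q < ‖(1 - l) • a + l • b‖
            have ha' : 4 * u * q < ‖a‖ := ha
            have hb' : ‖b‖ ≤ 4 * q := by
              have : ¬ (4 * q < ‖b‖) := hb
              exact not_lt.1 this
            have h1 : ‖(1 - l) • a‖ - ‖l • b‖ ≤ ‖(1 - l) • a + l • b‖ := by
              have := norm_sub_norm_le ((1 - l) • a) (-(l • b))
              rw [norm_neg, sub_neg_eq_add] at this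
              exact this
            rw [norm_smul, norm_smul, Real.norm_of_nonneg hl0.le,
              Real.norm_of_nonneg (by linarith : 0 ≤ 1 - l)] at h1
            have h2 : (1 - l) * (4 * u * q) < (1 - l) * ‖a‖ :=
              mul_lt_mul_of_pos_left ha' (by linarith)
            have h3 : l * ‖b‖ ≤ l * (4 * q) := mul_le_mul_of_nonneg_left hb' hl0.le
            have h4 : (1 - l) * (4 * u * q) - l * (4 * q) = 4 * q := by
              rw [hl]; field_simp; ring
            linarith
          rw [indicator_of_mem ha, indicator_of_mem hb, indicator_of_mem hab,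
            ENNReal.ofReal_rpow_of_nonneg (hρ0 a) (by linarith),
            ENNReal.ofReal_rpow_of_nonneg (hρ0 b) hl0.le,
            ← ENNReal.ofReal_mul (Real.rpow_nonneg (hρ0 a) _)]
          exact ENNReal.ofReal_le_ofReal (hlc a b l hl0 hl1)
        · rw [indicator_of_notMem hb, ENNReal.zero_rpow_of_pos hl0, mul_zero]
          exact zero_le
      · rw [indicator_of_notMem ha, ENNReal.zero_rpow_of_pos (by linarith), zero_mul]
        exact zero_le
    have hfin : IsFiniteMeasure μ := ⟨by rw [hμ1]; exact ENNReal.one_lt_top⟩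
    have hKc : μ Kᶜ ≤ ENNReal.ofReal (1 / 16) := by rw [hK, compl_compl]; exact hch
    have hAf : μ A ≠ ⊤ := measure_ne_top _ _
    have hKf : μ K ≠ ⊤ := measure_ne_top _ _
    have hKcR : (μ Kᶜ).toReal ≤ 1 / 16 := by
      have := ENNReal.toReal_mono ENNReal.ofReal_ne_top hKc
      rwa [ENNReal.toReal_ofReal (by norm_num)] at this
    have hK15 : 15 / 16 ≤ (μ K).toReal := by
      have h1 : μ K + μ Kᶜ = 1 := by rw [measure_add_measure_compl hKm, hμ1]
      have h2 := congrArg ENNReal.toReal h1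
      rw [ENNReal.toReal_add hKf (measure_ne_top _ _), ENNReal.toReal_one] at h2
      linarith
    have hR : (μ A).toReal ^ (1 - l) * (μ K).toReal ^ l ≤ 1 / 16 := by
      have h1 := ENNReal.toReal_mono (measure_ne_top _ _) hPL
      rw [ENNReal.toReal_mul, ← ENNReal.toReal_rpow, ← ENNReal.toReal_rpow] at h1
      exact h1.trans hKcR
    rcases eq_or_lt_of_le (ENNReal.toReal_nonneg (a := μ A)) with h0 | h0
    · have : μ A = 0 := by
        rcases (ENNReal.toReal_eq_zero_iff _).1 h0.symm with h | h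
        · exact h
        · exact absurd h hAf
      rw [this]
      exact zero_le
    · rw [← ENNReal.ofReal_toReal hAf]
      apply ENNReal.ofReal_le_ofReal
      exact TTx.real_ineq _ _ u h0 hK15 hu1 hR

end Pool.Agent.H787R2.UT
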