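import Pool.Agent.H787R2.UT.St

/-!
# Task TP: Poincare inequality for the tilted measures
-/

set_option autoImplicit false

namespace Pool.Agent.H787R2.UT

open MeasureTheory Set Pool.Agent.H212R2.KLS
open scoped ENNReal InnerProductSpace

namespace TPx

theorem int_conv {n : ℕ} {ρ : V n → ℝ} (h0 : ∀ x, 0 ≤ ρ x) (hm : Measurable ρ) (h : V n → ℝ) :
    ∫ x, h x ∂(mu ρ) = ∫ x, h x * ρ x := by
  have h1 : mu ρ = volume.withDensity fun x => ((ρ x).toNNReal : ℝ≥0∞) := rfl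
  rw [h1, integral_withDensity_eq_integral_smul hm.real_toNNReal]
  apply integral_congr_ae
  filter_upwards with x
  rw [NNReal.smul_def, Real.coe_toNNReal _ (h0 x), smul_eq_mul, mul_comm]

theorem integrable_conv {n : ℕ} {ρ : V n → ℝ} (h0 : ∀ x, 0 ≤ ρ x) (hm : Measurable ρ)
    (h : V n → ℝ) : Integrable h (mu ρ) ↔ Integrable (fun x => h x * ρ x) := by
  have h1 : mu ρ = volume.withDensity fun x => ((ρ x).toNNReal : ℝ≥0∞) := rfl
  rw [h1, integrable_withDensity_iff_integrable_smul hm.real_toNNReal]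
  have e : (fun x => (ρ x).toNNReal • h x) = fun x => h x * ρ x := by
    funext x
    rw [NNReal.smul_def, Real.coe_toNNReal _ (h0 x), smul_eq_mul, mul_comm]
  rw [e]

theorem gk_pos {k : ℕ} (σ : ℝ) (z : V k) : 0 < gk σ z := Real.exp_pos _

theorem gk_le_one {k : ℕ} (σ : ℝ) (z : V k) : gk σ z ≤ 1 := by
  apply Real.exp_le_one_iff.2
  have : 0 ≤ ‖z‖ ^ 2 / (2 * σ ^ 2) := by positivity
  linarith

theorem gk_mid {k : ℕ} (σ : ℝ) (hσ : 0 < σ) (a b : V k) :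
    gk σ a * gk σ b = gk σ ((1 / 2 : ℝ) • (a + b)) ^ 2 *
      Real.exp (-(1 / (4 * σ ^ 2) * ‖a - b‖ ^ 2)) := by
  unfold gk
  have hp : ‖(1 / 2 : ℝ) • (a + b)‖ ^ 2 = ‖a + b‖ ^ 2 / 4 := by
    rw [norm_smul, mul_pow]
    norm_num
    ring
  have hpar := parallelogram_law_with_norm ℝ a b
  rw [hp, ← Real.exp_add, ← Real.exp_nat_mul, ← Real.exp_add]
  congr 1
  push_cast
  have h1 : ‖a + b‖ ^ 2 = 2 * (‖a‖ ^ 2 + ‖b‖ ^ 2) - ‖a - b‖ ^ 2 := by nlinarith
  rw [h1]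
  field_simp
  ring

theorem slc_half {n k : ℕ} {ρ : V n → ℝ} {T : V n →ₗ[ℝ] V k} {σ : ℝ} (h : UA ρ T σ)
    (x y : V n) : ρ x * ρ y ≤ ρ ((1 / 2 : ℝ) • (x + y)) ^ 2 *
      Real.exp (-(1 / (4 * σ ^ 2) * (‖x - y‖ ^ 2 - ‖T (x - y)‖ ^ 2))) := by
  have h1 := h.slc x y (1 / 2) (by norm_num) (by norm_num)
  have e1 : ((1 : ℝ) - 1 / 2) = 1 / 2 := by norm_num
  rw [e1, ← smul_add] at h1
  have hs := h.σpos
  have h2 : (ρ x ^ (1 / 2 : ℝ) * ρ y ^ (1 / 2 : ℝ)) ^ 2 ≤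
      (ρ ((1 / 2 : ℝ) • (x + y)) *
        Real.exp (-(1 / 2 * (1 / 2) / (2 * σ ^ 2) * (‖x - y‖ ^ 2 - ‖T (x - y)‖ ^ 2)))) ^ 2 := by
    apply pow_le_pow_left₀ _ h1
    exact mul_nonneg (Real.rpow_nonneg (h.nonneg x) _) (Real.rpow_nonneg (h.nonneg y) _)
  have e2 : ∀ z : ℝ, 0 ≤ z → (z ^ (1 / 2 : ℝ)) ^ 2 = z := by
    intro z hz
    rw [← Real.rpow_natCast, ← Real.rpow_mul hz]
    norm_num
  rw [mul_pow, mul_pow, e2 _ (h.nonneg x), e2 _ (h.nonneg y), ← Real.exp_nat_mul] at h2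
  refine h2.trans (le_of_eq ?_)
  congr 2
  push_cast
  field_simp
  ring

end TPx

open TPx

theorem tp (hBD : S_BD) (hPU : S_PU) : S_TP := by
  intro n k ρ T σ h τ
  have hσ := h.σpos
  set w : V n → ℝ := fun x => gk σ (T x - τ) * ρ x with hw
  have hTc : Continuous fun x : V n => T x := T.continuous_of_finiteDimensional
  have hgc : Continuous fun x : V n => gk σ (T x - τ) := by
    unfold gk
    fun_prop
  have hw0 : ∀ x, 0 ≤ w x := fun x => mul_nonneg (gk_pos σ _).le (h.nonneg x)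
  have hwm : Measurable w := hgc.measurable.mul h.meas
  have hD0 : ∀ x y : V n, 0 ≤ ‖x - y‖ ^ 2 - ‖T (x - y)‖ ^ 2 := by
    intro x y
    have := h.contr (x - y)
    nlinarith [norm_nonneg (T (x - y)), norm_nonneg (x - y)]
  obtain ⟨B, hB⟩ := hBD n ρ h.nonneg h.meas h.one (by
    intro x y
    refine (slc_half h x y).trans ?_
    apply mul_le_of_le_one_right (sq_nonneg _)
    apply Real.exp_le_one_iff.2
    have h1 := hD0 x y
    have : 0 ≤ 1 / (4 * σ ^ 2) * (‖x - y‖ ^ 2 - ‖T (x - y)‖ ^ 2) :=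
      mul_nonneg (by positivity) h1
    linarith)
  have hwB : ∃ B, ∀ x, w x ≤ B := ⟨B, fun x => by
    calc w x ≤ 1 * ρ x := mul_le_mul_of_nonneg_right (gk_le_one σ _) (h.nonneg x)
      _ ≤ B := by rw [one_mul]; exact hB x⟩
  have hlin : ∫⁻ x, ENNReal.ofReal (ρ x) = 1 := by
    have h1 := h.one
    unfold mu at h1
    rwa [withDensity_apply _ MeasurableSet.univ, Measure.restrict_univ] at h1
  have hρint : Integrable ρ := by
    refine ⟨h.meas.aestronglyMeasurable, ?_⟩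
    rw [hasFiniteIntegral_iff_ofReal (Filter.Eventually.of_forall h.nonneg), hlin]
    exact ENNReal.one_lt_top
  have hwint : Integrable w := by
    refine hρint.mono' hwm.aestronglyMeasurable (Filter.Eventually.of_forall fun x => ?_)
    rw [Real.norm_of_nonneg (hw0 x)]
    calc w x ≤ 1 * ρ x := mul_le_mul_of_nonneg_right (gk_le_one σ _) (h.nonneg x)
      _ = ρ x := one_mul _
  have hρpos : 0 < ∫ x, ρ x := by
    rw [integral_eq_lintegral_of_nonneg_ae (Filter.Eventually.of_forall h.nonneg)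
      h.meas.aestronglyMeasurable, hlin]
    simp
  have hwpos : 0 < ∫ x, w x := by
    rw [integral_pos_iff_support_of_nonneg h.nonneg hρint] at hρpos
    rw [integral_pos_iff_support_of_nonneg hw0 hwint]
    have h2 : Function.support w = Function.support ρ := by
      ext x
      simp only [Function.mem_support, hw, ne_eq, mul_eq_zero, (gk_pos σ (T x - τ)).ne', false_or]
    rw [h2]
    exact hρpos
  have hmid : ∀ x y, w x * w y ≤ (w ((1 / 2 : ℝ) • (x + y))) ^ 2 *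
      Real.exp (-((σ ^ 2)⁻¹ / 4 * ‖x - y‖ ^ 2)) := by
    intro x y
    have e1 : T ((1 / 2 : ℝ) • (x + y)) - τ = (1 / 2 : ℝ) • ((T x - τ) + (T y - τ)) := by
      rw [map_smul, map_add]
      module
    have e2 : (T x - τ) - (T y - τ) = T (x - y) := by
      rw [map_sub]; abel
    have e3 := gk_mid σ hσ (T x - τ) (T y - τ)
    rw [← e1, e2] at e3
    show gk σ (T x - τ) * ρ x * (gk σ (T y - τ) * ρ y) ≤
      (gk σ (T ((1 / 2 : ℝ) • (x + y)) - τ) * ρ ((1 / 2 : ℝ) • (x + y))) ^ 2 * _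
    have e4 : Real.exp (-(1 / (4 * σ ^ 2) * (‖x - y‖ ^ 2 - ‖T (x - y)‖ ^ 2))) *
        Real.exp (-(1 / (4 * σ ^ 2) * ‖T (x - y)‖ ^ 2)) =
        Real.exp (-((σ ^ 2)⁻¹ / 4 * ‖x - y‖ ^ 2)) := by
      rw [← Real.exp_add]
      congr 1
      field_simp
      ring
    calc gk σ (T x - τ) * ρ x * (gk σ (T y - τ) * ρ y) =
        (gk σ (T x - τ) * gk σ (T y - τ)) * (ρ x * ρ y) := by ring
      _ ≤ (gk σ (T x - τ) * gk σ (T y - τ)) * (ρ ((1 / 2 : ℝ) • (x + y)) ^ 2 *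
          Real.exp (-(1 / (4 * σ ^ 2) * (‖x - y‖ ^ 2 - ‖T (x - y)‖ ^ 2)))) :=
          mul_le_mul_of_nonneg_left (slc_half h x y)
            (mul_nonneg (gk_pos _ _).le (gk_pos _ _).le)
      _ = (gk σ (T ((1 / 2 : ℝ) • (x + y)) - τ) * ρ ((1 / 2 : ℝ) • (x + y))) ^ 2 *
          (Real.exp (-(1 / (4 * σ ^ 2) * (‖x - y‖ ^ 2 - ‖T (x - y)‖ ^ 2))) *
            Real.exp (-(1 / (4 * σ ^ 2) * ‖T (x - y)‖ ^ 2))) := by rw [e3]; ring
      _ = _ := by rw [e4]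
  have hZ : Zz (mu ρ) T σ τ = ∫ x, w x := int_conv h.nonneg h.meas _
  refine ⟨by rw [hZ]; exact hwpos, fun f hf => ?_⟩
  obtain ⟨g1, g2, g3⟩ := hPU n w hw0 hwm hwB hwint hwpos (σ ^ 2)⁻¹ (by positivity) hmid f hf
  rw [inv_inv] at g3
  have e5 : ∀ q : V n → ℝ, (fun x => q x * gk σ (T x - τ) * ρ x) = fun x => q x * w x := by
    intro q; funext x; simp only [hw]; ring
  have hN : ∀ q : V n → ℝ, Nn (mu ρ) T σ q τ = ∫ x, q x * w x := by
    intro q
    unfold Nn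
    rw [int_conv h.nonneg h.meas, e5 q]
  refine ⟨?_, ?_, ?_⟩
  · rw [integrable_conv h.nonneg h.meas, e5 fun x => f x ^ 2]
    exact g1
  · rw [integrable_conv h.nonneg h.meas, e5 f]
    exact g2
  · rw [hZ, hN, hN, hN]
    exact g3

end Pool.Agent.H787R2.UT
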