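import Pool.Agent.H787R2.UT.St2

set_option autoImplicit false

namespace Pool.Agent.H787R2.UT

open MeasureTheory Set Pool.Agent.H212R2.KLS
open scoped ENNReal InnerProductSpace

theorem zf2_integral {k : ℕ} (Z : V k → ℝ) (c : ℝ) (hc : 0 < c) (hZ : ∀ x, 0 < Z x)
    (hm : Measurable Z) (g : V k → ℝ) :
    ∫ x, g x ∂(mu (fun τ => Z τ / c)) = c⁻¹ * ∫ x, g x * Z x := by
  unfold mu
  rw [integral_withDensity_eq_integral_toReal_smul₀
    (by exact (ENNReal.measurable_ofReal.comp (hm.div_const c)).aemeasurable)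
    (Filter.Eventually.of_forall fun _ => ENNReal.ofReal_lt_top), ← integral_const_mul]
  refine integral_congr_ae (Filter.Eventually.of_forall fun x => ?_)
  simp only
  rw [ENNReal.toReal_ofReal (div_nonneg (hZ x).le hc.le), smul_eq_mul]
  ring

theorem zf2 (hZL12 : S_ZL12) (hZL22 : S_ZL22) (hFUB : S_FUB) (hFIN2 : S_FIN2) : S_ZF2 := by
  obtain ⟨C, hC, H⟩ := hFIN2
  refine ⟨C, hC, ?_⟩
  intro n k ρ T ε M h hε hM hN
  have prob : IsProbabilityMeasure (mu ρ) := ⟨h.one⟩
  obtain ⟨hc, -, hZi, hZint, -⟩ := hFUB n k (mu ρ) T ε hε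
  obtain ⟨hZc, hZp, hZlog⟩ := hZL12 n k ρ T ε h hε
  have hZ2 := hZL22 n k (mu ρ) T ε M hε hM hN
  unfold ZP
  generalize ck k ε = c at *
  generalize Zz (mu ρ) T ε = Z at *
  have hLD : LD (fun τ : V k => Z τ / c) := by
    refine ⟨fun x => div_nonneg (hZp x).le hc.le, hZc.measurable.div_const c, ?_, ?_⟩
    · unfold mu
      rw [withDensity_apply _ MeasurableSet.univ, Measure.restrict_univ,
        ← ofReal_integral_eq_lintegral_ofReal (hZi.div_const c)
          (Filter.Eventually.of_forall fun x => div_nonneg (hZp x).le hc.le),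
        integral_div, hZint, div_self hc.ne', ENNReal.ofReal_one]
    · intro x y t ht0 ht1
      rw [Real.div_rpow (hZp x).le hc.le, Real.div_rpow (hZp y).le hc.le, div_mul_div_comm,
        ← Real.rpow_add hc, sub_add_cancel, Real.rpow_one]
      exact div_le_div_of_nonneg_right (hZlog x y t ht0 ht1) hc.le
  have hMom : NMom (mu (fun τ : V k => Z τ / c)) LinearMap.id (M + (k + 1) * ε ^ 2) := by
    unfold NMom mu
    have hm1 : Measurable (fun x : V k => ENNReal.ofReal (Z x / c)) :=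
      ENNReal.measurable_ofReal.comp (hZc.measurable.div_const c)
    have hm2 : Measurable (fun x : V k => ENNReal.ofReal (‖LinearMap.id (R := ℝ) x‖ ^ 2)) := by
      refine ENNReal.measurable_ofReal.comp ?_
      refine Continuous.measurable ?_
      simp only [LinearMap.id_coe, id_eq]
      fun_prop
    rw [lintegral_withDensity_eq_lintegral_mul _ hm1 hm2]
    have hm3 : Measurable (fun x : V k => ENNReal.ofReal (‖x‖ ^ 2 * Z x)) := by
      refine ENNReal.measurable_ofReal.comp ?_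
      refine Continuous.measurable ?_
      fun_prop
    have e1 : ∀ x : V k, ((fun x : V k => ENNReal.ofReal (Z x / c)) *
        (fun x : V k => ENNReal.ofReal (‖LinearMap.id (R := ℝ) x‖ ^ 2))) x =
        ENNReal.ofReal c⁻¹ * ENNReal.ofReal (‖x‖ ^ 2 * Z x) := by
      intro x
      simp only [Pi.mul_apply, LinearMap.id_coe, id_eq]
      rw [← ENNReal.ofReal_mul (div_nonneg (hZp x).le hc.le),
        ← ENNReal.ofReal_mul (inv_nonneg.mpr hc.le)]
      congr 1
      ring
    rw [lintegral_congr e1, lintegral_const_mul _ hm3]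
    refine (mul_le_mul_right hZ2 _).trans ?_
    rw [← ENNReal.ofReal_mul (inv_nonneg.mpr hc.le)]
    refine ENNReal.ofReal_le_ofReal ?_
    rw [← mul_assoc, inv_mul_cancel₀ hc.ne', one_mul]
    nlinarith [sq_nonneg ε]
  have hpos : 0 < M + (k + 1) * ε ^ 2 := by positivity
  have hPI := H k _ hLD (M + (k + 1) * ε ^ 2) hpos hMom
  intro m hm
  have h1 := hPI m hm
  rw [zf2_integral Z c hc hZp hZc.measurable, zf2_integral Z c hc hZp hZc.measurable,
    zf2_integral Z c hc hZp hZc.measurable] at h1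
  generalize (∫ x, m x ^ 2 * Z x) = I1 at *
  generalize (∫ x, m x * Z x) = I2 at *
  generalize (∫ x, ‖fderiv ℝ m x‖ ^ 2 * Z x) = I3 at *
  have h2 := mul_le_mul_of_nonneg_left h1 (by positivity : (0 : ℝ) ≤ c ^ 2)
  have e1 : c ^ 2 * (c⁻¹ * I1 - (c⁻¹ * I2) ^ 2) = c * I1 - I2 ^ 2 := by
    field_simp
  have e2 : c ^ 2 * (C * (M + (k + 1) * ε ^ 2) * (c⁻¹ * I3)) =
      C * (M + (k + 1) * ε ^ 2) * (c * I3) := by
    field_simp
  rw [e1, e2] at h2
  exact h2

end Pool.Agent.H787R2.UT
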