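import Pool.Agent.H787R2.UT.St
import Pool.Agent.H212R2.KLS.T1

/-!
# UT, task ZL1: the function `Zz` is continuous, positive and log-concave (helper372)
-/

set_option autoImplicit false

namespace Pool.Agent.H787R2.UT

open MeasureTheory Set Pool.Agent.H212R2.KLS
open scoped ENNReal InnerProductSpace

namespace ZL1x

variable {n k : ℕ} {ρ : V n → ℝ} {T : V n →ₗ[ℝ] V k} {σ : ℝ}

theorem T_cont (T : V n →ₗ[ℝ] V k) : Continuous T := LinearMap.continuous_of_finiteDimensional T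

theorem gk_pos (z : V k) : 0 < gk σ z := Real.exp_pos _

theorem gk_le (z : V k) : gk σ z ≤ 1 := by
  unfold gk
  exact Real.exp_le_one_iff.2 (by have : 0 ≤ ‖z‖ ^ 2 / (2 * σ ^ 2) := by positivity
                                  linarith)

theorem gk_cont : Continuous (fun z : V k => gk σ z) := by
  unfold gk
  fun_prop

theorem g_cont (τ : V k) : Continuous (fun x : V n => gk σ (T x - τ)) :=
  gk_cont.comp ((T_cont T).sub continuous_const)

theorem prob (h : UA ρ T σ) : IsProbabilityMeasure (mu ρ) := ⟨h.one⟩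

theorem g_int (h : UA ρ T σ) (τ : V k) : Integrable (fun x : V n => gk σ (T x - τ)) (mu ρ) := by
  haveI := prob h
  refine Integrable.mono' (integrable_const (1 : ℝ)) (g_cont τ).aestronglyMeasurable
    (Filter.Eventually.of_forall fun x => ?_)
  rw [Real.norm_eq_abs, abs_of_pos (gk_pos _)]
  exact gk_le _

theorem Z_cont (h : UA ρ T σ) : Continuous (Zz (mu ρ) T σ) := by
  haveI := prob h
  unfold Zz
  refine continuous_of_dominated (bound := fun _ => 1) (fun τ => (g_cont τ).aestronglyMeasurable)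
    (fun τ => Filter.Eventually.of_forall fun x => ?_) (integrable_const (1 : ℝ))
    (Filter.Eventually.of_forall fun x => ?_)
  · rw [Real.norm_eq_abs, abs_of_pos (gk_pos _)]
    exact gk_le _
  · exact gk_cont.comp (continuous_const.sub continuous_id)

theorem Z_pos (h : UA ρ T σ) (τ : V k) : 0 < Zz (mu ρ) T σ τ := by
  haveI := prob h
  unfold Zz
  rw [integral_pos_iff_support_of_nonneg (fun x => (gk_pos _).le) (g_int h τ)]
  have e1 : Function.support (fun x : V n => gk σ (T x - τ)) = univ := by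
    ext x
    simp only [Function.mem_support, mem_univ, iff_true]
    exact (gk_pos _).ne'
  rw [e1, h.one]
  exact zero_lt_one

theorem Z_eq (h : UA ρ T σ) (τ : V k) : ENNReal.ofReal (Zz (mu ρ) T σ τ) =
    ∫⁻ x, ENNReal.ofReal (ρ x * gk σ (T x - τ)) := by
  unfold Zz
  rw [ofReal_integral_eq_lintegral_ofReal (g_int h τ)
    (Filter.Eventually.of_forall fun x => (gk_pos _).le)]
  unfold mu
  rw [lintegral_withDensity_eq_lintegral_mul _ h.meas.ennreal_ofReal
    (g_cont τ).measurable.ennreal_ofReal]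
  refine lintegral_congr fun x => ?_
  rw [Pi.mul_apply, ENNReal.ofReal_mul (h.nonneg x)]

theorem tw_meas (h : UA ρ T σ) (τ : V k) : Measurable (fun x : V n => ρ x * gk σ (T x - τ)) :=
  h.meas.mul (g_cont τ).measurable

theorem tw_nonneg (h : UA ρ T σ) (τ : V k) (x : V n) : 0 ≤ ρ x * gk σ (T x - τ) :=
  mul_nonneg (h.nonneg x) (gk_pos _).le

theorem norm_conv (a b : V k) (t : ℝ) (ht0 : 0 < t) (ht1 : t < 1) :
    ‖(1 - t) • a + t • b‖ ^ 2 ≤ (1 - t) * ‖a‖ ^ 2 + t * ‖b‖ ^ 2 := by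
  have h1 : ‖(1 - t) • a + t • b‖ ≤ (1 - t) * ‖a‖ + t * ‖b‖ := by
    refine (norm_add_le _ _).trans ?_
    rw [norm_smul, norm_smul, Real.norm_of_nonneg (by linarith : 0 ≤ 1 - t),
      Real.norm_of_nonneg ht0.le]
  have h2 : ‖(1 - t) • a + t • b‖ ^ 2 ≤ ((1 - t) * ‖a‖ + t * ‖b‖) ^ 2 :=
    pow_le_pow_left₀ (norm_nonneg _) h1 2
  have h3 : 0 ≤ t * (1 - t) * (‖a‖ - ‖b‖) ^ 2 :=
    mul_nonneg (mul_nonneg ht0.le (by linarith)) (sq_nonneg _)
  nlinarith

theorem tw_logc (h : UA ρ T σ) (τ τ' : V k) (t : ℝ) (ht0 : 0 < t) (ht1 : t < 1) (x y : V n) :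
    (ρ x * gk σ (T x - τ)) ^ (1 - t) * (ρ y * gk σ (T y - τ')) ^ t ≤
      ρ ((1 - t) • x + t • y) * gk σ (T ((1 - t) • x + t • y) - ((1 - t) • τ + t • τ')) := by
  rw [Real.mul_rpow (h.nonneg x) (gk_pos _).le, Real.mul_rpow (h.nonneg y) (gk_pos _).le]
  have hσ := h.σpos
  have h1 : ρ x ^ (1 - t) * ρ y ^ t ≤ ρ ((1 - t) • x + t • y) := by
    refine (h.slc x y t ht0 ht1).trans (mul_le_of_le_one_right (h.nonneg _) ?_)
    refine Real.exp_le_one_iff.2 ?_
    have h2 : ‖T (x - y)‖ ^ 2 ≤ ‖x - y‖ ^ 2 := pow_le_pow_left₀ (norm_nonneg _) (h.contr _) 2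
    have h3 : 0 ≤ t * (1 - t) / (2 * σ ^ 2) * (‖x - y‖ ^ 2 - ‖T (x - y)‖ ^ 2) := by
      have : 0 ≤ t * (1 - t) := mul_nonneg ht0.le (by linarith)
      have h4 : 0 ≤ ‖x - y‖ ^ 2 - ‖T (x - y)‖ ^ 2 := by linarith
      positivity
    linarith
  have h2 : gk σ (T x - τ) ^ (1 - t) * gk σ (T y - τ') ^ t ≤
      gk σ (T ((1 - t) • x + t • y) - ((1 - t) • τ + t • τ')) := by
    unfold gk
    rw [← Real.exp_mul, ← Real.exp_mul, ← Real.exp_add, Real.exp_le_exp]
    have e1 : T ((1 - t) • x + t • y) - ((1 - t) • τ + t • τ') =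
        (1 - t) • (T x - τ) + t • (T y - τ') := by
      rw [map_add, map_smul, map_smul]; module
    rw [e1]
    have h3 := norm_conv (T x - τ) (T y - τ') t ht0 ht1
    have h5 := div_le_div_of_nonneg_right h3 (by positivity : 0 ≤ 2 * σ ^ 2)
    rw [add_div, mul_div_assoc, mul_div_assoc] at h5
    linarith
  calc _ = (ρ x ^ (1 - t) * ρ y ^ t) * (gk σ (T x - τ) ^ (1 - t) * gk σ (T y - τ') ^ t) := by ring
    _ ≤ _ := mul_le_mul h1 h2 (mul_nonneg (Real.rpow_nonneg (gk_pos _).le _)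
        (Real.rpow_nonneg (gk_pos _).le _)) (h.nonneg _)

theorem Z_logc (h : UA ρ T σ) (τ τ' : V k) (t : ℝ) (ht0 : 0 < t) (ht1 : t < 1) :
    Zz (mu ρ) T σ τ ^ (1 - t) * Zz (mu ρ) T σ τ' ^ t ≤ Zz (mu ρ) T σ ((1 - t) • τ + t • τ') := by
  have key := PL (volume : Measure (V n)) t ht0 ht1
    (fun x => ENNReal.ofReal (ρ x * gk σ (T x - τ)))
    (fun x => ENNReal.ofReal (ρ x * gk σ (T x - τ')))
    (fun x => ENNReal.ofReal (ρ x * gk σ (T x - ((1 - t) • τ + t • τ'))))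
    (tw_meas h _).ennreal_ofReal (tw_meas h _).ennreal_ofReal
    (tw_meas h _).ennreal_ofReal (by
      intro z z'
      rw [ENNReal.ofReal_rpow_of_nonneg (tw_nonneg h _ _) (by linarith),
        ENNReal.ofReal_rpow_of_nonneg (tw_nonneg h _ _) ht0.le,
        ← ENNReal.ofReal_mul (Real.rpow_nonneg (tw_nonneg h _ _) _)]
      exact ENNReal.ofReal_le_ofReal (tw_logc h τ τ' t ht0 ht1 z z'))
  rw [← Z_eq h, ← Z_eq h, ← Z_eq h, ENNReal.ofReal_rpow_of_nonneg (Z_pos h _).le (by linarith),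
    ENNReal.ofReal_rpow_of_nonneg (Z_pos h _).le ht0.le,
    ← ENNReal.ofReal_mul (Real.rpow_nonneg (Z_pos h _).le _)] at key
  exact (ENNReal.ofReal_le_ofReal_iff (Z_pos h _).le).1 key

end ZL1x

/-- ZL1 -/
theorem zl1 : S_ZL1 := by
  intro n k ρ T σ h
  exact ⟨ZL1x.Z_cont h, ZL1x.Z_pos h, fun τ τ' t ht0 ht1 => ZL1x.Z_logc h τ τ' t ht0 ht1⟩

end Pool.Agent.H787R2.UT
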