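import Pool.Agent.H787R2.UT.St

/-!
ZL2: second moments of `Zz` (helper99)
-/

set_option autoImplicit false

namespace Pool.Agent.H787R2.UT

open MeasureTheory Set Pool.Agent.H212R2.KLS
open scoped ENNReal InnerProductSpace

theorem zl2_cont {k : ℕ} (σ : ℝ) : Continuous (gk σ : V k → ℝ) := by
  unfold gk
  fun_prop

theorem zl2_pos {k : ℕ} (σ : ℝ) (z : V k) : 0 < gk σ z := Real.exp_pos _

theorem zl2_le {k : ℕ} (σ : ℝ) (z : V k) : gk σ z ≤ 1 := by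
  unfold gk
  rw [Real.exp_le_one_iff, neg_nonpos]
  positivity

theorem zl2_neg {k : ℕ} (σ : ℝ) (z : V k) : gk σ (-z) = gk σ z := by
  unfold gk
  rw [norm_neg]

theorem zl2_int {k : ℕ} (σ : ℝ) (hσ : 0 < σ) : Integrable (gk σ : V k → ℝ) := by
  have hb : 0 < (((2 * σ ^ 2)⁻¹ : ℝ) : ℂ).re := by
    rw [Complex.ofReal_re]
    positivity
  have h := (GaussianFourier.integrable_cexp_neg_mul_sq_norm_add (V := V k) hb 0 0).norm
  refine h.congr (Filter.Eventually.of_forall fun z => ?_)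
  show ‖Complex.exp _‖ = gk σ z
  rw [Complex.norm_exp]
  unfold gk
  congr 1
  simp only [zero_mul, add_zero]
  rw [← Complex.ofReal_neg, ← Complex.ofReal_pow, ← Complex.ofReal_mul, Complex.ofReal_re]
  rw [div_eq_inv_mul, neg_mul]

theorem zl2_mid {k : ℕ} (σ : ℝ) (hσ : 0 < σ) (x y : V k) : gk σ x * gk σ y ≤
    (gk σ ((1 / 2 : ℝ) • (x + y))) ^ 2 * Real.exp (-((σ ^ 2)⁻¹ / 4 * ‖x - y‖ ^ 2)) := by
  unfold gk
  rw [← Real.exp_add, ← Real.exp_nat_mul, ← Real.exp_add, Real.exp_le_exp]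
  have h1 : ‖(1 / 2 : ℝ) • (x + y)‖ ^ 2 = 1 / 4 * ‖x + y‖ ^ 2 := by
    rw [norm_smul, mul_pow, Real.norm_of_nonneg (by norm_num)]
    norm_num
  have h2 : ‖x + y‖ ^ 2 + ‖x - y‖ ^ 2 = 2 * (‖x‖ ^ 2 + ‖y‖ ^ 2) := by
    have := parallelogram_law_with_norm ℝ x y
    nlinarith [this]
  rw [h1]
  have h3 : ‖x + y‖ ^ 2 = 2 * (‖x‖ ^ 2 + ‖y‖ ^ 2) - ‖x - y‖ ^ 2 := by linarith
  rw [h3]
  apply le_of_eq
  field_simp
  push_cast
  ring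

theorem zl2_gauss (hPU : S_PU) {k : ℕ} (σ : ℝ) (hσ : 0 < σ) (θ : V k) :
    Integrable (fun z : V k => ⟪θ, z⟫_ℝ ^ 2 * gk σ z) ∧
    Integrable (fun z : V k => ⟪θ, z⟫_ℝ * gk σ z) ∧ (∫ z : V k, ⟪θ, z⟫_ℝ * gk σ z) = 0 ∧
    (∫ z : V k, ⟪θ, z⟫_ℝ ^ 2 * gk σ z) ≤ σ ^ 2 * (ck k σ * ‖θ‖ ^ 2) := by
  have hint := zl2_int (k := k) σ hσ
  have hck : 0 < ck k σ := by
    unfold ck
    rw [integral_pos_iff_support_of_nonneg (fun z => (zl2_pos σ z).le) hint]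
    have : Function.support (gk σ : V k → ℝ) = univ := by
      ext z
      simp [(zl2_pos σ z).ne']
    rw [this]
    exact isOpen_univ.measure_pos volume univ_nonempty
  have hLC : LC (fun z : V k => ⟪θ, z⟫_ℝ) := by
    refine ⟨contDiff_const.inner ℝ contDiff_id, ‖θ‖, fun x => ?_⟩
    have : (fun z : V k => ⟪θ, z⟫_ℝ) = fun z => (innerSL ℝ θ : V k →L[ℝ] ℝ) z := rfl
    rw [this, ContinuousLinearMap.fderiv, innerSL_apply_norm]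
  obtain ⟨h1, h2, h3⟩ := hPU k (gk σ) (fun z => (zl2_pos σ z).le) (zl2_cont σ).measurable
    ⟨1, zl2_le σ⟩ hint hck (σ ^ 2)⁻¹ (by positivity) (zl2_mid σ hσ) _ hLC
  have h4 : (∫ z : V k, ⟪θ, z⟫_ℝ * gk σ z) = 0 := by
    have h5 := integral_neg_eq_self (μ := (volume : Measure (V k))) fun z : V k => ⟪θ, z⟫_ℝ * gk σ z
    have h6 : (fun z : V k => ⟪θ, -z⟫_ℝ * gk σ (-z)) = fun z => -(⟪θ, z⟫_ℝ * gk σ z) := by
      funext z
      rw [zl2_neg, inner_neg_right, neg_mul]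
    rw [h6, integral_neg] at h5
    linarith
  refine ⟨h1, h2, h4, ?_⟩
  rw [h4] at h3
  simp only [zero_pow two_ne_zero, sub_zero] at h3
  have h5 : ∀ z : V k, ‖fderiv ℝ (fun z : V k => ⟪θ, z⟫_ℝ) z‖ ^ 2 * gk σ z = ‖θ‖ ^ 2 * gk σ z := by
    intro z
    have : (fun z : V k => ⟪θ, z⟫_ℝ) = fun z => (innerSL ℝ θ : V k →L[ℝ] ℝ) z := rfl
    rw [this, ContinuousLinearMap.fderiv, innerSL_apply_norm]
  simp only [h5] at h3
  rw [integral_const_mul, inv_inv] at h3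
  have hckd : (∫ z : V k, gk σ z) = ck k σ := rfl
  rw [hckd] at h3
  have h6 : ck k σ * (∫ z : V k, ⟪θ, z⟫_ℝ ^ 2 * gk σ z) ≤
      ck k σ * (σ ^ 2 * (ck k σ * ‖θ‖ ^ 2)) := by
    calc ck k σ * (∫ z : V k, ⟪θ, z⟫_ℝ ^ 2 * gk σ z)
        ≤ σ ^ 2 * (ck k σ * (‖θ‖ ^ 2 * ck k σ)) := h3
      _ = ck k σ * (σ ^ 2 * (ck k σ * ‖θ‖ ^ 2)) := by ring
  exact le_of_mul_le_mul_left h6 hck

theorem zl2_shift (hPU : S_PU) {k : ℕ} (σ : ℝ) (hσ : 0 < σ) (θ y : V k) :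
    ∫⁻ τ : V k, ENNReal.ofReal (⟪θ, τ⟫_ℝ ^ 2 * gk σ (y - τ)) ≤
      ENNReal.ofReal (ck k σ) * (ENNReal.ofReal (⟪θ, y⟫_ℝ ^ 2) +
        ENNReal.ofReal (σ ^ 2 * ‖θ‖ ^ 2)) := by
  obtain ⟨h1, h2, h3, h4⟩ := zl2_gauss hPU σ hσ θ
  have hint := zl2_int (k := k) σ hσ
  have hck : 0 ≤ ck k σ := integral_nonneg fun z => (zl2_pos σ z).le
  have e1 : ∫⁻ τ : V k, ENNReal.ofReal (⟪θ, τ⟫_ℝ ^ 2 * gk σ (y - τ)) =
      ∫⁻ z : V k, ENNReal.ofReal (⟪θ, y - z⟫_ℝ ^ 2 * gk σ z) := by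
    rw [← lintegral_sub_left_eq_self (μ := (volume : Measure (V k)))
      (fun z : V k => ENNReal.ofReal (⟪θ, y - z⟫_ℝ ^ 2 * gk σ z)) y]
    refine lintegral_congr fun τ => ?_
    rw [sub_sub_cancel]
  have e2 : (fun z : V k => ⟪θ, y - z⟫_ℝ ^ 2 * gk σ z) = fun z =>
      (⟪θ, y⟫_ℝ ^ 2 * gk σ z - 2 * ⟪θ, y⟫_ℝ * (⟪θ, z⟫_ℝ * gk σ z)) +
        ⟪θ, z⟫_ℝ ^ 2 * gk σ z := by
    funext z
    rw [inner_sub_right]
    ring
  have i1 : Integrable (fun z : V k => ⟪θ, y⟫_ℝ ^ 2 * gk σ z) := hint.const_mul _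
  have i2 : Integrable (fun z : V k => 2 * ⟪θ, y⟫_ℝ * (⟪θ, z⟫_ℝ * gk σ z)) := h2.const_mul _
  have i3 : Integrable (fun z : V k => ⟪θ, y⟫_ℝ ^ 2 * gk σ z -
      2 * ⟪θ, y⟫_ℝ * (⟪θ, z⟫_ℝ * gk σ z)) := i1.sub i2
  have e3 : ∫ z : V k, ⟪θ, y - z⟫_ℝ ^ 2 * gk σ z = ⟪θ, y⟫_ℝ ^ 2 * ck k σ +
      ∫ z : V k, ⟪θ, z⟫_ℝ ^ 2 * gk σ z := by
    rw [e2, integral_add i3 h1, integral_sub i1 i2, integral_const_mul,
      integral_const_mul, h3, mul_zero, sub_zero]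
    rfl
  have hi : Integrable (fun z : V k => ⟪θ, y - z⟫_ℝ ^ 2 * gk σ z) := by
    rw [e2]
    exact i3.add h1
  rw [e1, ← ofReal_integral_eq_lintegral_ofReal hi (Filter.Eventually.of_forall fun z =>
    mul_nonneg (sq_nonneg _) (zl2_pos σ z).le), e3, ← ENNReal.ofReal_add (by positivity)
    (by positivity), ← ENNReal.ofReal_mul hck]
  apply ENNReal.ofReal_le_ofReal
  calc ⟪θ, y⟫_ℝ ^ 2 * ck k σ + ∫ z : V k, ⟪θ, z⟫_ℝ ^ 2 * gk σ z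
      ≤ ⟪θ, y⟫_ℝ ^ 2 * ck k σ + σ ^ 2 * (ck k σ * ‖θ‖ ^ 2) := by gcongr
    _ = ck k σ * (⟪θ, y⟫_ℝ ^ 2 + σ ^ 2 * ‖θ‖ ^ 2) := by ring

theorem zl2 (hPU : S_PU) : S_ZL2 := by
  intro n k μ hμ T σ s hσ hs hM θ
  have hT : Continuous T := T.continuous_of_finiteDimensional
  have hck : 0 ≤ ck k σ := integral_nonneg fun z => (zl2_pos σ z).le
  have e1 : ∀ τ : V k, ENNReal.ofReal (⟪θ, τ⟫_ℝ ^ 2 * Zz μ T σ τ) =
      ∫⁻ x, ENNReal.ofReal (⟪θ, τ⟫_ℝ ^ 2 * gk σ (T x - τ)) ∂μ := by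
    intro τ
    have hi : Integrable (fun x => ⟪θ, τ⟫_ℝ ^ 2 * gk σ (T x - τ)) μ := by
      refine Integrable.const_mul ?_ _
      refine Integrable.of_bound ((zl2_cont σ).comp (hT.sub continuous_const)).aestronglyMeasurable 1
        (Filter.Eventually.of_forall fun x => ?_)
      rw [Real.norm_eq_abs, abs_of_pos (zl2_pos σ _)]
      exact zl2_le σ _
    rw [← ofReal_integral_eq_lintegral_ofReal hi (Filter.Eventually.of_forall fun z =>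
      mul_nonneg (sq_nonneg _) (zl2_pos σ _).le), integral_const_mul]
    rfl
  simp only [e1]
  rw [lintegral_lintegral_swap]
  · calc ∫⁻ x, ∫⁻ τ, ENNReal.ofReal (⟪θ, τ⟫_ℝ ^ 2 * gk σ (T x - τ)) ∂volume ∂μ
        ≤ ∫⁻ x, ENNReal.ofReal (ck k σ) * (ENNReal.ofReal (⟪θ, T x⟫_ℝ ^ 2) +
        ENNReal.ofReal (σ ^ 2 * ‖θ‖ ^ 2)) ∂μ :=
          lintegral_mono fun x => zl2_shift hPU σ hσ θ (T x)
      _ = ENNReal.ofReal (ck k σ) * (∫⁻ x, ENNReal.ofReal (⟪θ, T x⟫_ℝ ^ 2) ∂μ +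
        ENNReal.ofReal (σ ^ 2 * ‖θ‖ ^ 2)) := by
          rw [lintegral_const_mul' _ _ ENNReal.ofReal_ne_top, lintegral_add_right _ measurable_const,
            lintegral_const, measure_univ, mul_one]
      _ ≤ ENNReal.ofReal (ck k σ) * (ENNReal.ofReal (s * ‖θ‖ ^ 2) +
        ENNReal.ofReal (σ ^ 2 * ‖θ‖ ^ 2)) := by
          gcongr
          exact hM θ
      _ = ENNReal.ofReal (ck k σ * ((s + σ ^ 2) * ‖θ‖ ^ 2)) := by
          rw [← ENNReal.ofReal_add (by positivity) (by positivity), ← ENNReal.ofReal_mul hck]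
          congr 1
          ring
  · apply Measurable.aemeasurable
    have hc : Continuous fun p : V k × V n => ⟪θ, p.1⟫_ℝ ^ 2 * gk σ (T p.2 - p.1) := by
      have h1 : Continuous fun p : V k × V n => T p.2 - p.1 :=
        (hT.comp continuous_snd).sub continuous_fst
      have h2 : Continuous fun p : V k × V n => ⟪θ, p.1⟫_ℝ := by fun_prop
      exact (h2.pow 2).mul ((zl2_cont σ).comp h1)
    exact hc.measurable.ennreal_ofReal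

end Pool.Agent.H787R2.UT
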