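import Pool.Agent.H787R2.UT.St2

/-!
ZL22: second moment of the norm of `Zz` (helper99)
-/

set_option autoImplicit false

namespace Pool.Agent.H787R2.UT

open MeasureTheory Set Pool.Agent.H212R2.KLS
open scoped ENNReal InnerProductSpace

theorem zl22x_cont {k : ℕ} (σ : ℝ) : Continuous (gk σ : V k → ℝ) := by
  unfold gk
  fun_prop

theorem zl22x_pos {k : ℕ} (σ : ℝ) (z : V k) : 0 < gk σ z := Real.exp_pos _

theorem zl22x_le {k : ℕ} (σ : ℝ) (z : V k) : gk σ z ≤ 1 := by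
  unfold gk
  rw [Real.exp_le_one_iff, neg_nonpos]
  positivity

theorem zl22x_neg {k : ℕ} (σ : ℝ) (z : V k) : gk σ (-z) = gk σ z := by
  unfold gk
  rw [norm_neg]

theorem zl22x_int {k : ℕ} (σ : ℝ) (hσ : 0 < σ) : Integrable (gk σ : V k → ℝ) := by
  have hb : 0 < (((2 * σ ^ 2)⁻¹ : ℝ) : ℂ).re := by
    rw [Complex.ofReal_re]
    positivity
  have h := (GaussianFourier.integrable_cexp_neg_mul_sq_norm_add (V := V k) hb 0 0).norm
  refine h.congr (Filter.Eventually.of_forall fun z => ?_)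
  show ‖Complex.exp _‖ = gk σ z
  rw [Complex.norm_exp]
  unfold gk
  congr 1
  simp only [zero_mul, add_zero]
  rw [← Complex.ofReal_neg, ← Complex.ofReal_pow, ← Complex.ofReal_mul, Complex.ofReal_re]
  rw [div_eq_inv_mul, neg_mul]

theorem zl22x_mid {k : ℕ} (σ : ℝ) (hσ : 0 < σ) (x y : V k) : gk σ x * gk σ y ≤
    (gk σ ((1 / 2 : ℝ) • (x + y))) ^ 2 * Real.exp (-((σ ^ 2)⁻¹ / 4 * ‖x - y‖ ^ 2)) := by
  unfold gk
  rw [← Real.exp_add, ← Real.exp_nat_mul, ← Real.exp_add, Real.exp_le_exp]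
  have h1 : ‖(1 / 2 : ℝ) • (x + y)‖ ^ 2 = 1 / 4 * ‖x + y‖ ^ 2 := by
    rw [norm_smul, mul_pow, Real.norm_of_nonneg (by norm_num)]
    norm_num
  have h2 : ‖x + y‖ ^ 2 + ‖x - y‖ ^ 2 = 2 * (‖x‖ ^ 2 + ‖y‖ ^ 2) := by
    have := parallelogram_law_with_norm ℝ x y
    nlinarith [this]
  rw [h1]
  have h3 : ‖x + y‖ ^ 2 = 2 * (‖x‖ ^ 2 + ‖y‖ ^ 2) - ‖x - y‖ ^ 2 := by linarith
  rw [h3]
  apply le_of_eq
  field_simp
  push_cast
  ring

theorem zl22x_gauss (hPU : S_PU) {k : ℕ} (σ : ℝ) (hσ : 0 < σ) (θ : V k) :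
    Integrable (fun z : V k => ⟪θ, z⟫_ℝ ^ 2 * gk σ z) ∧
    Integrable (fun z : V k => ⟪θ, z⟫_ℝ * gk σ z) ∧ (∫ z : V k, ⟪θ, z⟫_ℝ * gk σ z) = 0 ∧
    (∫ z : V k, ⟪θ, z⟫_ℝ ^ 2 * gk σ z) ≤ σ ^ 2 * (ck k σ * ‖θ‖ ^ 2) := by
  have hint := zl22x_int (k := k) σ hσ
  have hck : 0 < ck k σ := by
    unfold ck
    rw [integral_pos_iff_support_of_nonneg (fun z => (zl22x_pos σ z).le) hint]
    have : Function.support (gk σ : V k → ℝ) = univ := by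
      ext z
      simp [(zl22x_pos σ z).ne']
    rw [this]
    exact isOpen_univ.measure_pos volume univ_nonempty
  have hLC : LC (fun z : V k => ⟪θ, z⟫_ℝ) := by
    refine ⟨contDiff_const.inner ℝ contDiff_id, ‖θ‖, fun x => ?_⟩
    have : (fun z : V k => ⟪θ, z⟫_ℝ) = fun z => (innerSL ℝ θ : V k →L[ℝ] ℝ) z := rfl
    rw [this, ContinuousLinearMap.fderiv, innerSL_apply_norm]
  obtain ⟨h1, h2, h3⟩ := hPU k (gk σ) (fun z => (zl22x_pos σ z).le) (zl22x_cont σ).measurable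
    ⟨1, zl22x_le σ⟩ hint hck (σ ^ 2)⁻¹ (by positivity) (zl22x_mid σ hσ) _ hLC
  have h4 : (∫ z : V k, ⟪θ, z⟫_ℝ * gk σ z) = 0 := by
    have h5 := integral_neg_eq_self (μ := (volume : Measure (V k))) fun z : V k => ⟪θ, z⟫_ℝ * gk σ z
    have h6 : (fun z : V k => ⟪θ, -z⟫_ℝ * gk σ (-z)) = fun z => -(⟪θ, z⟫_ℝ * gk σ z) := by
      funext z
      rw [zl22x_neg, inner_neg_right, neg_mul]
    rw [h6, integral_neg] at h5
    linarith
  refine ⟨h1, h2, h4, ?_⟩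
  rw [h4] at h3
  simp only [zero_pow two_ne_zero, sub_zero] at h3
  have h5 : ∀ z : V k, ‖fderiv ℝ (fun z : V k => ⟪θ, z⟫_ℝ) z‖ ^ 2 * gk σ z = ‖θ‖ ^ 2 * gk σ z := by
    intro z
    have : (fun z : V k => ⟪θ, z⟫_ℝ) = fun z => (innerSL ℝ θ : V k →L[ℝ] ℝ) z := rfl
    rw [this, ContinuousLinearMap.fderiv, innerSL_apply_norm]
  simp only [h5] at h3
  rw [integral_const_mul, inv_inv] at h3
  have hckd : (∫ z : V k, gk σ z) = ck k σ := rfl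
  rw [hckd] at h3
  have h6 : ck k σ * (∫ z : V k, ⟪θ, z⟫_ℝ ^ 2 * gk σ z) ≤
      ck k σ * (σ ^ 2 * (ck k σ * ‖θ‖ ^ 2)) := by
    calc ck k σ * (∫ z : V k, ⟪θ, z⟫_ℝ ^ 2 * gk σ z)
        ≤ σ ^ 2 * (ck k σ * (‖θ‖ ^ 2 * ck k σ)) := h3
      _ = ck k σ * (σ ^ 2 * (ck k σ * ‖θ‖ ^ 2)) := by ring
  exact le_of_mul_le_mul_left h6 hck

theorem zl22x_shift (hPU : S_PU) {k : ℕ} (σ : ℝ) (hσ : 0 < σ) (θ y : V k) :
    ∫⁻ τ : V k, ENNReal.ofReal (⟪θ, τ⟫_ℝ ^ 2 * gk σ (y - τ)) ≤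
      ENNReal.ofReal (ck k σ) * (ENNReal.ofReal (⟪θ, y⟫_ℝ ^ 2) +
        ENNReal.ofReal (σ ^ 2 * ‖θ‖ ^ 2)) := by
  obtain ⟨h1, h2, h3, h4⟩ := zl22x_gauss hPU σ hσ θ
  have hint := zl22x_int (k := k) σ hσ
  have hck : 0 ≤ ck k σ := integral_nonneg fun z => (zl22x_pos σ z).le
  have e1 : ∫⁻ τ : V k, ENNReal.ofReal (⟪θ, τ⟫_ℝ ^ 2 * gk σ (y - τ)) =
      ∫⁻ z : V k, ENNReal.ofReal (⟪θ, y - z⟫_ℝ ^ 2 * gk σ z) := by
    rw [← lintegral_sub_left_eq_self (μ := (volume : Measure (V k)))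
      (fun z : V k => ENNReal.ofReal (⟪θ, y - z⟫_ℝ ^ 2 * gk σ z)) y]
    refine lintegral_congr fun τ => ?_
    rw [sub_sub_cancel]
  have e2 : (fun z : V k => ⟪θ, y - z⟫_ℝ ^ 2 * gk σ z) = fun z =>
      (⟪θ, y⟫_ℝ ^ 2 * gk σ z - 2 * ⟪θ, y⟫_ℝ * (⟪θ, z⟫_ℝ * gk σ z)) +
        ⟪θ, z⟫_ℝ ^ 2 * gk σ z := by
    funext z
    rw [inner_sub_right]
    ring
  have i1 : Integrable (fun z : V k => ⟪θ, y⟫_ℝ ^ 2 * gk σ z) := hint.const_mul _
  have i2 : Integrable (fun z : V k => 2 * ⟪θ, y⟫_ℝ * (⟪θ, z⟫_ℝ * gk σ z)) := h2.const_mul _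
  have i3 : Integrable (fun z : V k => ⟪θ, y⟫_ℝ ^ 2 * gk σ z -
      2 * ⟪θ, y⟫_ℝ * (⟪θ, z⟫_ℝ * gk σ z)) := i1.sub i2
  have e3 : ∫ z : V k, ⟪θ, y - z⟫_ℝ ^ 2 * gk σ z = ⟪θ, y⟫_ℝ ^ 2 * ck k σ +
      ∫ z : V k, ⟪θ, z⟫_ℝ ^ 2 * gk σ z := by
    rw [e2, integral_add i3 h1, integral_sub i1 i2, integral_const_mul,
      integral_const_mul, h3, mul_zero, sub_zero]
    rfl
  have hi : Integrable (fun z : V k => ⟪θ, y - z⟫_ℝ ^ 2 * gk σ z) := by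
    rw [e2]
    exact i3.add h1
  rw [e1, ← ofReal_integral_eq_lintegral_ofReal hi (Filter.Eventually.of_forall fun z =>
    mul_nonneg (sq_nonneg _) (zl22x_pos σ z).le), e3, ← ENNReal.ofReal_add (by positivity)
    (by positivity), ← ENNReal.ofReal_mul hck]
  apply ENNReal.ofReal_le_ofReal
  calc ⟪θ, y⟫_ℝ ^ 2 * ck k σ + ∫ z : V k, ⟪θ, z⟫_ℝ ^ 2 * gk σ z
      ≤ ⟪θ, y⟫_ℝ ^ 2 * ck k σ + σ ^ 2 * (ck k σ * ‖θ‖ ^ 2) := by gcongr
    _ = ck k σ * (⟪θ, y⟫_ℝ ^ 2 + σ ^ 2 * ‖θ‖ ^ 2) := by ring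

theorem zl22_one (hPU : S_PU) {n k : ℕ} (μ : Measure (V n)) [IsProbabilityMeasure μ]
    (T : V n →ₗ[ℝ] V k) (σ : ℝ) (hσ : 0 < σ) (θ : V k) :
    ∫⁻ τ, ENNReal.ofReal (⟪θ, τ⟫_ℝ ^ 2 * Zz μ T σ τ) ≤ ENNReal.ofReal (ck k σ) *
      (∫⁻ x, ENNReal.ofReal (⟪θ, T x⟫_ℝ ^ 2) ∂μ + ENNReal.ofReal (σ ^ 2 * ‖θ‖ ^ 2)) := by
  have hT : Continuous T := T.continuous_of_finiteDimensional
  have hck : 0 ≤ ck k σ := integral_nonneg fun z => (zl22x_pos σ z).le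
  have e1 : ∀ τ : V k, ENNReal.ofReal (⟪θ, τ⟫_ℝ ^ 2 * Zz μ T σ τ) =
      ∫⁻ x, ENNReal.ofReal (⟪θ, τ⟫_ℝ ^ 2 * gk σ (T x - τ)) ∂μ := by
    intro τ
    have hi : Integrable (fun x => ⟪θ, τ⟫_ℝ ^ 2 * gk σ (T x - τ)) μ := by
      refine Integrable.const_mul ?_ _
      refine Integrable.of_bound ((zl22x_cont σ).comp (hT.sub continuous_const)).aestronglyMeasurable 1
        (Filter.Eventually.of_forall fun x => ?_)
      rw [Real.norm_eq_abs, abs_of_pos (zl22x_pos σ _)]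
      exact zl22x_le σ _
    rw [← ofReal_integral_eq_lintegral_ofReal hi (Filter.Eventually.of_forall fun z =>
      mul_nonneg (sq_nonneg _) (zl22x_pos σ _).le), integral_const_mul]
    rfl
  simp only [e1]
  rw [lintegral_lintegral_swap]
  · calc ∫⁻ x, ∫⁻ τ, ENNReal.ofReal (⟪θ, τ⟫_ℝ ^ 2 * gk σ (T x - τ)) ∂volume ∂μ
        ≤ ∫⁻ x, ENNReal.ofReal (ck k σ) * (ENNReal.ofReal (⟪θ, T x⟫_ℝ ^ 2) +
        ENNReal.ofReal (σ ^ 2 * ‖θ‖ ^ 2)) ∂μ :=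
          lintegral_mono fun x => zl22x_shift hPU σ hσ θ (T x)
      _ = ENNReal.ofReal (ck k σ) * (∫⁻ x, ENNReal.ofReal (⟪θ, T x⟫_ℝ ^ 2) ∂μ +
        ENNReal.ofReal (σ ^ 2 * ‖θ‖ ^ 2)) := by
          rw [lintegral_const_mul' _ _ ENNReal.ofReal_ne_top, lintegral_add_right _ measurable_const,
            lintegral_const, measure_univ, mul_one]
  · apply Measurable.aemeasurable
    have hc : Continuous fun p : V k × V n => ⟪θ, p.1⟫_ℝ ^ 2 * gk σ (T p.2 - p.1) := by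
      have h1 : Continuous fun p : V k × V n => T p.2 - p.1 :=
        (hT.comp continuous_snd).sub continuous_fst
      have h2 : Continuous fun p : V k × V n => ⟪θ, p.1⟫_ℝ := by fun_prop
      exact (h2.pow 2).mul ((zl22x_cont σ).comp h1)
    exact hc.measurable.ennreal_ofReal

theorem zl22_norm {k : ℕ} (y : V k) :
    ‖y‖ ^ 2 = ∑ i : Fin k, ⟪EuclideanSpace.single i (1 : ℝ), y⟫_ℝ ^ 2 := by
  rw [EuclideanSpace.real_norm_sq_eq]
  refine Finset.sum_congr rfl fun i _ => ?_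
  simp [EuclideanSpace.inner_single_left]

theorem zl22 (hPU : S_PU) : S_ZL22 := by
  intro n k μ hμ T σ M hσ hM0 hM
  have hT : Continuous T := T.continuous_of_finiteDimensional
  have hck : 0 ≤ ck k σ := integral_nonneg fun z => (zl22x_pos σ z).le
  have hZc : Measurable (Zz μ T σ) := by
    have : StronglyMeasurable (Zz μ T σ) := by
      unfold Zz
      have hc : Continuous fun p : V k × V n => gk σ (T p.2 - p.1) :=
        (zl22x_cont σ).comp ((hT.comp continuous_snd).sub continuous_fst)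
      exact hc.stronglyMeasurable.integral_prod_right
    exact this.measurable
  have hZ0 : ∀ τ, 0 ≤ Zz μ T σ τ := fun τ => integral_nonneg fun x => (zl22x_pos σ _).le
  unfold NMom at hM
  have e1 : ∀ τ : V k, ENNReal.ofReal (‖τ‖ ^ 2 * Zz μ T σ τ) =
      ∑ i : Fin k, ENNReal.ofReal (⟪EuclideanSpace.single i (1 : ℝ), τ⟫_ℝ ^ 2 * Zz μ T σ τ) := by
    intro τ
    rw [← ENNReal.ofReal_sum_of_nonneg (fun i _ => mul_nonneg (sq_nonneg _) (hZ0 τ)),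
      ← Finset.sum_mul, zl22_norm]
  have e2 : ∀ x : V n, ENNReal.ofReal (‖T x‖ ^ 2) =
      ∑ i : Fin k, ENNReal.ofReal (⟪EuclideanSpace.single i (1 : ℝ), T x⟫_ℝ ^ 2) := by
    intro x
    rw [← ENNReal.ofReal_sum_of_nonneg (fun i _ => sq_nonneg _), zl22_norm]
  simp only [e1]
  have hms : ∀ i : Fin k, Measurable fun τ : V k =>
      ENNReal.ofReal (⟪EuclideanSpace.single i (1 : ℝ), τ⟫_ℝ ^ 2 * Zz μ T σ τ) := by
    intro i
    have h1 : Measurable fun τ : V k => ⟪EuclideanSpace.single i (1 : ℝ), τ⟫_ℝ ^ 2 := by fun_prop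
    exact (h1.mul hZc).ennreal_ofReal
  rw [lintegral_finsetSum _ (fun i _ => hms i)]
  calc ∑ i : Fin k, ∫⁻ τ, ENNReal.ofReal (⟪EuclideanSpace.single i (1 : ℝ), τ⟫_ℝ ^ 2 *
        Zz μ T σ τ) ≤ ∑ i : Fin k, ENNReal.ofReal (ck k σ) *
      (∫⁻ x, ENNReal.ofReal (⟪EuclideanSpace.single i (1 : ℝ), T x⟫_ℝ ^ 2) ∂μ +
        ENNReal.ofReal (σ ^ 2)) := by
        refine Finset.sum_le_sum fun i _ => ?_
        refine (zl22_one hPU μ T σ hσ (EuclideanSpace.single i (1 : ℝ))).trans (le_of_eq ?_)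
        simp
    _ = ENNReal.ofReal (ck k σ) * (∫⁻ x, ENNReal.ofReal (‖T x‖ ^ 2) ∂μ +
        ENNReal.ofReal (k * σ ^ 2)) := by
        rw [← Finset.mul_sum, Finset.sum_add_distrib]
        congr 2
        · simp only [e2]
          rw [lintegral_finsetSum _ (fun i _ => by
            have := hT.measurable
            fun_prop)]
        · rw [Finset.sum_const, Finset.card_univ, Fintype.card_fin, nsmul_eq_mul,
            ENNReal.ofReal_mul (by positivity), ENNReal.ofReal_natCast]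
    _ ≤ ENNReal.ofReal (ck k σ) * (ENNReal.ofReal M + ENNReal.ofReal (k * σ ^ 2)) := by
        gcongr
    _ = ENNReal.ofReal (ck k σ * (M + k * σ ^ 2)) := by
        rw [← ENNReal.ofReal_add hM0 (by positivity), ← ENNReal.ofReal_mul hck]

end Pool.Agent.H787R2.UT
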